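import Pool.Agent.Y19.QT.Forms
import Mathlib

/-!
Project QT, tasks N3 and N4: the arithmetic input of the two CM families.

`QuarticData A` is the arithmetic of `y² = x³ + A x` (to be proved for every `A ≠ 0`),
`SexticData B` that of `y² = x³ + B` (pairs `(x, y)` stand for `x + y ω`, `ω = exp (2πi/3)`).
-/

set_option autoImplicit false

namespace Pool.Agent.Y692.QN

open Pool.Agent.Y19.QT

/-- A Gaussian integer as a complex number -/
noncomputable def gz (α : GaussianInt) : ℂ :=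
  (α.re : ℂ) + (α.im : ℂ) * Complex.I

/-- the arithmetic input for `y² = x³ + A x` -/
def QuarticData (A : ℤ) : Prop :=
  ∃ (m : ℕ) (θ : GaussianInt → ℂ), 0 < m ∧
    (∀ p : ℕ, p.Prime → p ∣ m → (p : ℤ) ∣ 2 * A) ∧
    (∀ α β : GaussianInt, θ (α * β) = θ α * θ β) ∧
    (∀ α β : GaussianInt, (m : GaussianInt) ∣ α - β → θ α = θ β) ∧
    (∀ α : GaussianInt, θ α = 0 ↔ ¬ IsCoprime α (m : GaussianInt)) ∧
    (∀ u : GaussianInt, IsUnit u → θ u * gz u = 1) ∧
    (∀ α : GaussianInt, θ (star α) = (starRingEnd ℂ) (θ α)) ∧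
    (∀ p : ℕ, p.Prime → p % 4 = 3 → ¬ (p : ℤ) ∣ 2 * A → θ (p : GaussianInt) = -1) ∧
    (∀ (α : GaussianInt) (p : ℕ), p.Prime → ¬ (p : ℤ) ∣ 2 * A → α.norm = (p : ℤ) →
      (ap A 0 p : ℂ) = θ α * gz α + (starRingEnd ℂ) (θ α * gz α))

end Pool.Agent.Y692.QN
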