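import Pool.Agent.Y692.QN.Fin
import Pool.Agent.Y692.QN.Iface

/-!
Project QT, task N3: the assembly for `y² = x³ + A x`.
-/

set_option autoImplicit false

open Complex

namespace Pool.Agent.Y692.QN

open Pool.Agent.W192.HK Pool.Agent.TH936.AC
open Pool.Agent.Y19.QT

theorem gi_mem (z : ℂ) : z ∈ (GaussianInt.toComplex).range ↔ ∃ x y : ℤ, z = x + y * I := by
  constructor
  · rintro ⟨α, rfl⟩
    exact ⟨α.re, α.im, GaussianInt.toComplex_def α⟩
  · rintro ⟨x, y, rfl⟩
    exact ⟨⟨x, y⟩, GaussianInt.toComplex_def ⟨x, y⟩⟩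

theorem gi_normSq (x y : ℤ) : Complex.normSq ((x : ℂ) + y * I) = ((x ^ 2 + y ^ 2 : ℤ) : ℝ) := by
  rw [Complex.normSq_apply]
  simp
  ring

theorem gi_qp : QP (GaussianInt.toComplex).range I := by
  refine qp_of (by simp) gi_mem (fun z => ?_) (fun z hz => ?_)
  · refine ⟨(round z.re : ℂ) + (round z.im : ℂ) * I, (gi_mem _).2 ⟨_, _, rfl⟩, ?_⟩
    have h1 := abs_sub_round z.re
    have h2 := abs_sub_round z.im
    have e : Complex.normSq (z - ((round z.re : ℂ) + (round z.im : ℂ) * I)) =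
        (z.re - round z.re) ^ 2 + (z.im - round z.im) ^ 2 := by
      rw [Complex.normSq_apply]
      simp
      ring
    rw [e]
    have h3 : (z.re - round z.re) ^ 2 ≤ (1 / 2) ^ 2 := by
      rw [← sq_abs]
      exact pow_le_pow_left₀ (abs_nonneg _) h1 2
    have h4 : (z.im - round z.im) ^ 2 ≤ (1 / 2) ^ 2 := by
      rw [← sq_abs]
      exact pow_le_pow_left₀ (abs_nonneg _) h2 2
    linarith
  · obtain ⟨x, y, rfl⟩ := (gi_mem z).1 hz
    refine ⟨(x ^ 2 + y ^ 2).toNat, ?_⟩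
    rw [gi_normSq]
    have : ((x ^ 2 + y ^ 2).toNat : ℤ) = x ^ 2 + y ^ 2 := Int.toNat_of_nonneg (by positivity)
    exact_mod_cast this.symm

theorem gz_eq (α : GaussianInt) : gz α = GaussianInt.toComplex α :=
  (GaussianInt.toComplex_def α).symm

theorem sq_mod_four (x : ℤ) : x ^ 2 % 4 = 0 ∨ x ^ 2 % 4 = 1 := by
  rcases Int.even_or_odd' x with ⟨k, rfl | rfl⟩
  · left
    ring_nf
    omega
  · right
    ring_nf
    omega

/-- the trace at primes `3 mod 4` -/
theorem ap_three (A : ℤ) {p : ℕ} (hp : p.Prime) (h3 : p % 4 = 3) : ap A 0 p = 0 := by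
  have : Fact p.Prime := ⟨hp⟩
  have hp2 : p ≠ 2 := by rintro rfl; omega
  have h := Pool.Agent.Y691.QT.card_eq p hp2 (A : ZMod p) 0
  have hneg : quadraticChar (ZMod p) (-1) = -1 := by
    rw [quadraticChar_neg_one_iff_not_isSquare]
    intro hs
    exact (ZMod.exists_sq_eq_neg_one_iff.1 hs) h3
  have hs : ∑ x : ZMod p, quadraticChar (ZMod p) (x ^ 3 + (A : ZMod p) * x + 0) = 0 := by
    have e1 : ∑ x : ZMod p, quadraticChar (ZMod p) (x ^ 3 + (A : ZMod p) * x + 0) =
        ∑ x : ZMod p, quadraticChar (ZMod p) ((-x) ^ 3 + (A : ZMod p) * (-x) + 0) :=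
      (Equiv.sum_comp (Equiv.neg (ZMod p))
        (fun x => quadraticChar (ZMod p) (x ^ 3 + (A : ZMod p) * x + 0))).symm
    have e2 : ∀ x : ZMod p, quadraticChar (ZMod p) ((-x) ^ 3 + (A : ZMod p) * (-x) + 0) =
        -quadraticChar (ZMod p) (x ^ 3 + (A : ZMod p) * x + 0) := by
      intro x
      have : (-x) ^ 3 + (A : ZMod p) * (-x) + 0 = (-1) * (x ^ 3 + (A : ZMod p) * x + 0) := by ring
      rw [this, map_mul, hneg, neg_one_mul]
    rw [Finset.sum_congr rfl fun x _ => e2 x, Finset.sum_neg_distrib] at e1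
    linarith
  unfold ap
  rw [hs, add_zero] at h
  rw [Int.cast_zero]
  linarith

theorem quartic_af (A : ℤ) (hA : A ≠ 0) (h : QuarticData A) :
    ∃ (N : ℕ) (f : ℕ → ℂ), AF A 0 N f := by
  obtain ⟨m, θ, hm, hpm, hmul, hper, hzero, hunit, hstar, hin, hpt⟩ := h
  have hnorm : ∀ α : GaussianInt, Complex.normSq (GaussianInt.toComplex α) = (α.norm : ℝ) := by
    intro α
    rw [GaussianInt.toComplex_def, gi_normSq, Zsqrtd.norm_def]
    push_cast
    ring
  refine af_of GaussianInt.toComplex (fun x y h => GaussianInt.toComplex_inj.1 h)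
    (fun α => star α) (fun α => ?_) gi_qp (D0 := 4) (by simp) hm hmul hper hzero ?_ hstar
    (2 * A).natAbs ?_ A 0 ?_
  · rw [GaussianInt.toComplex_star]
  · intro u hu
    rw [← gz_eq]
    exact hunit u hu
  · intro p p' hp hp' hno h4 hmod hlt
    have hp3 : p % 4 = 3 := by
      by_contra hp3
      have : Fact p.Prime := ⟨hp⟩
      obtain ⟨a, b, hab⟩ := Nat.Prime.sq_add_sq hp3
      apply hno ⟨a, b⟩
      rw [hnorm, Zsqrtd.norm_def]
      have : (a : ℤ) ^ 2 + (b : ℤ) ^ 2 = p := by exact_mod_cast hab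
      have h5 : (a : ℤ) * a - -1 * b * b = p := by linarith
      show (((a : ℤ) * a - -1 * b * b : ℤ) : ℝ) = p
      rw [h5]
      push_cast
      rfl
    refine hin p' hp' (by omega) ?_
    intro hd
    have h2A : (2 * A) ≠ 0 := mul_ne_zero two_ne_zero hA
    have := Int.le_of_dvd (Int.natAbs_pos.2 h2A |> fun h => by exact_mod_cast h)
      ((Int.dvd_natAbs).2 hd)
    omega
  · intro p hp hgood
    have hg : ¬ (p : ℤ) ∣ 2 * A := by
      intro h
      apply hgood
      have : (p : ℤ) ∣ (2 * A) * (4 * A ^ 2) := Dvd.dvd.mul_right h _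
      convert this using 1
      ring
    have hp2 : p ≠ 2 := by
      rintro rfl
      exact hg ⟨A, by push_cast; ring⟩
    refine ⟨fun h => hg (hpm p hp h), ?_, ?_⟩
    · intro h
      have : p ∣ 2 ^ 2 := by norm_num; exact h
      exact hp2 ((Nat.prime_dvd_prime_iff_eq hp Nat.prime_two).1 (hp.dvd_of_dvd_pow this))
    · by_cases h3 : p % 4 = 3
      · left
        refine ⟨fun α h => ?_, ap_three A hp h3⟩
        rw [hnorm] at h
        have h5 : α.norm = (p : ℤ) := by exact_mod_cast h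
        rw [Zsqrtd.norm_def] at h5
        have h6 : α.re ^ 2 + α.im ^ 2 = (p : ℤ) := by linarith
        rcases sq_mod_four α.re with h7 | h7 <;> rcases sq_mod_four α.im with h8 | h8 <;> omega
      · right
        have : Fact p.Prime := ⟨hp⟩
        obtain ⟨a, b, hab⟩ := Nat.Prime.sq_add_sq h3
        have h5 : ((⟨a, b⟩ : GaussianInt)).norm = (p : ℤ) := by
          rw [Zsqrtd.norm_def]
          have : (a : ℤ) ^ 2 + (b : ℤ) ^ 2 = p := by exact_mod_cast hab
          show (a : ℤ) * a - -1 * b * b = p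
          linarith
        refine ⟨⟨a, b⟩, ?_, ?_⟩
        · rw [hnorm, h5]
          push_cast
          rfl
        · rw [← gz_eq]
          exact hpt ⟨a, b⟩ p hp hg h5

/-- the theorem `N3` from the quartic arithmetic -/
theorem N3_of (h : ∀ A : ℤ, A ≠ 0 → QuarticData A) (a : ℤ) (ha : a ≠ 0) :
    HasTwists a 0 ∧ ∀ d : ℤ, Squarefree d → ∃ F : ℂ → ℂ, IsLFun (a * d ^ 2) (0 * d ^ 3) F := by
  have hab : 4 * a ^ 3 + 27 * (0 : ℤ) ^ 2 ≠ 0 := by
    have : 4 * a ^ 3 + 27 * (0 : ℤ) ^ 2 = 4 * a ^ 3 := by ring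
    rw [this]
    exact mul_ne_zero (by norm_num) (pow_ne_zero _ ha)
  refine ⟨T10_of a 0 hab fun g hg => ?_, fun d hd => ?_⟩
  · have h1 : a * g ^ 2 ≠ 0 := mul_ne_zero ha (pow_ne_zero _ hg)
    rw [zero_mul]
    exact quartic_af _ h1 (h _ h1)
  · have h1 : a * d ^ 2 ≠ 0 := mul_ne_zero ha (pow_ne_zero _ hd.ne_zero)
    obtain ⟨N, f, hf⟩ := quartic_af _ h1 (h _ h1)
    rw [zero_mul]
    refine T13b (a * d ^ 2) 0 ?_ N f hf
    have : 4 * (a * d ^ 2) ^ 3 + 27 * (0 : ℤ) ^ 2 = 4 * (a * d ^ 2) ^ 3 := by ring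
    rw [this]
    exact mul_ne_zero (by norm_num) (pow_ne_zero _ h1)

end Pool.Agent.Y692.QN
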