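import Pool.Agent.Y692.QN.Gen

/-!
Project QT, tasks N3, N4: from the arithmetic of a curve with complex multiplication by a ring `A` of
class number one to the axioms `AF`.
-/

set_option autoImplicit false

open Complex

namespace Pool.Agent.Y692.QN

open Pool.Agent.W192.HK Pool.Agent.TH936.AC
open Pool.Agent.Y690 (cop_iff cop_congr cop_mono lift_cop ne_zero_of_cop sp_ne)
open Pool.Agent.Y19.QT

/-- a Euclidean lattice is a ring of class number one -/
theorem qp_of {R : Subring ℂ} {ω : ℂ} (him : 0 < ω.im)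
    (hmem : ∀ z : ℂ, z ∈ R ↔ ∃ x y : ℤ, z = x + y * ω)
    (heu : ∀ z : ℂ, ∃ q ∈ R, Complex.normSq (z - q) < 1)
    (hint : ∀ z ∈ R, ∃ n : ℕ, Complex.normSq z = n) : QP R ω := by
  have hpid : IsPrincipalIdealRing R := by
    refine ⟨fun I => ?_⟩
    by_cases hI : I = ⊥
    · rw [hI]
      exact ⟨⟨0, by simp⟩⟩
    obtain ⟨α₀, hα₀, hne⟩ := Submodule.exists_mem_ne_zero_of_ne_bot hI
    choose! nn hnn using hint
    classical
    have hex : ∃ n : ℕ, ∃ α ∈ I, α ≠ 0 ∧ nn (α : ℂ) = n := ⟨_, α₀, hα₀, hne, rfl⟩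
    obtain ⟨α, hα, hα0, hαn⟩ := Nat.find_spec hex
    have hmin : ∀ β ∈ I, β ≠ 0 → nn (α : ℂ) ≤ nn (β : ℂ) := by
      intro β hβ hβ0
      rw [hαn]
      exact Nat.find_min' hex ⟨β, hβ, hβ0, rfl⟩
    refine ⟨⟨α, le_antisymm (fun β hβ => ?_) ?_⟩⟩
    · obtain ⟨q, hq, hlt⟩ := heu ((β : ℂ) / (α : ℂ))
      have hαc : (α : ℂ) ≠ 0 := fun h => hα0 (Subtype.ext h)
      set γ : R := β - ⟨q, hq⟩ * α with hγ
      have hγI : γ ∈ I := I.sub_mem hβ (I.mul_mem_left _ hα)
      have hγn : Complex.normSq (γ : ℂ) < Complex.normSq (α : ℂ) := by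
        have h1 : (γ : ℂ) = ((β : ℂ) / (α : ℂ) - q) * (α : ℂ) := by
          rw [hγ]
          push_cast
          field_simp
        rw [h1, Complex.normSq_mul]
        have := Complex.normSq_pos.2 hαc
        nlinarith
      have hγ0 : γ = 0 := by
        by_contra h
        have h1 := hmin γ hγI h
        rw [hnn _ γ.2, hnn _ α.2] at hγn
        have h2 : nn (γ : ℂ) < nn (α : ℂ) := by exact_mod_cast hγn
        omega
      have : β = ⟨q, hq⟩ * α := by
        rw [← sub_eq_zero]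
        exact hγ0
      rw [this]
      exact Ideal.mul_mem_left _ _ (Ideal.mem_span_singleton_self _)
    · rw [Ideal.submodule_span_eq, Ideal.span_singleton_le_iff_mem]
      exact hα
  exact ⟨⟨him, hmem, inferInstance⟩, hpid⟩

theorem inert_no {R : Subring ℂ} {ω : ℂ} (hQ : QP R ω) {p : ℕ} (hp : p.Prime)
    (hin : (sp (p : R)).IsPrime) {I : Ideal R} (hI : I ≠ ⊥) (h : cd I = p) : False := by
  have hded := hQ.qr.ded
  have hp0 : sp (p : R) ≠ ⊥ := sp_ne_bot hp.pos
  have hmax : (sp (p : R)).IsMaximal := hin.isMaximal hp0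
  obtain ⟨Q, hQ1, hQ2, hQ3, hQ4⟩ := prime_ex hQ (k := 0) hI (by rw [h, zero_add, pow_one]) hp
  have h1 : sp (p : R) ≤ Q := (Ideal.span_singleton_le_iff_mem _).2 hQ4
  have h2 : sp (p : R) = Q := hmax.eq_of_le hQ1.ne_top h1
  rw [← h2] at hQ3
  obtain ⟨J, hJ⟩ := hQ3
  have h3 := cd_mul hQ (sp (p : R)) J
  rw [← hJ, h, cd_nat hQ] at h3
  have hJ0 : 0 < cd J := by
    rcases Nat.eq_zero_or_pos (cd J) with h | h
    · rw [h, mul_zero] at h3
      exact absurd h3 hp.ne_zero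
    · exact h
  have := hp.one_lt
  nlinarith

/-- the main assembly -/
theorem af_of {A : Type} [CommRing A] (ι : A →+* ℂ) (hι : Function.Injective ι) (st : A → A)
    (hst : ∀ α, ι (st α) = (starRingEnd ℂ) (ι α)) {ω : ℂ} (hQ : QP ι.range ω) {D0 : ℕ}
    (hD : 4 * ω.im ^ 2 = (D0 : ℝ)) {m : ℕ} {θ : A → ℂ} (hm : 0 < m)
    (hmul : ∀ α β : A, θ (α * β) = θ α * θ β)
    (hper : ∀ α β : A, (m : A) ∣ α - β → θ α = θ β)
    (hzero : ∀ α : A, θ α = 0 ↔ ¬ IsCoprime α (m : A))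
    (hunit : ∀ u : A, IsUnit u → θ u * ι u = 1)
    (hbar : ∀ α : A, θ (st α) = (starRingEnd ℂ) (θ α))
    (M : ℕ)
    (hin : ∀ p p' : ℕ, p.Prime → p'.Prime → (∀ α : A, Complex.normSq (ι α) ≠ p) → ¬ p ∣ D0 →
      p' % D0 = p % D0 → M < p' → θ (p' : A) = -1) (a b : ℤ)
    (hpt : ∀ p : ℕ, p.Prime → ¬ (p : ℤ) ∣ 2 * (4 * a ^ 3 + 27 * b ^ 2) →
      ¬ p ∣ m ∧ ¬ p ∣ D0 ∧ (((∀ α : A, Complex.normSq (ι α) ≠ p) ∧ ap a b p = 0) ∨
        ∃ α : A, Complex.normSq (ι α) = p ∧
          (ap a b p : ℂ) = θ α * ι α + (starRingEnd ℂ) (θ α * ι α))) :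
    ∃ (N : ℕ) (f : ℕ → ℂ), AF a b N f := by
  classical
  set R := ι.range with hR
  let e : A ≃+* R := RingEquiv.ofBijective ι.rangeRestrict
    ⟨fun x y h => hι (congrArg Subtype.val h), ι.rangeRestrict_surjective⟩
  have he : ∀ x : A, ((e x : R) : ℂ) = ι x := fun x => rfl
  have hes : ∀ x : R, ι (e.symm x) = (x : ℂ) := by
    intro x
    rw [← he, RingEquiv.apply_symm_apply]
  have hImp : Imp R m (fun x => θ (e.symm x)) := by
    refine ⟨hm, ?_, ?_, ?_, ?_, ?_⟩
    · intro α β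
      rw [map_mul, hmul]
    · intro α β h
      apply hper
      obtain ⟨x, hx⟩ := Ideal.mem_span_singleton.1 h
      refine ⟨e.symm x, ?_⟩
      rw [← map_sub, hx, map_mul, map_natCast]
    · intro α
      rw [hzero, Ideal.isCoprime_span_singleton_iff]
      constructor
      · intro h1 h2
        apply h1
        have := h2.map (e.symm : R →+* A)
        simpa using this
      · intro h1 h2
        apply h1
        have := h2.map (e : A →+* R)
        simpa using this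
    · intro u hu
      rw [← hes u]
      exact hunit _ (hu.map e.symm)
    · intro α β hβ
      rw [← hbar]
      congr 1
      apply hι
      rw [hst, hes, hes, hβ]
  obtain ⟨f, ψ, hψ, hcs, hmf, hval, hpr⟩ := prim_exists hQ F_bar hImp
  have hcopf : ∀ p : ℕ, p.Prime → ¬ p ∣ m → IsCoprime (sp (p : R)) (sp (m : R)) := by
    intro p hp hpm
    rw [cop_nat hQ (sp_ne_bot hp.pos) hm, cd_nat hQ]
    exact Nat.Coprime.pow_left 2 ((Nat.Prime.coprime_iff_not_dvd hp).2 hpm)
  have hvn : ∀ p : ℕ, p.Prime → ¬ p ∣ m → ψ (sp (p : R)) = θ (p : A) * (p : ℂ) := by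
    intro p hp hpm
    rw [hval _ (hcopf p hp hpm)]
    simp
  have hnoα : ∀ p : ℕ, p.Prime → (sp (p : R)).IsPrime → ∀ α : A, Complex.normSq (ι α) ≠ p := by
    intro p hp hin α h
    have h1 : cd (sp (e α)) = p := by
      have := cd_sp hQ (e α)
      rw [he, h] at this
      exact_mod_cast this
    refine inert_no hQ hp hin ?_ h1
    intro h2
    rw [h2, cd_bot hQ] at h1
    exact hp.ne_zero h1.symm
  have hfne : f ≠ ⊥ := hψ.ne
  have hcdf : 0 < cd f := cd_pos hQ hfne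
  have hram : Ram f := F_ram R ω hQ f ψ hψ hcs
  have hG : GD R ω D0 f ψ := by
    refine ⟨hQ, hD, hψ, hcs, fun p hp hcop hinp => ?_⟩
    have hpD : ¬ p ∣ D0 := fun h => ram_not_cop hQ hD hram hp h hcop
    have hpf : Nat.Coprime (cd f) p := (cop_nat hQ hfne hp.pos).1 hcop.symm
    have hD0 : 0 < D0 := by
      rcases Nat.eq_zero_or_pos D0 with h | h
      · exact absurd (h ▸ dvd_zero p) hpD
      · exact h
    have hN0 : D0 * cd f ≠ 0 := (Nat.mul_pos hD0 hcdf).ne'
    have : NeZero (D0 * cd f) := ⟨hN0⟩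
    have hpN : Nat.Coprime p (D0 * cd f) :=
      Nat.Coprime.mul_right ((Nat.Prime.coprime_iff_not_dvd hp).2 hpD) hpf.symm
    obtain ⟨p', hp'1, hp'2, hp'3⟩ := Nat.forall_exists_prime_gt_and_eq_mod
      (q := D0 * cd f) (a := (p : ZMod (D0 * cd f))) ((ZMod.isUnit_iff_coprime p _).2 hpN) (max m M)
    have hmod : p' ≡ p [MOD D0 * cd f] := (ZMod.natCast_eq_natCast_iff _ _ _).1 hp'3
    have hp'm : ¬ p' ∣ m := fun h => absurd (Nat.le_of_dvd hm h)
      (not_le.2 (lt_of_le_of_lt (le_max_left _ _) hp'1))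
    have h1 := hin p p' hp hp'2 (hnoα p hp hinp) hpD
      ((Nat.ModEq.of_dvd (dvd_mul_right _ _) hmod)) (lt_of_le_of_lt (le_max_right _ _) hp'1)
    have h2 := hvn p' hp'2 hp'm
    rw [h1] at h2
    have hcd : ((p : R) - (p' : R)) ∈ f := by
      have h3 : (cd f : ℤ) ∣ (p : ℤ) - p' := by
        have := (Nat.ModEq.of_dvd (dvd_mul_left _ _) hmod)
        exact (Nat.modEq_iff_dvd.1 this)
      obtain ⟨k, hk⟩ := h3
      have h4 : ((p : R) - (p' : R)) = ((cd f : ℕ) : R) * (k : R) := by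
        have := congrArg (fun z : ℤ => (z : R)) hk
        push_cast at this
        exact this
      rw [h4]
      exact f.mul_mem_right _ (mem_cd hQ hfne)
    have hp0 : (p : R) ≠ 0 := by
      intro h
      exact sp_ne_bot (R := R) hp.pos (by rw [h, Ideal.span_singleton_eq_bot])
    have hp'0 : (p' : R) ≠ 0 := by
      intro h
      exact sp_ne_bot (R := R) hp'2.pos (by rw [h, Ideal.span_singleton_eq_bot])
    have h5 := hpr (p : R) (p' : R) hcop hp'0 hp0 hcd
    rw [h2] at h5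
    push_cast at h5
    have h6 : (p' : ℂ) ≠ 0 := by exact_mod_cast hp'2.ne_zero
    apply mul_right_cancel₀ h6
    rw [h5]
    ring
  refine ⟨_, _, hG.af a b fun p hp hgood => ?_⟩
  obtain ⟨h1, h2, h3⟩ := hpt p hp hgood
  have hcm := hcopf p hp h1
  have hcf : IsCoprime (sp (p : R)) f := cop_le hmf hcm
  have hdN := (hG.good hp).1 hcf
  refine ⟨hdN, ?_⟩
  rcases h3 with ⟨h4, h5⟩ | ⟨α, h4, h5⟩
  · rw [h5]
    unfold cf
    rw [Int.cast_zero]
    refine Finset.sum_eq_zero fun I hI => ?_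
    obtain ⟨h6, h7⟩ := (mem_SN hQ).1 hI
    have hpid := hQ.pid
    obtain ⟨α, hα⟩ : ∃ α : R, I = Ideal.span {α} := (hpid.principal I).principal
    exfalso
    apply h4 (e.symm α)
    rw [hes]
    have := cd_sp hQ α
    rw [← this]
    have h8 : cd (sp α) = p := by rw [← h7, hα]
    rw [h8]
  · have h6 : cd (sp (e α)) = p := by
      have := cd_sp hQ (e α)
      rw [he, h4] at this
      exact_mod_cast this
    have h7 : IsCoprime (sp (e α)) (sp (m : R)) := by
      rw [cop_nat hQ _ hm, h6]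
      · exact (Nat.Prime.coprime_iff_not_dvd hp).2 h1
      · intro h8
        rw [h8, cd_bot hQ] at h6
        exact hp.ne_zero h6.symm
    rw [hG.val hp hdN h6, hval _ h7, h5]
    simp only [RingEquiv.symm_apply_apply, he]

end Pool.Agent.Y692.QN
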