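import Pool.Agent.Y691.QT.ApTw
import Pool.Agent.Y691.QT.Mult
import Pool.Agent.Y705.QT.Arith

set_option autoImplicit false

/-!
Project QT, tasks N3, N4: the family of twists, from abstract coefficient sequences.

This is the construction of `Pool.Agent.Y691.QT10` (task T10, helper691), with a sequence `f : ℕ → ℂ`
instead of the coefficients of a newform.
-/

namespace Pool.Agent.Y692.QN

open Pool.Agent.Y19.QT
open Pool.Agent.Y691.QT (MulF cv ppf ppf_mul ppf_pow cv_pow SS one_le_SS sum_bd ap_twist)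
open Complex
open Pool.Agent.H306R2.RZ (js)
open Pool.Agent.Y705.QT (js_mul js_one js_abs_le cheb_bound)

/-- `f` is the sequence of the coefficients of the `L`-series of `y² = x³ + a x + b` -/
structure AF (a b : ℤ) (N : ℕ) (f : ℕ → ℂ) : Prop where
  pos : 0 < N
  zero : f 0 = 0
  one : f 1 = 1
  real : ∀ n, (f n).im = 0
  mul : ∀ m n : ℕ, Nat.Coprime m n → f (m * n) = f m * f n
  pow : ∀ p j : ℕ, p.Prime → f (p ^ (j + 2)) = f p * f (p ^ (j + 1)) -
      (if p ∣ N then 0 else (p : ℂ) * f (p ^ j))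
  good : ∀ p : ℕ, p.Prime → ¬ p ∣ N → ‖f p‖ ≤ 2 * Real.sqrt p
  bad : ∀ p : ℕ, p.Prime → p ∣ N → ‖f p‖ ≤ 1
  fe : ∀ m : ℕ, Odd m → Squarefree m → m.Coprime N → ∃ w : ℝ, w ^ 2 = 1 ∧ ∀ z : ℂ, 0 < z.re →
      ∑' n : ℕ, f n * js n m * cexp (-(2 * Real.pi * n * (1 / z) / (m * Real.sqrt N : ℝ))) =
        w * z ^ 2 *
          ∑' n : ℕ, f n * js n m * cexp (-(2 * Real.pi * n * z / (m * Real.sqrt N : ℝ)))
  ent : ∃ L : ℂ → ℂ, Differentiable ℂ L ∧
    ∀ s : ℂ, (3 : ℝ) / 2 < s.re → L s = ∑' n : ℕ, f n * (n : ℂ) ^ (-s)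
  points : ∀ p : ℕ, p.Prime → ¬ (p : ℤ) ∣ 2 * (4 * a ^ 3 + 27 * b ^ 2) →
    ¬ p ∣ N ∧ f p = (ap a b p : ℂ)



variable {a b : ℤ} {N : ℕ} {f : ℕ → ℂ}

/-- the coefficients as real numbers -/
noncomputable def cr (f : ℕ → ℂ) (n : ℕ) : ℝ :=
  (f n).re

theorem coef_eq (hf : AF a b N f) (n : ℕ) : f n = (cr f n : ℂ) := by
  apply Complex.ext
  · simp [cr]
  · simp [hf.real n]

theorem cr_one (hf : AF a b N f) : cr f 1 = 1 := by simp [cr, hf.one]

theorem cr_mul (hf : AF a b N f) {m n : ℕ} (h : m.Coprime n) :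
    cr f (m * n) = cr f m * cr f n := by
  have := hf.mul m n h
  rw [coef_eq hf, coef_eq hf, coef_eq hf] at this
  exact_mod_cast this

theorem cr_pow (hf : AF a b N f) {p : ℕ} (hp : p.Prime) (k : ℕ) :
    cr f (p ^ (k + 2)) = cr f p * cr f (p ^ (k + 1)) -
      if p ∣ N then 0 else (p : ℝ) * cr f (p ^ k) := by
  have := hf.pow p k hp
  simp only [coef_eq hf] at this
  split_ifs at this ⊢ <;> exact_mod_cast this

/-- normalised coefficients -/
noncomputable def nf (f : ℕ → ℂ) (n : ℕ) : ℝ :=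
  cr f n / Real.sqrt n

theorem nf_mul (hf : AF a b N f) : MulF (nf f) := by
  refine ⟨by simp [nf], by simp [nf, cr_one hf], ?_⟩
  intro m n h
  unfold nf
  rw [cr_mul hf h, Nat.cast_mul, Real.sqrt_mul (by positivity)]
  rw [mul_div_mul_comm]

theorem nf_rec (hf : AF a b N f) {p : ℕ} (hp : p.Prime) (k : ℕ) :
    nf f (p ^ (k + 2)) = nf f p * nf f (p ^ (k + 1)) - if p ∣ N then 0 else nf f (p ^ k) := by
  have hp0 : (0 : ℝ) < p := by exact_mod_cast hp.pos
  have hs : (0 : ℝ) < Real.sqrt p := Real.sqrt_pos.2 hp0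
  have hss : Real.sqrt p * Real.sqrt p = p := Real.mul_self_sqrt hp0.le
  have hq : ∀ j : ℕ, Real.sqrt ((p ^ j : ℕ) : ℝ) = Real.sqrt p ^ j := by
    intro j
    rw [Nat.cast_pow, Real.sqrt_eq_rpow, Real.sqrt_eq_rpow, ← Real.rpow_natCast,
      ← Real.rpow_natCast, ← Real.rpow_mul hp0.le, ← Real.rpow_mul hp0.le, mul_comm]
  unfold nf
  rw [hq, hq, hq, cr_pow hf hp k]
  have hx : Real.sqrt (p : ℝ) ^ (k + 2) = Real.sqrt p * Real.sqrt p ^ (k + 1) := by ring
  split_ifs with h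
  · rw [sub_zero, sub_zero, hx, mul_div_mul_comm]
  · rw [sub_div, hx, mul_div_mul_comm]
    congr 1
    rw [pow_succ, mul_comm (Real.sqrt p) (_ * _), mul_assoc, hss, mul_comm (p : ℝ) (cr _ _),
      mul_div_mul_right _ _ hp0.ne']

theorem nf_good (hf : AF a b N f) {p : ℕ} (hp : p.Prime) (h : ¬ p ∣ N) : |nf f p| ≤ 2 := by
  have hp0 : (0 : ℝ) < p := by exact_mod_cast hp.pos
  have hs : (0 : ℝ) < Real.sqrt p := Real.sqrt_pos.2 hp0
  have h1 := hf.good p hp h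
  rw [coef_eq hf, Complex.norm_real, Real.norm_eq_abs] at h1
  unfold nf
  rw [abs_div, abs_of_pos hs, div_le_iff₀ hs]
  exact h1

theorem nf_bad (hf : AF a b N f) {p : ℕ} (hp : p.Prime) (h : p ∣ N) : |nf f p| ≤ 1 := by
  have hp0 : (1 : ℝ) ≤ p := by exact_mod_cast hp.one_le
  have hs : (1 : ℝ) ≤ Real.sqrt p := by
    rw [Real.one_le_sqrt]
    exact hp0
  have h1 := hf.bad p hp h
  rw [coef_eq hf, Complex.norm_real, Real.norm_eq_abs] at h1
  have hs0 : (0 : ℝ) < Real.sqrt p := by linarith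
  unfold nf
  rw [abs_div, abs_of_pos hs0, div_le_iff₀ hs0]
  linarith

theorem nf_pow_le (hf : AF a b N f) {p : ℕ} (hp : p.Prime) (k : ℕ) :
    |nf f (p ^ k)| ≤ k + 1 := by
  have hm := nf_mul hf
  by_cases h : p ∣ N
  · have h1 : ∀ k : ℕ, |nf f (p ^ k)| ≤ 1 ∧ |nf f (p ^ (k + 1))| ≤ 1 := by
      intro k
      induction k with
      | zero =>
        refine ⟨by simp [hm.one], ?_⟩
        simpa using nf_bad hf hp h
      | succ k ih =>
        refine ⟨ih.2, ?_⟩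
        rw [nf_rec hf hp k, if_pos h, sub_zero, abs_mul]
        calc |nf f p| * |nf f (p ^ (k + 1))| ≤ 1 * 1 :=
              mul_le_mul (nf_bad hf hp h) ih.2 (abs_nonneg _) (by norm_num)
          _ = 1 := by norm_num
    have := (h1 k).1
    have h2 : (0 : ℝ) ≤ k := by positivity
    linarith
  · exact cheb_bound (fun k => nf f (p ^ k)) (nf f p) (nf_good hf hp h) (by simp [hm.one])
      (by simp) (fun k => by
        have := nf_rec hf hp k
        rwa [if_neg h] at this) k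

/-! ### the Jacobi symbol in the numerator -/

theorem js_mul_left (x y : ℤ) (m : ℕ) : js (x * y) m = js x m * js y m := by
  unfold js
  rw [jacobiSym.mul_left]
  push_cast
  rfl

theorem js_one_left (m : ℕ) : js 1 m = 1 := by
  unfold js
  simp

theorem js_pow_left (x : ℤ) (k m : ℕ) : js (x ^ k) m = js x m ^ k := by
  unfold js
  rw [jacobiSym.pow_left]
  push_cast
  rfl

theorem js_pow_right (x : ℤ) (k m : ℕ) : js x (m ^ k) = js x m ^ k := by
  unfold js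
  rw [jacobiSym.pow_right]
  push_cast
  rfl

theorem js_sq {x : ℤ} {m : ℕ} (h : x.gcd m = 1) : js x m ^ 2 = 1 := by
  unfold js
  have := jacobiSym.sq_one h
  exact_mod_cast this

/-- reciprocity -/
theorem js_star {m p : ℕ} (hm : Odd m) (hp : Odd p) (g : ℤ) :
    js (g * (ZMod.χ₄ m * m)) p = js g p * js p m := by
  rw [js_mul_left]
  congr 1
  unfold js
  have h := jacobiSym.quadratic_reciprocity' hp hm
  rw [h, jacobiSym.mul_left]
  rfl




theorem coef_zero {a b : ℤ} {N : ℕ} {f : ℕ → ℂ} (hf : AF a b N f) : f 0 = 0 := hf.zero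

/-- all prime factors of `n` divide `Q` -/
noncomputable def sm (Q n : ℕ) : ℝ :=
  open Classical in if ∀ p : ℕ, p.Prime → p ∣ n → p ∣ Q then 1 else 0

/-- `n` is prime to `Q` -/
noncomputable def co (Q n : ℕ) : ℝ := if n.Coprime Q then 1 else 0

theorem sm_one (Q : ℕ) : sm Q 1 = 1 := by
  unfold sm
  rw [if_pos]
  intro p hp h
  exact absurd (Nat.dvd_one.1 h) hp.ne_one

theorem sm_mul (Q : ℕ) (m n : ℕ) (_ : m ≠ 0) (_ : n ≠ 0) (_ : m.Coprime n) :
    sm Q (m * n) = sm Q m * sm Q n := by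
  classical
  unfold sm
  by_cases h1 : ∀ p : ℕ, p.Prime → p ∣ m → p ∣ Q
  · by_cases h2 : ∀ p : ℕ, p.Prime → p ∣ n → p ∣ Q
    · rw [if_pos h1, if_pos h2, if_pos, one_mul]
      intro p hp h
      rcases (hp.dvd_mul).1 h with h | h
      · exact h1 p hp h
      · exact h2 p hp h
    · rw [if_neg h2, if_neg, mul_zero]
      intro h
      exact h2 fun p hp hd => h p hp (dvd_mul_of_dvd_right hd m)
  · rw [if_neg h1, if_neg, zero_mul]
    intro h
    exact h1 fun p hp hd => h p hp (dvd_mul_of_dvd_left hd n)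

theorem sm_pow {Q p : ℕ} (hp : p.Prime) (k : ℕ) :
    sm Q (p ^ (k + 1)) = if p ∣ Q then 1 else 0 := by
  unfold sm
  split_ifs with h1 h2 h2
  · rfl
  · exact absurd (h1 p hp (dvd_pow_self p (Nat.succ_ne_zero k))) h2
  · exfalso
    apply h1
    intro q hq hd
    have := (Nat.prime_dvd_prime_iff_eq hq hp).1 (hq.dvd_of_dvd_pow hd)
    rwa [this]
  · rfl

theorem co_one (Q : ℕ) : co Q 1 = 1 := by simp [co]

theorem co_mul (Q : ℕ) (m n : ℕ) (_ : m ≠ 0) (_ : n ≠ 0) (_ : m.Coprime n) :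
    co Q (m * n) = co Q m * co Q n := by
  unfold co
  by_cases h1 : m.Coprime Q
  · by_cases h2 : n.Coprime Q
    · rw [if_pos h1, if_pos h2, if_pos (h1.mul_left h2), one_mul]
    · rw [if_neg h2, if_neg, mul_zero]
      intro h
      exact h2 (Nat.Coprime.coprime_mul_left h)
  · rw [if_neg h1, if_neg, zero_mul]
    intro h
    exact h1 (Nat.Coprime.coprime_mul_right h)

theorem co_pow {Q p : ℕ} (hp : p.Prime) (k : ℕ) :
    co Q (p ^ (k + 1)) = if p ∣ Q then 0 else 1 := by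
  have h : (p ^ (k + 1)).Coprime Q ↔ ¬ p ∣ Q := by
    rw [Nat.coprime_pow_left_iff k.succ_pos, hp.coprime_iff_not_dvd]
  unfold co
  by_cases h1 : p ∣ Q
  · rw [if_neg (fun h2 => (h.1 h2) h1), if_pos h1]
  · rw [if_pos (h.2 h1), if_neg h1]

variable {a b : ℤ} {N : ℕ} {f : ℕ → ℂ}

/-- the coefficients away from `Q` -/
noncomputable def lamQ (f : ℕ → ℂ)
    (Q n : ℕ) : ℝ := nf f n * co Q n

theorem lamQ_mul (hf : AF a b N f) (Q : ℕ) : MulF (lamQ f Q) :=
  (nf_mul hf).prod' (co_one Q) (co_mul Q)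

/-- the coefficients at the primes dividing `Q`, twisted by `(·/m)` -/
noncomputable def ee (f : ℕ → ℂ)
    (Q m n : ℕ) : ℝ := nf f n * sm Q n * js n m

theorem ee_mul (hf : AF a b N f) (Q m : ℕ) : MulF (ee f Q m) := by
  refine ((nf_mul hf).prod' (sm_one Q) (sm_mul Q)).prod' (by simpa using js_one_left m) ?_
  intro x y _ _ _
  rw [Nat.cast_mul, js_mul_left]

theorem ee_pow (hf : AF a b N f) {Q m p : ℕ} (hp : p.Prime) (hpQ : p ∣ Q) (k : ℕ) :
    ee f Q m (p ^ k) = nf f (p ^ k) * js p m ^ k := by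
  rcases k with _ | k
  · simp [(ee_mul hf Q m).one, (nf_mul hf).one]
  · unfold ee
    rw [sm_pow hp, if_pos hpQ, mul_one, Nat.cast_pow, js_pow_left]

theorem ee_pow' (f : ℕ → ℂ) {Q m p : ℕ}
    (hp : p.Prime) (hpQ : ¬ p ∣ Q) (k : ℕ) :
    ee f Q m (p ^ (k + 1)) = 0 := by
  unfold ee
  rw [sm_pow hp, if_neg hpQ, mul_zero, zero_mul]

/-- its inverse at prime powers -/
noncomputable def iu (N : ℕ) (f : ℕ → ℂ)
    (Q m p k : ℕ) : ℝ :=
  if p ∣ Q then (if k = 1 then -(nf f p * js p m) else if k = 2 ∧ ¬ p ∣ N then 1 else 0) else 0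

/-- the Dirichlet inverse of `ee` -/
noncomputable def ei (N : ℕ) (f : ℕ → ℂ)
    (Q m : ℕ) : ℕ → ℝ := ppf (iu N f Q m)

theorem js_abs_pow (x : ℤ) (m k : ℕ) : |js x m ^ k| ≤ 1 := by
  rw [abs_pow]
  exact pow_le_one₀ (abs_nonneg _) (js_abs_le x m)

theorem ee_pow_le (hf : AF a b N f) {Q m p : ℕ} (hp : p.Prime) (k : ℕ) :
    |ee f Q m (p ^ k)| ≤ k + 1 := by
  by_cases hpQ : p ∣ Q
  · rw [ee_pow hf hp hpQ, abs_mul]
    calc |nf f (p ^ k)| * |js p m ^ k| ≤ ((k : ℝ) + 1) * 1 :=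
          mul_le_mul (nf_pow_le hf hp k) (js_abs_pow _ _ _) (abs_nonneg _) (by positivity)
      _ = k + 1 := mul_one _
  · rcases k with _ | k
    · simp [(ee_mul hf Q m).one]
    · rw [ee_pow' f hp hpQ, abs_zero]
      positivity

theorem ei_pow_le (hf : AF a b N f) {Q m p : ℕ} (hp : p.Prime) (k : ℕ) :
    |ei N f Q m (p ^ k)| ≤ k + 1 := by
  rcases k with _ | k
  · simp [ei, (ppf_mul (iu N f Q m)).one]
  · unfold ei
    rw [ppf_pow _ hp]
    unfold iu
    push_cast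
    have hk : (0 : ℝ) ≤ k := by positivity
    split_ifs with h1 h2 h3
    · rw [abs_neg, abs_mul]
      have h4 := nf_pow_le hf hp 1
      have h5 := js_abs_le (p : ℤ) m
      rw [pow_one] at h4
      push_cast at h4
      calc |nf f p| * |js p m| ≤ (1 + 1) * 1 := mul_le_mul h4 h5 (abs_nonneg _) (by norm_num)
        _ ≤ _ := by linarith
    · rw [abs_one]
      linarith
    · rw [abs_zero]
      linarith
    · rw [abs_zero]
      linarith

theorem cv_ee_ei (hf : AF a b N f) {Q m : ℕ} (hc : m.Coprime Q) (n : ℕ) :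
    cv (ee f Q m) (ei N f Q m) n = if n = 1 then 1 else 0 := by
  refine MulF.ext ((ee_mul hf Q m).cv (ppf_mul (iu N f Q m))) MulF.delta ?_ n
  intro p k hp
  have hne : p ^ (k + 1) ≠ 1 := by
    rw [Ne, Nat.pow_eq_one]
    push Not
    exact ⟨hp.ne_one, Nat.succ_ne_zero k⟩
  simp only [hne, if_false]
  change cv (ee f Q m) (ppf (iu N f Q m)) (p ^ (k + 1)) = 0
  rw [cv_pow _ _ hp]
  by_cases hpQ : p ∣ Q
  · -- only the last three terms survive
    have hsq : js p m ^ 2 = 1 := by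
      apply js_sq
      have : Nat.Coprime p m := (Nat.Coprime.coprime_dvd_right hpQ hc).symm
      simpa [Int.gcd] using this
    rcases k with _ | k
    · rw [Finset.sum_range_succ, Finset.sum_range_succ, Finset.sum_range_zero]
      simp only [zero_add, pow_zero, Nat.sub_zero, Nat.sub_self]
      rw [show (1 : ℕ) = 0 + 1 from rfl, ppf_pow _ hp, zero_add, (ee_mul hf Q m).one,
        ee_pow hf hp hpQ, (ppf_mul (iu N f Q m)).one]
      simp [iu, hpQ]
    · rw [Finset.sum_range_succ, Finset.sum_range_succ, Finset.sum_range_succ]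
      have h0 : ∑ x ∈ Finset.range k, ee f Q m (p ^ x) *
          ppf (iu N f Q m) (p ^ (k + 1 + 1 - x)) = 0 := by
        refine Finset.sum_eq_zero fun x hx => ?_
        have hx' := Finset.mem_range.1 hx
        obtain ⟨j, hj⟩ : ∃ j, k + 1 + 1 - x = j + 2 + 1 := ⟨k - x - 1, by omega⟩
        rw [hj, ppf_pow _ hp]
        simp [iu]
      rw [h0, zero_add]
      have e1 : k + 1 + 1 - k = 1 + 1 := by omega
      have e2 : k + 1 + 1 - (k + 1) = 0 + 1 := by omega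
      have e3 : k + 1 + 1 - (k + 1 + 1) = 0 := by omega
      rw [e1, e2, e3, ppf_pow _ hp, ppf_pow _ hp, pow_zero, (ppf_mul (iu N f Q m)).one,
        ee_pow hf hp hpQ, ee_pow hf hp hpQ, ee_pow hf hp hpQ, nf_rec hf hp k]
      simp only [iu, hpQ, if_true]
      by_cases hN : p ∣ N
      · simp [hN]
        ring
      · simp [hN]
        have : js p m ^ (k + 1 + 1) = js p m ^ k := by
          rw [show k + 1 + 1 = k + 2 from rfl, pow_add, hsq, mul_one]
        rw [this]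
        have h2 : js p m ^ (k + 1) * js p m = js p m ^ k := by
          rw [← pow_succ, this]
        linear_combination (-(nf f (p ^ (k + 1)) * nf f p)) * h2
  · refine Finset.sum_eq_zero fun x hx => ?_
    rcases x with _ | x
    · rw [Nat.sub_zero, ppf_pow _ hp]
      simp [iu, hpQ]
    · rw [ee_pow' f hp hpQ, zero_mul]

/-! ### comparison of two twists -/

variable {g : ℤ} {N₁ : ℕ} {f₁ : ℕ → ℂ}

theorem nf_good_eq {a b : ℤ} (h1 : AF (a * 1 ^ 2) (b * 1 ^ 3) N₁ f₁)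
    (hg : AF (a * g ^ 2) (b * g ^ 3) N f) {Q : ℕ}
    (hQ : ∀ p : ℕ, p.Prime → (p : ℤ) ∣ 2 * (4 * a ^ 3 + 27 * b ^ 2) → p ∣ Q)
    (hgQ : ∀ p : ℕ, p.Prime → (p : ℤ) ∣ g → p ∣ Q) {p : ℕ} (hp : p.Prime) (hpQ : ¬ p ∣ Q) :
    ¬ p ∣ N₁ ∧ ¬ p ∣ N ∧ nf f₁ p = ap a b p / Real.sqrt p ∧ nf f p = js g p * nf f₁ p := by
  have hd : ¬ (p : ℤ) ∣ 2 * (4 * a ^ 3 + 27 * b ^ 2) := fun h => hpQ (hQ p hp h)
  have hgp : ¬ (p : ℤ) ∣ g := fun h => hpQ (hgQ p hp h)
  have hpi : Prime (p : ℤ) := Nat.prime_iff_prime_int.1 hp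
  have hp2 : p ≠ 2 := by
    rintro rfl
    exact hd (Dvd.intro _ rfl)
  have e1 : ¬ (p : ℤ) ∣ 2 * (4 * (a * 1 ^ 2) ^ 3 + 27 * (b * 1 ^ 3) ^ 2) := by
    have : 2 * (4 * (a * 1 ^ 2) ^ 3 + 27 * (b * 1 ^ 3) ^ 2) = 2 * (4 * a ^ 3 + 27 * b ^ 2) := by
      ring
    rwa [this]
  have e2 : ¬ (p : ℤ) ∣ 2 * (4 * (a * g ^ 2) ^ 3 + 27 * (b * g ^ 3) ^ 2) := by
    have : 2 * (4 * (a * g ^ 2) ^ 3 + 27 * (b * g ^ 3) ^ 2) =
        g ^ 6 * (2 * (4 * a ^ 3 + 27 * b ^ 2)) := by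
      ring
    rw [this]
    intro h
    rcases hpi.dvd_or_dvd h with h | h
    · exact hgp (hpi.dvd_of_dvd_pow h)
    · exact hd h
  obtain ⟨n1, c1⟩ := h1.points p hp e1
  obtain ⟨n2, c2⟩ := hg.points p hp e2
  refine ⟨n1, n2, ?_, ?_⟩
  · unfold nf cr
    rw [c1]
    simp
  · unfold nf cr
    rw [c1, c2, ap_twist a b g p hp hp2 hgp]
    simp only [one_pow, mul_one]
    unfold js
    simp
    ring

theorem nf_pow_eq {a b : ℤ} (h1 : AF (a * 1 ^ 2) (b * 1 ^ 3) N₁ f₁)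
    (hg : AF (a * g ^ 2) (b * g ^ 3) N f) {Q : ℕ}
    (hQ : ∀ p : ℕ, p.Prime → (p : ℤ) ∣ 2 * (4 * a ^ 3 + 27 * b ^ 2) → p ∣ Q)
    (hgQ : ∀ p : ℕ, p.Prime → (p : ℤ) ∣ g → p ∣ Q) {p : ℕ} (hp : p.Prime) (hpQ : ¬ p ∣ Q) (k : ℕ) :
    nf f (p ^ k) = js g p ^ k * nf f₁ (p ^ k) := by
  obtain ⟨n1, n2, -, e⟩ := nf_good_eq h1 hg hQ hgQ hp hpQ
  have hsq : js g p ^ 2 = 1 := by
    apply js_sq
    have h3 : ¬ p ∣ g.natAbs := fun h => hpQ (hgQ p hp (Int.natCast_dvd.2 h))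
    exact ((Nat.Prime.coprime_iff_not_dvd hp).2 h3).symm
  have key : ∀ k : ℕ, nf f (p ^ k) = js g p ^ k * nf f₁ (p ^ k) ∧
      nf f (p ^ (k + 1)) = js g p ^ (k + 1) * nf f₁ (p ^ (k + 1)) := by
    intro k
    induction k with
    | zero =>
      refine ⟨by simp [(nf_mul hg).one, (nf_mul h1).one], ?_⟩
      simpa using e
    | succ k ih =>
      refine ⟨ih.2, ?_⟩
      have r1 := nf_rec h1 hp k
      have r2 := nf_rec hg hp k
      rw [if_neg n1] at r1
      rw [if_neg n2] at r2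
      rw [show k + 1 + 1 = k + 2 from rfl, r1, r2, ih.1, ih.2, e]
      have : js g p ^ (k + 2) = js g p ^ k := by rw [pow_add, hsq, mul_one]
      linear_combination (nf f₁ (p ^ k)) * this
  exact (key k).1

theorem cv_lam {a b : ℤ} (h1 : AF (a * 1 ^ 2) (b * 1 ^ 3) N₁ f₁)
    (hg : AF (a * g ^ 2) (b * g ^ 3) N f) {Q m : ℕ} (h2 : 2 ∣ Q)
    (hQ : ∀ p : ℕ, p.Prime → (p : ℤ) ∣ 2 * (4 * a ^ 3 + 27 * b ^ 2) → p ∣ Q)
    (hgQ : ∀ p : ℕ, p.Prime → (p : ℤ) ∣ g → p ∣ Q) (hm : Odd m) (n : ℕ) :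
    cv (ee f Q m) (fun n => lamQ f₁ Q n * js (g * (ZMod.χ₄ m * m)) n) n =
      nf f n * js n m := by
  have hL : MulF (fun n => lamQ f₁ Q n * js (g * (ZMod.χ₄ m * m)) n) :=
    (lamQ_mul h1 Q).prod' (js_one _) fun x y hx hy _ => js_mul _ hx hy
  have hR : MulF (fun n => nf f n * js n m) :=
    (nf_mul hg).prod' (by simpa using js_one_left m) fun x y _ _ _ => by
      rw [Nat.cast_mul, js_mul_left]
  refine MulF.ext ((ee_mul hg Q m).cv hL) hR ?_ n
  intro p k hp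
  rw [cv_pow _ _ hp]
  by_cases hpQ : p ∣ Q
  · rw [Finset.sum_range_succ]
    have h0 : ∑ x ∈ Finset.range (k + 1), ee f Q m (p ^ x) *
        (lamQ f₁ Q (p ^ (k + 1 - x)) * js (g * (ZMod.χ₄ m * m)) (p ^ (k + 1 - x))) = 0 := by
      refine Finset.sum_eq_zero fun x hx => ?_
      have hx' := Finset.mem_range.1 hx
      obtain ⟨j, hj⟩ : ∃ j, k + 1 - x = j + 1 := ⟨k - x, by omega⟩
      rw [hj]
      unfold lamQ
      rw [co_pow hp, if_pos hpQ]
      ring
    simp only [h0, zero_add, Nat.sub_self, pow_zero]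
    rw [hL.one, mul_one, ee_pow hg hp hpQ, Nat.cast_pow, js_pow_left]
  · rw [Finset.sum_range_succ', Finset.sum_eq_zero, zero_add]
    · simp only [pow_zero, Nat.sub_zero]
      rw [(ee_mul hg Q m).one, one_mul, js_pow_right, Nat.cast_pow, js_pow_left]
      unfold lamQ
      rw [co_pow hp, if_neg hpQ, mul_one, nf_pow_eq h1 hg hQ hgQ hp hpQ]
      have hpo : Odd p := hp.odd_of_ne_two (by
        rintro rfl
        exact hpQ h2)
      rw [js_star hm hpo, mul_pow]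
      ring
    · intro x _
      rw [ee_pow' f hp hpQ, zero_mul]




/-- decomposition of a squarefree integer -/
theorem decomp {Q : ℕ} (hQ0 : 0 < Q) (h2 : 2 ∣ Q) (d : ℤ) (hd : Squarefree d) :
    ∃ (m : ℕ) (g : ℤ), d = g * (ZMod.χ₄ m * m) ∧ Odd m ∧ Squarefree m ∧ m.Coprime Q ∧ g ≠ 0 ∧
      (∀ p : ℕ, p.Prime → (p : ℤ) ∣ g → p ∣ Q) ∧ |g| ≤ Q := by
  have hn : Squarefree d.natAbs := Int.squarefree_natAbs.2 hd
  have hd0 : d ≠ 0 := hd.ne_zero
  have hn0 : d.natAbs ≠ 0 := Int.natAbs_ne_zero.2 hd0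
  set n := d.natAbs with hndef
  set r := Nat.gcd n Q with hr
  have hr0 : 0 < r := Nat.gcd_pos_of_pos_right _ hQ0
  obtain ⟨m, hm⟩ : r ∣ n := Nat.gcd_dvd_left n Q
  have hmQ : m.Coprime Q := by
    refine Nat.coprime_of_dvd fun p hp h1 h2 => ?_
    have h3 : p ∣ r := Nat.dvd_gcd (hm ▸ dvd_mul_of_dvd_right h1 r) h2
    have h4 : p * p ∣ n := by
      rw [hm]
      exact mul_dvd_mul h3 h1
    exact hp.not_isUnit (hn p h4)
  have hodd : Odd m := by
    rw [← Nat.not_even_iff_odd]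
    intro he
    have := Nat.Coprime.eq_one_of_dvd (Nat.Coprime.coprime_dvd_right h2 hmQ).symm he.two_dvd
    omega
  have hchi : (ZMod.χ₄ m) * (ZMod.χ₄ m) = 1 := by
    rw [ZMod.χ₄_nat_eq_if_mod_four]
    have := Nat.odd_iff.1 hodd
    rw [if_neg (by omega)]
    split_ifs <;> norm_num
  have hmsq : Squarefree m := hn.squarefree_of_dvd (hm ▸ dvd_mul_left m r)
  have hchiabs : (ZMod.χ₄ m).natAbs = 1 := by
    rcases mul_self_eq_one_iff.1 hchi with h | h <;> rw [h] <;> rfl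
  refine ⟨m, d.sign * ZMod.χ₄ m * r, ?_, hodd, hmsq, hmQ, ?_, ?_, ?_⟩
  · calc d = d.sign * (n : ℤ) := by rw [hndef]; exact (Int.sign_mul_natAbs d).symm
      _ = d.sign * (r * m : ℤ) := by rw [hm]; push_cast; rfl
      _ = d.sign * (ZMod.χ₄ m * ZMod.χ₄ m) * (r * m : ℤ) := by rw [hchi]; ring
      _ = _ := by ring
  · refine mul_ne_zero (mul_ne_zero ?_ ?_) (by exact_mod_cast hr0.ne')
    · exact fun h => hd0 (Int.sign_eq_zero_iff_zero.1 h)
    · intro h
      rw [h] at hchi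
      norm_num at hchi
  · intro p hp h
    have h1 : p ∣ (d.sign * ZMod.χ₄ m * r).natAbs := Int.natCast_dvd.1 h
    rw [Int.natAbs_mul, Int.natAbs_mul, hchiabs, Int.natAbs_sign_of_ne_zero hd0, Int.natAbs_natCast,
      one_mul, one_mul] at h1
    exact h1.trans (Nat.gcd_dvd_right n Q)
  · have h1 : (d.sign * ZMod.χ₄ m * r).natAbs = r := by
      rw [Int.natAbs_mul, Int.natAbs_mul, hchiabs, Int.natAbs_sign_of_ne_zero hd0,
        Int.natAbs_natCast, one_mul, one_mul]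
    rw [Int.abs_eq_natAbs, h1]
    exact_mod_cast Nat.gcd_le_right n hQ0

theorem T10_of (a b : ℤ) (hab : 4 * a ^ 3 + 27 * b ^ 2 ≠ 0)
    (hf : ∀ g : ℤ, g ≠ 0 → ∃ (N : ℕ) (f : ℕ → ℂ), AF (a * g ^ 2) (b * g ^ 3) N f) :
    ∃ (Q : ℕ) (lam : ℕ → ℝ), Nonempty (Twists Q lam) ∧
      (∀ p : ℕ, p.Prime → (p : ℤ) ∣ 2 * (4 * a ^ 3 + 27 * b ^ 2) → p ∣ Q) ∧
      ∀ p : ℕ, p.Prime → ¬ p ∣ Q → lam p = ap a b p / Real.sqrt p := by
  classical
  have hf' : ∀ g : ℤ, ∃ (N : ℕ) (f : ℕ → ℂ),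
      g ≠ 0 → AF (a * g ^ 2) (b * g ^ 3) N f := by
    intro g
    by_cases hg : g = 0
    · exact ⟨1, 0, fun h => absurd hg h⟩
    · obtain ⟨N, f, h⟩ := hf g hg
      exact ⟨N, f, fun _ => h⟩
  choose N f hF using hf'
  set Q : ℕ := 30030 * (2 * (4 * a ^ 3 + 27 * b ^ 2)).natAbs with hQdef
  have hQ0 : 0 < Q := by
    rw [hQdef]
    refine Nat.mul_pos (by norm_num) (Int.natAbs_pos.2 (mul_ne_zero two_ne_zero hab))
  have h30 : 30030 ∣ Q := Dvd.intro _ rfl
  have h2 : 2 ∣ Q := (by norm_num : 2 ∣ 30030).trans h30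
  have hQ : ∀ p : ℕ, p.Prime → (p : ℤ) ∣ 2 * (4 * a ^ 3 + 27 * b ^ 2) → p ∣ Q := by
    intro p _ h
    exact dvd_mul_of_dvd_right (Int.natCast_dvd.1 h) _
  have hF1 : AF (a * 1 ^ 2) (b * 1 ^ 3) (N 1) (f 1) := hF 1 one_ne_zero
  have hone : ∀ p : ℕ, p.Prime → (p : ℤ) ∣ 1 → p ∣ Q := by
    intro p hp h
    exact absurd (Int.natCast_dvd.1 h) (by simpa using hp.ne_one)
  have hlam : ∀ p : ℕ, p.Prime → ¬ p ∣ Q → lamQ (f 1) Q p = ap a b p / Real.sqrt p := by
    intro p hp hpQ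
    have h1 := (nf_good_eq hF1 hF1 hQ hone hp hpQ).2.2.1
    have h3 := co_pow (Q := Q) hp 0
    rw [zero_add, pow_one, if_neg hpQ] at h3
    unfold lamQ
    rw [h1, h3, mul_one]
  refine ⟨Q, lamQ (f 1) Q, ?_, hQ, hlam⟩
  have hH : Hecke Q (lamQ (f 1) Q) := by
    have hm := lamQ_mul hF1 Q
    refine ⟨hQ0, ?_, hm.zero, hm.one, hm.mul, ?_, ?_, ?_⟩
    · intro p hp h16
      refine Nat.dvd_trans ?_ h30
      interval_cases p <;> first | (norm_num; done) | (exact absurd hp (by norm_num))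
    · intro p k hp hpQ
      unfold lamQ
      rw [co_pow hp, if_pos hpQ, mul_zero]
    · intro p k hp hpQ
      have hn := (nf_good_eq hF1 hF1 hQ hone hp hpQ).1
      have hr := nf_rec hF1 hp k
      rw [if_neg hn] at hr
      have c : ∀ j : ℕ, co Q (p ^ j) = 1 := by
        intro j
        rcases j with _ | j
        · simp [co_one]
        · rw [co_pow hp, if_neg hpQ]
      have c1 : co Q p = 1 := by simpa using c 1
      unfold lamQ
      rw [c, c, c, c1, hr]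
      ring
    · intro p hp
      by_cases hpQ : p ∣ Q
      · have h3 := co_pow (Q := Q) hp 0
        rw [zero_add, pow_one, if_pos hpQ] at h3
        unfold lamQ
        rw [h3, mul_zero, abs_zero]
        norm_num
      · have hn := (nf_good_eq hF1 hF1 hQ hone hp hpQ).1
        have h3 := co_pow (Q := Q) hp 0
        rw [zero_add, pow_one, if_neg hpQ] at h3
        unfold lamQ
        rw [h3, mul_one]
        exact nf_good hF1 hp hn
  choose! m g hdec using fun (d : ℤ) (hd : Squarefree d) => decomp hQ0 h2 d hd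
  have hcoN : ∀ d : ℤ, Squarefree d → (m d).Coprime (N (g d)) := by
    intro d hd
    obtain ⟨-, -, -, hmQ, hg0, hgQ, -⟩ := hdec d hd
    refine Nat.coprime_of_dvd fun p hp h1 h3 => ?_
    have hpQ : ¬ p ∣ Q := fun h4 => by
      have := Nat.dvd_gcd h1 h4
      rw [hmQ] at this
      exact hp.ne_one (Nat.dvd_one.1 this)
    exact (nf_good_eq hF1 (hF (g d) hg0) hQ hgQ hp hpQ).2.1 h3
  choose! w hw using fun (d : ℤ) (hd : Squarefree d) =>
    (hF (g d) (hdec d hd).2.2.2.2.1).fe (m d) (hdec d hd).2.1 (hdec d hd).2.2.1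
      (hcoN d hd)
  set c : ℝ := Q + (∑ j ∈ Finset.Icc (-(Q : ℤ)) Q, Real.sqrt (N j)) + SS ^ Q.primeFactors.card
    with hc
  have hQ1 : (1 : ℝ) ≤ Q := by exact_mod_cast hQ0
  have hsum0 : 0 ≤ ∑ j ∈ Finset.Icc (-(Q : ℤ)) Q, Real.sqrt (N j) :=
    Finset.sum_nonneg fun _ _ => Real.sqrt_nonneg _
  have hSS0 : 0 ≤ SS ^ Q.primeFactors.card := pow_nonneg (by linarith [one_le_SS]) _
  have hcQ : (Q : ℝ) ≤ c := by rw [hc]; linarith
  have hcS : SS ^ Q.primeFactors.card ≤ c := by rw [hc]; linarith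
  have hcN : ∀ d : ℤ, Squarefree d → Real.sqrt (N (g d)) ≤ c := by
    intro d hd
    obtain ⟨-, -, -, -, -, -, hgQ⟩ := hdec d hd
    have h1 : g d ∈ Finset.Icc (-(Q : ℤ)) Q := by
      rw [Finset.mem_Icc]
      exact abs_le.1 hgQ
    have h3 := Finset.single_le_sum (f := fun j => Real.sqrt (N j))
      (fun j _ => Real.sqrt_nonneg _) h1
    rw [hc]
    linarith
  have habs : ∀ d : ℤ, Squarefree d → |(d : ℝ)| = |(g d : ℝ)| * m d := by
    intro d hd
    obtain ⟨he, hodd, -⟩ := hdec d hd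
    have hchi : |((ZMod.χ₄ (m d) : ℤ) : ℝ)| = 1 := by
      have h4 : ZMod.χ₄ (m d) = 1 ∨ ZMod.χ₄ (m d) = -1 := by
        rw [ZMod.χ₄_nat_eq_if_mod_four]
        have := Nat.odd_iff.1 hodd
        rw [if_neg (by omega)]
        split_ifs <;> simp
      rcases h4 with h4 | h4 <;> rw [h4] <;> norm_num
    have h5 : (d : ℝ) = (g d : ℝ) * (((ZMod.χ₄ (m d) : ℤ) : ℝ) * (m d : ℝ)) := by
      exact_mod_cast congrArg (fun x : ℤ => (x : ℝ)) he
    rw [h5, abs_mul, abs_mul, hchi, one_mul, Nat.abs_cast]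
  have hNpos : ∀ d : ℤ, Squarefree d → (1 : ℝ) ≤ Real.sqrt (N (g d)) := by
    intro d hd
    have := (hF (g d) (hdec d hd).2.2.2.2.1).pos
    rw [Real.one_le_sqrt]
    exact_mod_cast this
  refine ⟨{
    hecke := hH
    c := c
    one_le_c := by linarith
    q := fun d => (m d : ℝ) * Real.sqrt (N (g d))
    w := w
    e := fun d => ee (f (g d)) Q (m d)
    e' := fun d => ei (N (g d)) (f (g d)) Q (m d)
    q_lower := ?_
    q_upper := ?_
    w_sq := fun d hd => (hw d hd).1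
    e_zero := ?_
    e_sum := ?_
    e'_sum := ?_
    e_inv := ?_
    fe := ?_ }⟩
  · intro d hd
    have hg1 : |(g d : ℝ)| ≤ c := by
      refine le_trans ?_ hcQ
      have := (hdec d hd).2.2.2.2.2.2
      exact_mod_cast this
    rw [habs d hd]
    have h0 : (0 : ℝ) ≤ m d := by positivity
    calc |(g d : ℝ)| * m d ≤ c * m d := mul_le_mul_of_nonneg_right hg1 h0
      _ = c * (m d * 1) := by ring
      _ ≤ c * (m d * Real.sqrt (N (g d))) := by
          refine mul_le_mul_of_nonneg_left ?_ (by linarith)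
          exact mul_le_mul_of_nonneg_left (hNpos d hd) h0
  · intro d hd
    rw [habs d hd]
    have h0 : (0 : ℝ) ≤ m d := by positivity
    have hg1 : (1 : ℝ) ≤ |(g d : ℝ)| := by
      have := Int.one_le_abs (hdec d hd).2.2.2.2.1
      exact_mod_cast this
    calc (m d : ℝ) * Real.sqrt (N (g d)) ≤ m d * c := mul_le_mul_of_nonneg_left (hcN d hd) h0
      _ = c * (1 * m d) := by ring
      _ ≤ c * (|(g d : ℝ)| * m d) := by
          refine mul_le_mul_of_nonneg_left ?_ (by linarith)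
          exact mul_le_mul_of_nonneg_right hg1 h0
  · intro d hd
    have hFd := hF (g d) (hdec d hd).2.2.2.2.1
    exact ⟨(ee_mul hFd Q (m d)).zero, (ppf_mul _).zero⟩
  · intro d hd
    have hFd := hF (g d) (hdec d hd).2.2.2.2.1
    have h := sum_bd (ee_mul hFd Q (m d)) Q hQ0.ne'
      (fun p k hp hpQ => ee_pow' _ hp hpQ k) (fun p k hp => ee_pow_le hFd hp k)
    exact ⟨h.1, h.2.trans hcS⟩
  · intro d hd
    have hFd := hF (g d) (hdec d hd).2.2.2.2.1
    have h := sum_bd (ppf_mul (iu (N (g d)) (f (g d)) Q (m d))) Q hQ0.ne'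
      (fun p k hp hpQ => by rw [ppf_pow _ hp]; simp [iu, hpQ])
      (fun p k hp => ei_pow_le hFd hp k)
    exact ⟨h.1, h.2.trans hcS⟩
  · intro d hd n _
    have hFd := hF (g d) (hdec d hd).2.2.2.2.1
    exact cv_ee_ei hFd (hdec d hd).2.2.2.1 n
  · intro d hd z hz
    have hFd := hF (g d) (hdec d hd).2.2.2.2.1
    obtain ⟨he, hodd, hsqm, hmQ, hg0, hgQ, hgle⟩ := hdec d hd
    have key : ∀ n : ℕ, (((∑ x ∈ n.divisorsAntidiagonal, ee (f (g d)) Q (m d) x.1 *
        (lamQ (f 1) Q x.2 * js d x.2)) * Real.sqrt n : ℝ) : ℂ) =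
        (f (g d)) n * js n (m d) := by
      intro n
      have h1 := cv_lam hF1 hFd h2 hQ hgQ hodd n
      rw [← he] at h1
      have h3 : ∑ x ∈ n.divisorsAntidiagonal, ee (f (g d)) Q (m d) x.1 *
        (lamQ (f 1) Q x.2 * js d x.2) = nf (f (g d)) n * js n (m d) := h1
      rw [h3]
      rcases Nat.eq_zero_or_pos n with rfl | hn
      · simp [coef_zero hFd]
      · have hs : Real.sqrt n ≠ 0 := (Real.sqrt_pos.2 (by exact_mod_cast hn)).ne'
        rw [coef_eq hFd, ← Complex.ofReal_mul]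
        congr 1
        unfold nf
        field_simp
    have h := (hw d hd).2 z hz
    simp only [key]
    exact h


end Pool.Agent.Y692.QN
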