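import Pool.Agent.Y692.QN.Tw

/-!
Project QT, tasks N3, N4: the coefficients of the `L`-function of a Hecke character.
-/

set_option autoImplicit false

open Complex

namespace Pool.Agent.Y692.QN

open Pool.Agent.W192.HK Pool.Agent.TH936.AC
open Pool.Agent.Y690 (cop_iff cop_congr cop_mono lift_cop ne_zero_of_cop sp_ne)

variable {R : Subring ℂ} {ω : ℂ}

open Classical in
/-- the nonzero ideals of norm `n` -/
noncomputable def SN (R : Subring ℂ) (n : ℕ) : Finset (Ideal R) :=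
  if h : {I : Ideal R | I ≠ ⊥ ∧ cd I = n}.Finite then h.toFinset else ∅

theorem mem_SN (hQ : QP R ω) {n : ℕ} {I : Ideal R} : I ∈ SN R n ↔ I ≠ ⊥ ∧ cd I = n := by
  have hfin : {I : Ideal R | I ≠ ⊥ ∧ cd I = n}.Finite := by
    refine ((F_cnt R ω hQ.qr).1 n).subset ?_
    rintro I ⟨-, h⟩
    show nm I ≤ n
    rw [nm_eq, h]
  unfold SN
  rw [dif_pos hfin, Set.Finite.mem_toFinset]
  rfl

/-- the coefficients -/
noncomputable def cf (ψ : Ideal R → ℂ) (n : ℕ) : ℂ := ∑ I ∈ SN R n, ψ I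

variable {ψ : Ideal R → ℂ} {f : Ideal R}

theorem cf_zero (hQ : QP R ω) (ψ : Ideal R → ℂ) : cf ψ 0 = 0 := by
  unfold cf
  refine Finset.sum_eq_zero fun I hI => ?_
  obtain ⟨h1, h2⟩ := (mem_SN hQ).1 hI
  exact absurd h2 (cd_pos hQ h1).ne'

theorem cf_one (hQ : QP R ω) (ht : ψ ⊤ = 1) : cf ψ 1 = 1 := by
  have : SN R 1 = {⊤} := by
    ext I
    rw [mem_SN hQ, Finset.mem_singleton, cd_eq_one hQ]
    constructor
    · exact fun h => h.2
    · rintro rfl
      exact ⟨top_ne_bot, rfl⟩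
  rw [cf, this, Finset.sum_singleton, ht]

theorem cf_real (hQ : QP R ω) (hc : CS ψ) (n : ℕ) : (starRingEnd ℂ) (cf ψ n) = cf ψ n := by
  obtain ⟨k1, k2, k3, k4, k5, k6, k7, k8, k9, k10, k11, k12, k13, k14⟩ := F_bar R ω hQ
  have hcd : ∀ I : Ideal R, cd (bar I) = cd I := by
    intro I
    have := k8 I
    rw [nm_eq, nm_eq] at this
    exact_mod_cast this
  have hbot : ∀ I : Ideal R, I ≠ ⊥ → bar I ≠ ⊥ := by
    intro I hI h
    apply hI
    rw [← k3 I, h, k10]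
  unfold cf
  rw [map_sum]
  refine Finset.sum_nbij' bar bar ?_ ?_ ?_ ?_ ?_
  · intro I hI
    obtain ⟨h1, h2⟩ := (mem_SN hQ).1 hI
    exact (mem_SN hQ).2 ⟨hbot I h1, by rw [hcd, h2]⟩
  · intro I hI
    obtain ⟨h1, h2⟩ := (mem_SN hQ).1 hI
    exact (mem_SN hQ).2 ⟨hbot I h1, by rw [hcd, h2]⟩
  · intro I _
    exact k3 I
  · intro I _
    exact k3 I
  · intro I _
    exact (hc I).symm

theorem cop_of_cd (hQ : QP R ω) {I J : Ideal R} (hI : I ≠ ⊥) (hJ : J ≠ ⊥)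
    (h : Nat.Coprime (cd I) (cd J)) : IsCoprime I J := by
  rw [Ideal.isCoprime_iff_exists]
  have h1 : IsCoprime (cd I : ℤ) (cd J : ℤ) := Nat.isCoprime_iff_coprime.2 h
  obtain ⟨u, v, huv⟩ := h1
  refine ⟨(u : R) * ((cd I : ℕ) : R), Ideal.mul_mem_left _ _ (mem_cd hQ hI),
    (v : R) * ((cd J : ℕ) : R), Ideal.mul_mem_left _ _ (mem_cd hQ hJ), ?_⟩
  have := congrArg (fun z : ℤ => (z : R)) huv
  push_cast at this
  exact this

theorem cf_mul (hQ : QP R ω) (hmul : ∀ I J : Ideal R, ψ (I * J) = ψ I * ψ J) {m n : ℕ}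
    (hmn : Nat.Coprime m n) : cf ψ (m * n) = cf ψ m * cf ψ n := by
  have hded := hQ.qr.ded
  unfold cf
  rw [Finset.sum_mul_sum, ← Finset.sum_product']
  symm
  refine Finset.sum_nbij (fun x => x.1 * x.2) ?_ ?_ ?_ ?_
  · rintro ⟨I, J⟩ h
    obtain ⟨hI, hJ⟩ := Finset.mem_product.1 h
    obtain ⟨hI1, hI2⟩ := (mem_SN hQ).1 hI
    obtain ⟨hJ1, hJ2⟩ := (mem_SN hQ).1 hJ
    refine (mem_SN hQ).2 ⟨mul_ne_bot hQ hI1 hJ1, ?_⟩
    show cd (I * J) = m * n
    rw [cd_mul hQ, hI2, hJ2]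
  · rintro ⟨I, J⟩ h ⟨I', J'⟩ h' heq
    have h := Finset.mem_coe.1 h
    have h' := Finset.mem_coe.1 h'
    obtain ⟨hI, hJ⟩ := Finset.mem_product.1 h
    obtain ⟨hI1, hI2⟩ := (mem_SN hQ).1 hI
    obtain ⟨hJ1, hJ2⟩ := (mem_SN hQ).1 hJ
    obtain ⟨hI', hJ'⟩ := Finset.mem_product.1 h'
    obtain ⟨hI1', hI2'⟩ := (mem_SN hQ).1 hI'
    obtain ⟨hJ1', hJ2'⟩ := (mem_SN hQ).1 hJ'
    simp only at hI1 hI2 hJ1 hJ2 hI1' hI2' hJ1' hJ2' heq
    have key : ∀ I J I' J' : Ideal R, I ≠ ⊥ → J' ≠ ⊥ → Nat.Coprime (cd I) (cd J') →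
        I * J = I' * J' → I' ≤ I := by
      intro I J I' J' h1 h2 h3 h4
      have h5 : I ∣ I' * J' := ⟨J, h4.symm⟩
      exact Ideal.le_of_dvd ((cop_of_cd hQ h1 h2 h3).dvd_of_dvd_mul_right h5)
    have e1 : I = I' := le_antisymm
      (key I' J' I J hI1' hJ1 (by rw [hI2', hJ2]; exact hmn) heq.symm)
      (key I J I' J' hI1 hJ1' (by rw [hI2, hJ2']; exact hmn) heq)
    have heq' : J * I = J' * I' := by rw [mul_comm, heq, mul_comm]
    have e2 : J = J' := le_antisymm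
      (key J' I' J I hJ1' hI1 (by rw [hI2, hJ2']; exact hmn.symm) heq'.symm)
      (key J I J' I' hJ1 hI1' (by rw [hI2', hJ2]; exact hmn.symm) heq')
    rw [e1, e2]
  · intro K hK
    obtain ⟨hK1, hK2⟩ := (mem_SN hQ).1 (Finset.mem_coe.1 hK)
    have hmn0 : 0 < m * n := hK2 ▸ cd_pos hQ hK1
    have hm0 : 0 < m := Nat.pos_of_mul_pos_right hmn0 |> fun _ => by
      rcases Nat.eq_zero_or_pos m with h | h
      · subst h; simp at hmn0
      · exact h
    have hn0 : 0 < n := by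
      rcases Nat.eq_zero_or_pos n with h | h
      · subst h; simp at hmn0
      · exact h
    set I : Ideal R := K ⊔ sp (m : R) with hI
    set J : Ideal R := K ⊔ sp (n : R) with hJ
    have hKI : K ≤ I := le_sup_left
    have hKJ : K ≤ J := le_sup_left
    have hmI : sp (m : R) ≤ I := le_sup_right
    have hnJ : sp (n : R) ≤ J := le_sup_right
    have hI0 : I ≠ ⊥ := fun h => hK1 (le_bot_iff.1 (h ▸ hKI))
    have hJ0 : J ≠ ⊥ := fun h => hK1 (le_bot_iff.1 (h ▸ hKJ))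
    have hcopmn : IsCoprime (sp (m : R)) (sp (n : R)) := by
      rw [cop_nat hQ (sp_ne_bot hm0) hn0, cd_nat hQ]
      exact Nat.Coprime.pow_left 2 hmn
    have hcop : IsCoprime I J := by
      rw [Ideal.isCoprime_iff_sup_eq] at hcopmn ⊢
      exact top_le_iff.1 (hcopmn ▸ sup_le_sup hmI hnJ)
    have hIJ : I * J = K := by
      apply le_antisymm
      · rw [hI, hJ, Ideal.sup_mul, Ideal.mul_sup, Ideal.mul_sup]
        refine sup_le (sup_le Ideal.mul_le_left Ideal.mul_le_left) (sup_le Ideal.mul_le_right ?_)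
        rw [← Pool.Agent.Y690.sp_mul, Ideal.span_singleton_le_iff_mem]
        have := mem_cd hQ hK1
        rw [hK2] at this
        push_cast at this
        exact this
      · exact Ideal.le_of_dvd (hcop.mul_dvd (Ideal.dvd_iff_le.2 hKI) (Ideal.dvd_iff_le.2 hKJ))
    have hdI : cd I ∣ m ^ 2 := by
      obtain ⟨I', hI'⟩ := Ideal.dvd_iff_le.2 hmI
      rw [← cd_nat hQ m, hI', cd_mul hQ]
      exact dvd_mul_right _ _
    have hdJ : cd J ∣ n ^ 2 := by
      obtain ⟨I', hI'⟩ := Ideal.dvd_iff_le.2 hnJ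
      rw [← cd_nat hQ n, hI', cd_mul hQ]
      exact dvd_mul_right _ _
    have hprod : cd I * cd J = m * n := by rw [← cd_mul hQ, hIJ, hK2]
    have hcI : Nat.Coprime (cd I) n :=
      Nat.Coprime.coprime_dvd_left hdI (Nat.Coprime.pow_left 2 hmn)
    have hcJ : Nat.Coprime (cd J) m :=
      Nat.Coprime.coprime_dvd_left hdJ (Nat.Coprime.pow_left 2 hmn.symm)
    have eI : cd I = m := by
      apply Nat.dvd_antisymm
      · exact hcI.dvd_of_dvd_mul_right (hprod ▸ dvd_mul_right _ _)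
      · exact hcJ.symm.dvd_of_dvd_mul_right (hprod.symm ▸ dvd_mul_right _ _)
    have eJ : cd J = n := by
      rw [eI] at hprod
      exact Nat.eq_of_mul_eq_mul_left hm0 hprod
    refine ⟨(I, J), ?_, hIJ⟩
    exact Finset.mem_coe.2 (Finset.mem_product.2 ⟨(mem_SN hQ).2 ⟨hI0, eI⟩, (mem_SN hQ).2 ⟨hJ0, eJ⟩⟩)
  · rintro ⟨I, J⟩ _
    exact (hmul I J).symm

/-- a prime ideal dividing an ideal of norm a power of `p` contains `p` -/
theorem prime_ex (hQ : QP R ω) {p k : ℕ} {I : Ideal R} (hI : I ≠ ⊥)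
    (h : cd I = p ^ (k + 1)) (hp : p.Prime) :
    ∃ Q : Ideal R, Q.IsPrime ∧ Q ≠ ⊥ ∧ Q ∣ I ∧ (p : R) ∈ Q := by
  have hded := hQ.qr.ded
  have hIt : I ≠ ⊤ := by
    rintro rfl
    rw [cd_top] at h
    exact (Nat.one_lt_pow (Nat.succ_ne_zero k) hp.one_lt).ne h
  obtain ⟨Q, hQm, hIQ⟩ := Ideal.exists_le_maximal I hIt
  refine ⟨Q, hQm.isPrime, ?_, Ideal.dvd_iff_le.2 hIQ, ?_⟩
  · rintro rfl
    exact hI (le_bot_iff.1 hIQ)
  · have h1 := hIQ (mem_cd hQ hI)
    rw [h] at h1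
    push_cast at h1
    exact hQm.isPrime.mem_of_pow_mem _ h1

/-- inert primes -/
theorem cf_inert (hQ : QP R ω) (hmul : ∀ I J : Ideal R, ψ (I * J) = ψ I * ψ J) {p : ℕ}
    (hp : p.Prime) (hin : (sp (p : R)).IsPrime) :
    cf ψ p = 0 ∧ ∀ k : ℕ, cf ψ (p ^ (k + 2)) = ψ (sp (p : R)) * cf ψ (p ^ k) := by
  have hded := hQ.qr.ded
  have hp0 : sp (p : R) ≠ ⊥ := sp_ne_bot hp.pos
  have hmax : (sp (p : R)).IsMaximal := hin.isMaximal hp0
  have hdiv : ∀ (k : ℕ) (I : Ideal R), I ≠ ⊥ → cd I = p ^ (k + 1) → sp (p : R) ∣ I := by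
    intro k I hI h
    obtain ⟨Q, hQ1, hQ2, hQ3, hQ4⟩ := prime_ex hQ hI h hp
    have h1 : sp (p : R) ≤ Q := (Ideal.span_singleton_le_iff_mem _).2 hQ4
    have h2 : sp (p : R) = Q := hmax.eq_of_le hQ1.ne_top h1
    rw [h2]
    exact hQ3
  constructor
  · unfold cf
    refine Finset.sum_eq_zero fun I hI => ?_
    obtain ⟨h1, h2⟩ := (mem_SN hQ).1 hI
    obtain ⟨J, hJ⟩ := hdiv 0 I h1 (by rw [h2, zero_add, pow_one])
    have h3 := cd_mul hQ (sp (p : R)) J
    rw [← hJ, h2, cd_nat hQ] at h3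
    exfalso
    have hJ0 : 0 < cd J := by
      rcases Nat.eq_zero_or_pos (cd J) with h | h
      · rw [h, mul_zero] at h3
        exact absurd h3 hp.ne_zero
      · exact h
    have := hp.one_lt
    nlinarith
  · intro k
    unfold cf
    rw [Finset.mul_sum]
    symm
    refine Finset.sum_nbij (fun I => sp (p : R) * I) ?_ ?_ ?_ ?_
    · intro I hI
      obtain ⟨h1, h2⟩ := (mem_SN hQ).1 hI
      refine (mem_SN hQ).2 ⟨mul_ne_bot hQ hp0 h1, ?_⟩
      show cd (sp (p : R) * I) = _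
      rw [cd_mul hQ, cd_nat hQ, h2]
      ring
    · intro I _ J _ h
      exact mul_left_cancel₀ (show sp (p : R) ≠ 0 from hp0) h
    · intro K hK
      obtain ⟨h1, h2⟩ := (mem_SN hQ).1 (Finset.mem_coe.1 hK)
      obtain ⟨J, hJ⟩ := hdiv (k + 1) K h1 h2
      refine ⟨J, Finset.mem_coe.2 ((mem_SN hQ).2 ⟨?_, ?_⟩), hJ.symm⟩
      · rintro rfl
        rw [Ideal.mul_bot] at hJ
        exact h1 hJ
      · have h3 := cd_mul hQ (sp (p : R)) J
        rw [← hJ, h2, cd_nat hQ] at h3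
        have hp2 : 0 < p ^ 2 := pow_pos hp.pos 2
        apply Nat.eq_of_mul_eq_mul_left hp2
        rw [← h3]
        ring
    · intro I _
      exact (hmul _ _).symm

/-- split primes -/
theorem cf_split_succ (hQ : QP R ω) (hmul : ∀ I J : Ideal R, ψ (I * J) = ψ I * ψ J)
    (ht : ψ ⊤ = 1) {p : ℕ}
    (hp : p.Prime) {P P' : Ideal R} (hP : P.IsPrime) (hP0 : P ≠ ⊥) (hP' : P'.IsPrime)
    (hP0' : P' ≠ ⊥) (hPP : P * P' = sp (p : R)) (hne : P ≠ P') (hcd : cd P = p)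
    (hcd' : cd P' = p) (k : ℕ) :
    cf ψ (p ^ (k + 1)) = ψ P * cf ψ (p ^ k) + ψ P' ^ (k + 1) := by
  classical
  have hded := hQ.qr.ded
  have hpP : Prime P := Ideal.prime_of_isPrime hP0 hP
  have hpP' : Prime P' := Ideal.prime_of_isPrime hP0' hP'
  have hnd : ¬ P ∣ P' := fun h => hne (associated_iff_eq.1 (hpP.associated_of_dvd hpP' h))
  have hcdp : ∀ j : ℕ, cd (P' ^ j) = p ^ j := by
    intro j
    induction j with
    | zero => rw [pow_zero, pow_zero, Ideal.one_eq_top, cd_top]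
    | succ j ih => rw [pow_succ, cd_mul hQ, ih, hcd', pow_succ]
  have hψp : ∀ j : ℕ, ψ (P' ^ j) = ψ P' ^ j := by
    intro j
    induction j with
    | zero => rw [pow_zero, pow_zero, Ideal.one_eq_top, ht]
    | succ j ih => rw [pow_succ, hmul, ih, pow_succ]
  have key : ∀ (j : ℕ) (I : Ideal R), I ≠ ⊥ → cd I = p ^ j → ¬ P ∣ I → I = P' ^ j := by
    intro j
    induction j with
    | zero =>
      intro I hI h _
      rw [pow_zero] at h ⊢
      rw [Ideal.one_eq_top]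
      exact (cd_eq_one hQ).1 h
    | succ j ih =>
      intro I hI h hnP
      obtain ⟨Q, hQ1, hQ2, hQ3, hQ4⟩ := prime_ex hQ hI h hp
      have hQp : Prime Q := Ideal.prime_of_isPrime hQ2 hQ1
      have h1 : Q ∣ P * P' := by
        rw [hPP, Ideal.dvd_iff_le, Ideal.span_singleton_le_iff_mem]
        exact hQ4
      have hQP' : Q = P' := by
        rcases hQp.dvd_or_dvd h1 with h2 | h2
        · have : Q = P := associated_iff_eq.1 (hQp.associated_of_dvd hpP h2)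
          rw [this] at hQ3
          exact absurd hQ3 hnP
        · exact associated_iff_eq.1 (hQp.associated_of_dvd hpP' h2)
      obtain ⟨J, hJ⟩ := hQ3
      rw [hQP'] at hJ
      have hJ0 : J ≠ ⊥ := by
        rintro rfl
        rw [Ideal.mul_bot] at hJ
        exact hI hJ
      have h3 : cd J = p ^ j := by
        have h4 := cd_mul hQ P' J
        rw [← hJ, h, hcd'] at h4
        apply Nat.eq_of_mul_eq_mul_left hp.pos
        rw [← h4]
        ring
      have h5 := ih J hJ0 h3 (fun h => hnP (hJ ▸ Dvd.dvd.mul_left h _))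
      rw [hJ, h5, pow_succ']
  have hset : SN R (p ^ (k + 1)) = insert (P' ^ (k + 1)) ((SN R (p ^ k)).image (fun I => P * I)) := by
    ext I
    rw [mem_SN hQ, Finset.mem_insert, Finset.mem_image]
    constructor
    · rintro ⟨h1, h2⟩
      by_cases hd : P ∣ I
      · obtain ⟨J, hJ⟩ := hd
        refine Or.inr ⟨J, (mem_SN hQ).2 ⟨?_, ?_⟩, hJ.symm⟩
        · rintro rfl
          rw [Ideal.mul_bot] at hJ
          exact h1 hJ
        · have h4 := cd_mul hQ P J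
          rw [← hJ, h2, hcd] at h4
          apply Nat.eq_of_mul_eq_mul_left hp.pos
          rw [← h4]
          ring
      · exact Or.inl (key (k + 1) I h1 h2 hd)
    · rintro (h | ⟨J, hJ, rfl⟩)
      · rw [h]
        exact ⟨pow_ne_zero _ (show P' ≠ 0 from hP0'), hcdp _⟩
      · obtain ⟨h1, h2⟩ := (mem_SN hQ).1 hJ
        refine ⟨mul_ne_bot hQ hP0 h1, ?_⟩
        rw [cd_mul hQ, h2, hcd]
        ring
  have hnotin : P' ^ (k + 1) ∉ (SN R (p ^ k)).image (fun I => P * I) := by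
    rw [Finset.mem_image]
    rintro ⟨J, -, hJ⟩
    exact hnd (hpP.dvd_of_dvd_pow ⟨J, hJ.symm⟩)
  unfold cf
  rw [hset, Finset.sum_insert hnotin, Finset.sum_image (fun I _ J _ h =>
    mul_left_cancel₀ (show P ≠ 0 from hP0) h), hψp, add_comm, Finset.mul_sum]
  congr 1
  exact Finset.sum_congr rfl fun I _ => hmul P I

theorem cf_split (hQ : QP R ω) (hmul : ∀ I J : Ideal R, ψ (I * J) = ψ I * ψ J)
    (ht : ψ ⊤ = 1) {p : ℕ}
    (hp : p.Prime) {P P' : Ideal R} (hP : P.IsPrime) (hP0 : P ≠ ⊥) (hP' : P'.IsPrime)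
    (hP0' : P' ≠ ⊥) (hPP : P * P' = sp (p : R)) (hne : P ≠ P') (hcd : cd P = p)
    (hcd' : cd P' = p) :
    cf ψ p = ψ P + ψ P' ∧ ∀ k : ℕ, cf ψ (p ^ (k + 2)) =
      cf ψ p * cf ψ (p ^ (k + 1)) - ψ (sp (p : R)) * cf ψ (p ^ k) := by
  have h1 := cf_split_succ hQ hmul ht hp hP hP0 hP' hP0' hPP hne hcd hcd'
  have h2 := cf_split_succ hQ hmul ht hp hP' hP0' hP hP0 (by rw [mul_comm, hPP]) hne.symm hcd' hcd
  have h3 : cf ψ p = ψ P + ψ P' := by
    have := h1 0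
    rw [zero_add, pow_one, pow_one, pow_zero, cf_one hQ ht, mul_one] at this
    exact this
  refine ⟨h3, fun k => ?_⟩
  rw [h3, ← hPP, hmul]
  have e1 := h2 (k + 1)
  have e2 := h2 k
  have e3 : k + 1 + 1 = k + 2 := rfl
  rw [e3] at e1
  rw [e1]
  have e4 := h1 (k + 1)
  rw [e3] at e4
  have e5 := h1 k
  -- `cf (k+2) = y cf (k+1) + x^(k+2)`, `cf (k+1) = y cf k + x^(k+1)`
  have : ψ P ^ (k + 2) = ψ P * (cf ψ (p ^ (k + 1)) - ψ P' * cf ψ (p ^ k)) := by
    rw [e2]; ring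
  rw [this]
  ring

end Pool.Agent.Y692.QN
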