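import Pool.Agent.TH936.AC.Bar
import Pool.Agent.TH936.AC.Ram
import Pool.Agent.TH936.HK.Theta
import Pool.Agent.W287.HK.Basic
import Pool.Agent.W571.HK.Cls
import Pool.Agent.W53.HK.Fp
import Pool.Agent.W366.HK.Fpr
import Pool.Agent.W585.HK.LAT
import Pool.Agent.W692.HK.Ker
import Pool.Agent.W584.HK.CNT
import Pool.Agent.W856.HK.Dec
import Pool.Agent.W636.HK.Gauss
import Pool.Agent.W348.HK.Pois
import Pool.Agent.W29.HK.Prod

/-!
Project QT, tasks N3, N4: the facts of the projects HK and AC which are used.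
-/

set_option autoImplicit false

namespace Pool.Agent.Y692.QN

open Pool.Agent.W192.HK Pool.Agent.TH936.AC

theorem F_basic : H_BASIC := Pool.Agent.W287.HK.h_basic

theorem F_cls : H_CLS := Pool.Agent.W571.HK.h_cls F_basic

theorem F_fp : H_FP := Pool.Agent.W53.HK.h_fp F_basic F_cls

theorem F_fpr : H_FPR := Pool.Agent.W366.HK.h_fpr F_basic F_cls

theorem F_lat : H_LAT := Pool.Agent.W585.HK.h_lat F_basic

theorem F_ker : H_KER := Pool.Agent.W692.HK.h_ker F_basic F_cls F_fpr

theorem F_cnt : H_CNT := Pool.Agent.W584.HK.h_cnt F_basic F_cls F_fpr F_lat F_ker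

theorem F_dec : H_DEC := Pool.Agent.W856.HK.h_dec F_basic

theorem F_gauss : H_GAUSS := Pool.Agent.W636.HK.h_gauss F_basic F_fp

theorem F_pois : H_POIS := Pool.Agent.W348.HK.h_pois F_basic

theorem F_theta : H_THETA :=
  Pool.Agent.TH936.HK.h_theta F_basic F_fp F_dec F_gauss F_pois F_cnt

theorem F_prod : H_PROD := Pool.Agent.W29.HK.h_prod F_basic F_fp

theorem F_bar : A_BAR := Pool.Agent.TH936.AC.a_bar F_basic

theorem F_ram : A_RAM := Pool.Agent.TH936.AC.a_ram F_basic F_fp F_bar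

end Pool.Agent.Y692.QN
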