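import Pool.Agent.Y692.QN.Abs
import Pool.Agent.W97.TW.Lfun
import Pool.Agent.Y705.QT0

/-!
Project QT, tasks N3, N4: the incomplete `L`-function is entire, from abstract coefficient sequences.

This is the proof of `Pool.Agent.Y818.QT13b` (task T13b, helper818), with a sequence `f : ℕ → ℂ`
instead of the coefficients of a newform.
-/

set_option autoImplicit false

namespace Pool.Agent.Y692.QN

open Complex Filter Topology
open Pool.Agent.Y19.QT

/-- solution of a linear recursion of order two with roots `α`, `β` -/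
theorem rec_sol {u : ℕ → ℂ} {α β : ℂ} (h0 : u 0 = 1) (h1 : u 1 = α + β)
    (h2 : ∀ k, u (k + 2) = (α + β) * u (k + 1) - α * β * u k) (k : ℕ) :
    u k = ∑ j ∈ Finset.range (k + 1), α ^ j * β ^ (k - j) := by
  suffices h : u k = ∑ j ∈ Finset.range (k + 1), α ^ j * β ^ (k - j) ∧
      u (k + 1) = ∑ j ∈ Finset.range (k + 2), α ^ j * β ^ (k + 1 - j) from h.1
  induction k with
  | zero =>
    refine ⟨by simp [h0], ?_⟩
    rw [zero_add, h1, Finset.sum_range_succ, Finset.sum_range_one]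
    simp [add_comm]
  | succ k ih =>
    refine ⟨ih.2, ?_⟩
    rw [show k + 1 + 1 = k + 2 by ring, h2, ih.1, ih.2]
    have e1 : ∑ j ∈ Finset.range (k + 3), α ^ j * β ^ (k + 2 - j) =
        α * (∑ j ∈ Finset.range (k + 2), α ^ j * β ^ (k + 1 - j)) + β ^ (k + 2) := by
      rw [Finset.sum_range_succ', Finset.mul_sum]
      congr 1
      · refine Finset.sum_congr rfl fun j _ => ?_
        rw [show k + 2 - (j + 1) = k + 1 - j by omega, pow_succ]
        ring
      · simp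
    have e2 : β * (∑ j ∈ Finset.range (k + 2), α ^ j * β ^ (k + 1 - j)) =
        β ^ (k + 2) + α * β * ∑ j ∈ Finset.range (k + 1), α ^ j * β ^ (k - j) := by
      rw [Finset.sum_range_succ', mul_add, Finset.mul_sum, Finset.mul_sum, add_comm]
      congr 1
      · simp only [pow_zero, Nat.sub_zero, one_mul]
        ring
      · refine Finset.sum_congr rfl fun j _ => ?_
        rw [show k + 1 - (j + 1) = k - j by omega, pow_succ]
        ring
    rw [show k + 1 + 2 = k + 3 by ring, e1, add_mul, e2]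
    ring

section

variable {a b : ℤ} {N : ℕ} {f : ℕ → ℂ}

theorem coef_pow_bad (hf : AF a b N f) {p : ℕ} (hp : p.Prime) (hN : p ∣ N) (k : ℕ) :
    ‖f (p ^ k)‖ ≤ 1 := by
  suffices h : ‖f (p ^ k)‖ ≤ 1 ∧ ‖f (p ^ (k + 1))‖ ≤ 1 from h.1
  induction k with
  | zero =>
    refine ⟨by simp [hf.one], ?_⟩
    rw [zero_add, pow_one]
    exact hf.bad p hp hN
  | succ k ih =>
    refine ⟨ih.2, ?_⟩
    rw [show k + 1 + 1 = k + 2 by ring, hf.pow p k hp, if_pos hN, sub_zero, norm_mul]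
    calc _ ≤ (1 : ℝ) * 1 := mul_le_mul (hf.bad p hp hN) ih.2 (norm_nonneg _) zero_le_one
      _ = 1 := one_mul 1

theorem coef_pow_le (hf : AF a b N f) {p : ℕ} (hp : p.Prime) (k : ℕ) :
    ‖f (p ^ k)‖ ≤ ((k : ℝ) + 1) * Real.sqrt p ^ k := by
  have hp1 : (1 : ℝ) ≤ Real.sqrt p := by
    rw [Real.one_le_sqrt]
    exact_mod_cast hp.one_lt.le
  by_cases hN : p ∣ N
  · refine (coef_pow_bad hf hp hN k).trans ?_
    have h1 : (1 : ℝ) ≤ (k : ℝ) + 1 := by
      have : (0 : ℝ) ≤ k := Nat.cast_nonneg k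
      linarith
    have h2 : (1 : ℝ) ≤ Real.sqrt p ^ k := one_le_pow₀ hp1
    calc (1 : ℝ) = 1 * 1 := (one_mul 1).symm
      _ ≤ _ := mul_le_mul h1 h2 zero_le_one (by linarith)
  · have hs : (0 : ℝ) < Real.sqrt p := by linarith
    have hreal : f p = ((f p).re : ℂ) := by
      apply Complex.ext
      · simp
      · simp [hf.real p]
    have hb := hf.good p hp hN
    rw [hreal, Complex.norm_real, Real.norm_eq_abs] at hb
    have hb' := abs_le.1 hb
    obtain ⟨θ, hθ⟩ : ∃ θ : ℝ, (f p).re = 2 * Real.sqrt p * Real.cos θ := by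
      refine ⟨Real.arccos ((f p).re / (2 * Real.sqrt p)), ?_⟩
      rw [Real.cos_arccos]
      · field_simp
      · rw [le_div_iff₀ (by positivity)]
        linarith [hb'.1]
      · rw [div_le_one (by positivity)]
        linarith [hb'.2]
    obtain ⟨α, hα⟩ : ∃ α : ℂ, α = (Real.sqrt p : ℂ) * Complex.exp ((θ : ℂ) * Complex.I) := ⟨_, rfl⟩
    obtain ⟨β, hβ⟩ : ∃ β : ℂ, β = (Real.sqrt p : ℂ) * Complex.exp (-((θ : ℂ) * Complex.I)) := ⟨_, rfl⟩
    have hsq : (Real.sqrt p : ℂ) * (Real.sqrt p : ℂ) = p := by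
      rw [← Complex.ofReal_mul, Real.mul_self_sqrt (Nat.cast_nonneg p)]
      simp
    have hαβ : α * β = p := by
      rw [hα, hβ, mul_mul_mul_comm, ← Complex.exp_add, add_neg_cancel, Complex.exp_zero, mul_one, hsq]
    have hsum : f p = α + β := by
      rw [hreal, hθ, hα, hβ]
      push_cast
      rw [Complex.cos, ← neg_mul]
      ring
    have hnα : ‖α‖ = Real.sqrt p := by
      rw [hα, norm_mul, Complex.norm_exp_ofReal_mul_I, mul_one, Complex.norm_real,
        Real.norm_of_nonneg hs.le]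
    have hnβ : ‖β‖ = Real.sqrt p := by
      rw [hβ, norm_mul, show -((θ : ℂ) * Complex.I) = ((-θ : ℝ) : ℂ) * Complex.I by push_cast; ring,
        Complex.norm_exp_ofReal_mul_I, mul_one, Complex.norm_real, Real.norm_of_nonneg hs.le]
    have key := rec_sol (u := fun k => f (p ^ k)) (α := α) (β := β) (by simp [hf.one])
      (by simp [hsum]) (fun k => by
        show f (p ^ (k + 2)) = _
        rw [hf.pow p k hp, if_neg hN, hαβ, hsum]) k
    rw [key]
    refine (norm_sum_le _ _).trans ?_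
    have : ∀ j ∈ Finset.range (k + 1), ‖α ^ j * β ^ (k - j)‖ ≤ Real.sqrt p ^ k := by
      intro j hj
      rw [norm_mul, norm_pow, norm_pow, hnα, hnβ, ← pow_add]
      rw [Finset.mem_range] at hj
      rw [show j + (k - j) = k by omega]
    refine (Finset.sum_le_sum this).trans ?_
    rw [Finset.sum_const, Finset.card_range, nsmul_eq_mul]
    push_cast
    exact le_rfl

/-- `∑ (k+1) x^k = (1-x)⁻²` -/
theorem hasSum_succ_pow {x : ℝ} (h0 : 0 ≤ x) (h1 : x < 1) :
    HasSum (fun k : ℕ => ((k : ℝ) + 1) * x ^ k) (((1 - x)⁻¹) ^ 2) := by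
  have hn : Summable (fun k : ℕ => ‖x ^ k‖) := by
    refine (summable_geometric_of_lt_one h0 h1).congr fun k => ?_
    rw [norm_pow, Real.norm_of_nonneg h0]
  have h := tsum_mul_tsum_eq_tsum_sum_antidiagonal_of_summable_norm (f := fun k : ℕ => x ^ k)
    (g := fun k : ℕ => x ^ k) hn hn
  have h2 : Summable fun k : ℕ => ((k : ℝ) + 1) * x ^ k := by
    have h3 := summable_pow_mul_geometric_of_norm_lt_one (R := ℝ) 1 (r := x)
      (by rwa [Real.norm_of_nonneg h0])
    have h4 := summable_geometric_of_lt_one h0 h1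
    refine (h3.add h4).congr fun k => ?_
    simp
    ring
  have h5 : ∑' k : ℕ, ((k : ℝ) + 1) * x ^ k = ((1 - x)⁻¹) ^ 2 := by
    rw [tsum_geometric_of_lt_one h0 h1] at h
    rw [sq, h]
    refine tsum_congr fun k => ?_
    have : ∀ kl ∈ Finset.HasAntidiagonal.antidiagonal k, x ^ kl.1 * x ^ kl.2 = x ^ k := by
      intro kl hkl
      rw [← pow_add, Finset.HasAntidiagonal.mem_antidiagonal.1 hkl]
    rw [Finset.sum_congr rfl this, Finset.sum_const, Finset.Nat.card_antidiagonal, nsmul_eq_mul]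
    push_cast
    ring
  rw [← h5]
  exact h2.hasSum

theorem summable_coef (hf : AF a b N f) {s : ℂ} (hs : (3 : ℝ) / 2 < s.re) :
    Summable (fun n : ℕ => ‖f n * (n : ℂ) ^ (-s)‖) := by
  set σ : ℝ := s.re with hσ
  have hnorm : ∀ n : ℕ, 1 ≤ n → ‖(n : ℂ) ^ (-s)‖ = (n : ℝ) ^ (-σ) := by
    intro n hn
    rw [Complex.norm_natCast_cpow_of_pos (by omega)]
    simp [hσ]
  have hgm : ∀ n : ℕ, 1 ≤ n → ‖f n * (n : ℂ) ^ (-s)‖ = ‖f n‖ * (n : ℝ) ^ (-σ) := by
    intro n hn
    rw [norm_mul, hnorm n hn]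
  refine (Pool.Agent.Y705.QT0.T0 (fun n : ℕ => ‖f n * (n : ℂ) ^ (-s)‖) 2 (σ - 1 / 2)
    (by linarith) (fun n => norm_nonneg _) ?_ ?_ ?_ ?_).1
  · simp [coef_zero hf]
  · simp [hf.one]
  · intro m n hmn
    show ‖f (m * n) * ((m * n : ℕ) : ℂ) ^ (-s)‖ = ‖f m * (m : ℂ) ^ (-s)‖ *
      ‖f n * (n : ℂ) ^ (-s)‖
    rw [hf.mul m n hmn, Nat.cast_mul, Complex.natCast_mul_natCast_cpow, ← norm_mul]
    congr 1
    ring
  · intro p hp
    have hp0 : (0 : ℝ) < p := by exact_mod_cast hp.pos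
    have hx1 : (p : ℝ) ^ (-(σ - 1 / 2)) < 1 :=
      Real.rpow_lt_one_of_one_lt_of_neg (by exact_mod_cast hp.one_lt) (by linarith)
    have hx0 : (0 : ℝ) ≤ (p : ℝ) ^ (-(σ - 1 / 2)) := Real.rpow_nonneg hp0.le _
    have hS := hasSum_succ_pow hx0 hx1
    have hle : ∀ k : ℕ, ‖f (p ^ k) * ((p ^ k : ℕ) : ℂ) ^ (-s)‖ ≤
        ((k : ℝ) + 1) * ((p : ℝ) ^ (-(σ - 1 / 2))) ^ k := by
      intro k
      have h1 : 1 ≤ p ^ k := Nat.one_le_pow _ _ hp.pos
      rw [hgm _ h1]
      refine (mul_le_mul_of_nonneg_right (coef_pow_le hf hp k)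
        (Real.rpow_nonneg (Nat.cast_nonneg _) _)).trans ?_
      rw [mul_assoc]
      refine mul_le_mul_of_nonneg_left (le_of_eq ?_) (by positivity)
      push_cast
      rw [← Real.rpow_natCast (p : ℝ) k, ← Real.rpow_mul hp0.le, Real.sqrt_eq_rpow,
        ← Real.rpow_natCast ((p : ℝ) ^ (1 / 2 : ℝ)) k, ← Real.rpow_mul hp0.le,
        ← Real.rpow_natCast ((p : ℝ) ^ (-(σ - 1 / 2))) k, ← Real.rpow_mul hp0.le,
        ← Real.rpow_add hp0]
      congr 1
      ring
    have hsum : Summable (fun k : ℕ => ‖f (p ^ k) * ((p ^ k : ℕ) : ℂ) ^ (-s)‖) :=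
      Summable.of_nonneg_of_le (fun k => norm_nonneg _) hle hS.summable
    refine ⟨hsum, ?_⟩
    rw [← hS.tsum_eq]
    exact hsum.tsum_le_tsum hle hS.summable

/-- the local factor at `p` -/
noncomputable def fac (N : ℕ) (f : ℕ → ℂ) (p : ℕ) (s : ℂ) : ℂ :=
  1 - f p * (p : ℂ) ^ (-s) + (if p ∣ N then 0 else (p : ℂ) ^ (1 - 2 * s))

theorem fac_diff (p : ℕ) (hp : p.Prime) : Differentiable ℂ (fac N f p) := by
  have hp0 : (p : ℂ) ≠ 0 := by exact_mod_cast hp.ne_zero
  unfold fac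
  by_cases hN : p ∣ N
  · simp only [hN, if_true]
    have h1 : Differentiable ℂ (fun s : ℂ => (p : ℂ) ^ (-s)) := fun s =>
      (differentiableAt_id.neg).const_cpow (Or.inl hp0)
    exact ((differentiable_const _).sub ((differentiable_const _).mul h1)).add
      (differentiable_const _)
  · simp only [hN, if_false]
    have h1 : Differentiable ℂ (fun s : ℂ => (p : ℂ) ^ (-s)) := fun s =>
      (differentiableAt_id.neg).const_cpow (Or.inl hp0)
    have h2 : Differentiable ℂ (fun s : ℂ => (p : ℂ) ^ (1 - 2 * s)) := fun s =>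
      ((differentiableAt_const _).sub ((differentiableAt_const _).mul differentiableAt_id)).const_cpow
        (Or.inl hp0)
    exact ((differentiable_const _).sub ((differentiable_const _).mul h1)).add h2

theorem local_sum (hf : AF a b N f) {s : ℂ} (hs : (3 : ℝ) / 2 < s.re) {p : ℕ} (hp : p.Prime) :
    (∑' e : ℕ, f (p ^ e) * ((p ^ e : ℕ) : ℂ) ^ (-s)) * fac N f p s = 1 := by
  have hp1 : 1 < p := hp.one_lt
  have hp0 : (p : ℂ) ≠ 0 := by exact_mod_cast hp.ne_zero
  set X : ℂ := (p : ℂ) ^ (-s) with hX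
  have hpow : ∀ e : ℕ, ((p ^ e : ℕ) : ℂ) ^ (-s) = X ^ e := by
    intro e
    rw [Nat.cast_pow, Pool.Agent.W97.TW.natCast_pow_cpow]
  have hX2 : (p : ℂ) ^ (1 - 2 * s) = p * X ^ 2 := by
    rw [Complex.cpow_sub _ _ hp0, Complex.cpow_one, hX, div_eq_mul_inv, ← Complex.cpow_neg,
      ← Complex.cpow_nat_mul]
    congr 2
    push_cast; ring
  have hsp : Summable (fun e : ℕ => f (p ^ e) * ((p ^ e : ℕ) : ℂ) ^ (-s)) :=
    (Summable.of_norm (summable_coef hf hs)).comp_injective (Nat.pow_right_injective hp1)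
  simp only [hpow] at hsp ⊢
  set S : ℂ := ∑' e : ℕ, f (p ^ e) * X ^ e with hS
  have hs1 : S = 1 + ∑' e : ℕ, f (p ^ (e + 1)) * X ^ (e + 1) := by
    rw [hS, hsp.tsum_eq_zero_add]
    simp [hf.one]
  have hsp1 : Summable (fun e : ℕ => f (p ^ (e + 1)) * X ^ (e + 1)) :=
    (summable_nat_add_iff (f := fun e : ℕ => f (p ^ e) * X ^ e) 1).mpr hsp
  have hs2 : S = 1 + f p * X + ∑' e : ℕ, f (p ^ (e + 2)) * X ^ (e + 2) := by
    rw [hs1, hsp1.tsum_eq_zero_add]
    simp only [zero_add, pow_one]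
    ring_nf
  set ε : ℂ := if p ∣ N then 0 else (p : ℂ) with hε
  have hs3 : ∑' e : ℕ, f (p ^ (e + 2)) * X ^ (e + 2) =
      f p * X * ∑' e : ℕ, f (p ^ (e + 1)) * X ^ (e + 1) - ε * X ^ 2 * S := by
    rw [hS, ← tsum_mul_left, ← tsum_mul_left, ← (hsp1.mul_left _).tsum_sub (hsp.mul_left _)]
    refine tsum_congr fun e => ?_
    rw [hf.pow p e hp, hε]
    split_ifs <;> ring
  have hs4 : ∑' e : ℕ, f (p ^ (e + 1)) * X ^ (e + 1) = S - 1 := by rw [hs1]; ring
  have hfac : fac N f p s = 1 - f p * X + ε * X ^ 2 := by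
    unfold fac
    rw [hX2, hε, ← hX]
    split_ifs <;> ring
  rw [hs3, hs4] at hs2
  rw [hfac]
  linear_combination hs2

theorem euler (hf : AF a b N f) {s : ℂ} (hs : (3 : ℝ) / 2 < s.re) :
    HasProd (fun p : Nat.Primes => (fac N f p s)⁻¹) (∑' n : ℕ, f n * (n : ℂ) ^ (-s)) := by
  have hprod := EulerProduct.eulerProduct_hasProd (f := fun n : ℕ => f n * (n : ℂ) ^ (-s))
    (by simp [hf.one]) (fun {m n} hmn => by
      rw [hf.mul m n hmn, Nat.cast_mul, Complex.natCast_mul_natCast_cpow]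
      ring) (summable_coef hf hs) (by simp [coef_zero hf])
  refine hprod.congr_fun fun p => ?_
  exact (eq_inv_of_mul_eq_one_left (local_sum hf hs p.2)).symm

theorem fac_ne_zero (hf : AF a b N f) {s : ℂ} (hs : (3 : ℝ) / 2 < s.re) {p : ℕ}
    (hp : p.Prime) : fac N f p s ≠ 0 :=
  right_ne_zero_of_mul_eq_one (local_sum hf hs hp)

end

/-- T13b: existence of the `L`-function as an entire function -/
theorem T13b (a b : ℤ) (hab : 4 * a ^ 3 + 27 * b ^ 2 ≠ 0) (N : ℕ)
    (f : ℕ → ℂ) (hf : AF a b N f) :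
    ∃ F : ℂ → ℂ, IsLFun a b F := by
  obtain ⟨L, hL, hL2⟩ := hf.ent
  have hD : (2 * (4 * a ^ 3 + 27 * b ^ 2)).natAbs ≠ 0 := by
    rw [Int.natAbs_ne_zero]
    exact mul_ne_zero two_ne_zero hab
  set B : Finset ℕ := (2 * (4 * a ^ 3 + 27 * b ^ 2)).natAbs.primeFactors with hB
  have hBmem : ∀ p : ℕ, p ∈ B ↔ p.Prime ∧ (p : ℤ) ∣ 2 * (4 * a ^ 3 + 27 * b ^ 2) := by
    intro p
    rw [hB, Nat.mem_primeFactors, Int.natCast_dvd]
    tauto
  have hdvd : ∀ p : ℕ, (p : ℤ) ∣ 2 * (-4 * a ^ 3 - 27 * b ^ 2) ↔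
      (p : ℤ) ∣ 2 * (4 * a ^ 3 + 27 * b ^ 2) := by
    intro p
    rw [show 2 * (-4 * a ^ 3 - 27 * b ^ 2) = -(2 * (4 * a ^ 3 + 27 * b ^ 2)) by ring, dvd_neg]
  refine ⟨fun s => L s * ∏ p ∈ B, fac N f p s, ?_, ?_⟩
  · refine hL.mul ?_
    intro s
    exact DifferentiableAt.fun_finsetProd fun p hp => fac_diff p ((hBmem p).1 hp).1 s
  · intro s hs
    have h1 := euler hf hs
    rw [← hL2 s hs] at h1
    have h2 : HasProd (fun p : Nat.Primes => (fun p : ℕ => (fac N f p s)⁻¹) (p : ℕ)) (L s) := h1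
    have h3 : HasProd ({p : ℕ | p.Prime}.mulIndicator (fun p : ℕ => (fac N f p s)⁻¹)) (L s) :=
      (hasProd_subtype_iff_mulIndicator (s := {p : ℕ | p.Prime})
        (f := fun p : ℕ => (fac N f p s)⁻¹)).1 h2
    have h4 : HasProd (fun p : ℕ => if p ∈ B then fac N f p s else 1) (∏ p ∈ B, fac N f p s) := by
      have h5 : HasProd (fun p : ℕ => if p ∈ B then fac N f p s else 1)
          (∏ p ∈ B, if p ∈ B then fac N f p s else 1) :=
        hasProd_prod_of_ne_finset_one (fun p hp => by simp [hp])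
      have h5' : ∏ p ∈ B, fac N f p s = ∏ p ∈ B, if p ∈ B then fac N f p s else 1 :=
        Finset.prod_congr rfl fun p hp => by simp [hp]
      rw [h5']
      exact h5
    have h6 := h3.mul h4
    refine h6.congr_fun fun p => ?_
    by_cases hp : p.Prime
    · by_cases hpB : p ∈ B
      · have : ¬ (p.Prime ∧ ¬ ((p : ℤ) ∣ 2 * (-4 * a ^ 3 - 27 * b ^ 2))) := by
          rw [hdvd]
          have := ((hBmem p).1 hpB).2
          tauto
        rw [if_neg this]
        simp only [Set.mulIndicator, Set.mem_ofPred_eq, hp, if_true, hpB]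
        exact (inv_mul_cancel₀ (fac_ne_zero hf hs hp)).symm
      · have hnd : ¬ ((p : ℤ) ∣ 2 * (4 * a ^ 3 + 27 * b ^ 2)) := by
          intro h
          exact hpB ((hBmem p).2 ⟨hp, h⟩)
        have : (p.Prime ∧ ¬ ((p : ℤ) ∣ 2 * (-4 * a ^ 3 - 27 * b ^ 2))) := by
          rw [hdvd]
          exact ⟨hp, hnd⟩
        rw [if_pos this]
        simp only [Set.mulIndicator, Set.mem_ofPred_eq, hp, if_true, hpB, if_false, mul_one]
        obtain ⟨h7, h8⟩ := hf.points p hp hnd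
        unfold fac
        rw [if_neg h7, h8]
        simp only [ap]
        push_cast
        rfl
    · have hpB : p ∉ B := fun h => hp ((hBmem p).1 h).1
      simp [Set.mulIndicator, hp, hpB]

end Pool.Agent.Y692.QN
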