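import Pool.Agent.Y692.QN.Coef

/-!
Project QT, tasks N3, N4: the primes dividing the discriminant divide the conductor.
-/

set_option autoImplicit false

open Complex

namespace Pool.Agent.Y692.QN

open Pool.Agent.W192.HK Pool.Agent.TH936.AC
open Pool.Agent.Y690 (cop_iff cop_congr cop_mono lift_cop ne_zero_of_cop sp_ne)

variable {R : Subring ℂ} {ω : ℂ}

/-- the equation of `ω` -/
theorem om_eq (hQ : QP R ω) {D0 : ℕ} (hD : 4 * ω.im ^ 2 = (D0 : ℝ)) :
    ∃ n t : ℤ, (D0 : ℤ) = -4 * n - t ^ 2 ∧ (starRingEnd ℂ) ω = t - ω ∧ ω * ω = n + t * ω := by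
  have hω : ω ∈ R := (hQ.qr.mem ω).2 ⟨0, 1, by push_cast; ring⟩
  obtain ⟨n, t, hnt⟩ := (hQ.qr.mem (ω ^ 2)).1 (R.pow_mem hω 2)
  have him := congrArg Complex.im hnt
  have hre := congrArg Complex.re hnt
  simp [pow_two] at him hre
  have hi := hQ.qr.im
  have ht : (t : ℝ) = 2 * ω.re := by
    have h1 : ω.im * (2 * ω.re - t) = 0 := by linarith
    rcases mul_eq_zero.1 h1 with h | h
    · exact absurd h hi.ne'
    · linarith
  have hn : (n : ℝ) = -(Complex.normSq ω) := by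
    rw [Complex.normSq_apply]
    rw [ht] at hre
    nlinarith
  refine ⟨n, t, ?_, ?_, ?_⟩
  · have : ((D0 : ℤ) : ℝ) = ((-4 * n - t ^ 2 : ℤ) : ℝ) := by
      push_cast
      rw [← hD, hn, ht, Complex.normSq_apply]
      ring
    exact_mod_cast this
  · apply Complex.ext
    · have : ((t : ℂ) - ω).re = t - ω.re := by simp
      rw [this, ht, Complex.conj_re]
      ring
    · simp
  · rw [← hnt]
    ring

/-- an element showing that `p` is ramified -/
theorem ram_elt (hQ : QP R ω) {D0 : ℕ} (hD : 4 * ω.im ^ 2 = (D0 : ℝ)) {p : ℕ} (hp : p.Prime)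
    (hpD : p ∣ D0) : ∃ α α' : R, (α' : ℂ) = (starRingEnd ℂ) (α : ℂ) ∧ α + α' ∈ sp (p : R) ∧
      α * α' ∈ sp (p : R) ∧ α ∉ sp (p : R) := by
  obtain ⟨n, t, h1, h2, h3⟩ := om_eq hQ hD
  have hpD' : (p : ℤ) ∣ -4 * n - t ^ 2 := by
    rw [← h1]
    exact_mod_cast hpD
  have hpp : Prime (p : ℤ) := Nat.prime_iff_prime_int.1 hp
  obtain ⟨x, hx1, hx2⟩ : ∃ x : ℤ, (p : ℤ) ∣ 2 * x + t ∧ (p : ℤ) ∣ x ^ 2 + t * x - n := by
    rcases hp.eq_two_or_odd' with h | h
    · subst h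
      have ht : (2 : ℤ) ∣ t := by
        have h4 : (2 : ℤ) ∣ t ^ 2 := by
          have : t ^ 2 = -4 * n - (-4 * n - t ^ 2) := by ring
          rw [this]
          push_cast at hpD'
          exact dvd_sub ⟨-2 * n, by ring⟩ hpD'
        exact Int.prime_two.dvd_of_dvd_pow h4
      obtain ⟨s, hs⟩ := ht
      refine ⟨n, ?_, ?_⟩
      · rw [hs]
        push_cast
        exact ⟨n + s, by ring⟩
      · push_cast
        have h5 : n ^ 2 + t * n - n = n * (n - 1) + 2 * (s * n) := by rw [hs]; ring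
        rw [h5]
        refine dvd_add ?_ ⟨s * n, rfl⟩
        rcases Int.emod_two_eq_zero_or_one n with h | h
        · exact Dvd.dvd.mul_right (Int.dvd_of_emod_eq_zero h) _
        · exact Dvd.dvd.mul_left (by omega) _
    · obtain ⟨k, hk⟩ := h
      refine ⟨k * t, ?_, ?_⟩
      · refine ⟨t, ?_⟩
        rw [hk]
        push_cast
        ring
      · have h4 : (p : ℤ) ∣ 4 * ((k * t) ^ 2 + t * (k * t) - n) := by
          have : 4 * (((k : ℤ) * t) ^ 2 + t * (k * t) - n) =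
              (p * t) ^ 2 + (-4 * n - t ^ 2) := by
            rw [hk]; push_cast; ring
          rw [this]
          exact dvd_add (Dvd.dvd.pow ⟨t, rfl⟩ two_ne_zero) hpD'
        rcases hpp.dvd_or_dvd h4 with h5 | h5
        · exfalso
          have h6 : p ∣ 4 := by exact_mod_cast h5
          have h7 : p ∣ 2 := by
            have : (4 : ℕ) = 2 ^ 2 := by norm_num
            rw [this] at h6
            exact hp.dvd_of_dvd_pow h6
          have := (Nat.prime_dvd_prime_iff_eq hp Nat.prime_two).1 h7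
          omega
        · exact h5
  have hmem : ∀ k : ℤ, (p : ℤ) ∣ k → (k : R) ∈ sp (p : R) := by
    rintro k ⟨j, rfl⟩
    push_cast
    exact Ideal.mul_mem_right _ _ (Ideal.mem_span_singleton_self _)
  refine ⟨⟨(x : ℂ) + (1 : ℤ) * ω, (hQ.qr.mem _).2 ⟨x, 1, rfl⟩⟩,
    ⟨((x + t : ℤ) : ℂ) + (-1 : ℤ) * ω, (hQ.qr.mem _).2 ⟨x + t, -1, rfl⟩⟩, ?_, ?_, ?_, ?_⟩
  · show ((x + t : ℤ) : ℂ) + (-1 : ℤ) * ω = (starRingEnd ℂ) ((x : ℂ) + (1 : ℤ) * ω)
    rw [map_add, map_mul, h2]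
    simp
    ring
  · have h5 := hmem _ hx1
    have h6 : (⟨(x : ℂ) + (1 : ℤ) * ω, (hQ.qr.mem _).2 ⟨x, 1, rfl⟩⟩ : R) +
        ⟨((x + t : ℤ) : ℂ) + (-1 : ℤ) * ω, (hQ.qr.mem _).2 ⟨x + t, -1, rfl⟩⟩ =
        ((2 * x + t : ℤ) : R) := by
      apply Subtype.ext
      show ((x : ℂ) + (1 : ℤ) * ω) + (((x + t : ℤ) : ℂ) + (-1 : ℤ) * ω) = ((((2 * x + t : ℤ) : R)) : ℂ)
      rw [Subring.coe_intCast]
      push_cast
      ring
    rw [h6]
    exact h5
  · have h5 := hmem _ hx2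
    have h6 : (⟨(x : ℂ) + (1 : ℤ) * ω, (hQ.qr.mem _).2 ⟨x, 1, rfl⟩⟩ : R) *
        ⟨((x + t : ℤ) : ℂ) + (-1 : ℤ) * ω, (hQ.qr.mem _).2 ⟨x + t, -1, rfl⟩⟩ =
        ((x ^ 2 + t * x - n : ℤ) : R) := by
      apply Subtype.ext
      show ((x : ℂ) + (1 : ℤ) * ω) * (((x + t : ℤ) : ℂ) + (-1 : ℤ) * ω) =
        ((((x ^ 2 + t * x - n : ℤ) : R)) : ℂ)
      rw [Subring.coe_intCast]
      push_cast
      linear_combination -h3
    rw [h6]
    exact h5
  · intro h
    obtain ⟨r, hr⟩ := Ideal.mem_span_singleton.1 h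
    obtain ⟨u, v, huv⟩ := (hQ.qr.mem (r : ℂ)).1 r.2
    have e := congrArg (fun z : R => (z : ℂ)) hr
    push_cast at e
    rw [huv] at e
    have him := congrArg Complex.im e
    simp at him
    have h4 : ω.im * (1 - p * v) = 0 := by linarith
    rcases mul_eq_zero.1 h4 with h5 | h5
    · exact hQ.qr.im.ne' h5
    · have h6 : (p : ℤ) * v = 1 := by
        have : (p : ℝ) * v = 1 := by linarith
        exact_mod_cast this
      exact hpp.not_isUnit (isUnit_of_dvd_one ⟨v, h6.symm⟩)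

theorem ram_not_cop (hQ : QP R ω) {D0 : ℕ} (hD : 4 * ω.im ^ 2 = (D0 : ℝ)) {f : Ideal R}
    (hram : Ram f) {p : ℕ} (hp : p.Prime) (hpD : p ∣ D0) : ¬ IsCoprime (sp (p : R)) f := by
  intro hcop
  obtain ⟨k1, k2, k3, k4, k5, k6, k7, k8, k9, k10, k11, k12, k13, k14⟩ := F_bar R ω hQ
  have hded := hQ.qr.ded
  obtain ⟨α, α', h1, h2, h3, h4⟩ := ram_elt hQ hD hp hpD
  have hp0 : sp (p : R) ≠ ⊥ := sp_ne_bot hp.pos
  have hpt : sp (p : R) ≠ ⊤ := by
    intro h
    apply h4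
    rw [h]
    trivial
  obtain ⟨P, hPm, hP⟩ := Ideal.exists_le_maximal _ hpt
  have hPp : P.IsPrime := hPm.isPrime
  have hPd : P ∣ sp (p : R) := Ideal.dvd_iff_le.2 hP
  have hPb : P ≠ ⊥ := by
    rintro rfl
    exact hp0 (le_bot_iff.1 hP)
  have hPcop : IsCoprime P f := by
    obtain ⟨J, hJ⟩ := hPd
    rw [hJ] at hcop
    exact hcop.of_mul_left_left
  have hαP : α ∈ P ∧ α' ∈ P := by
    rcases hPp.mem_or_mem (hP h3) with h | h
    · refine ⟨h, ?_⟩
      have : α' = (α + α') - α := by ring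
      rw [this]
      exact P.sub_mem (hP h2) h
    · refine ⟨?_, h⟩
      have : α = (α + α') - α' := by ring
      rw [this]
      exact P.sub_mem (hP h2) h
  have hαb : α ∈ bar P := (k2 P α α' h1).2 hαP.2
  have hbar : bar P = P := by
    by_contra hne
    have hbP : (bar P).IsPrime := k12 P hPp
    have hbPb : bar P ≠ ⊥ := by
      intro h
      apply hPb
      rw [← k3 P, h, k10]
    have hbd : bar P ∣ sp (p : R) := by
      rw [← k7 p, k13]
      exact hPd
    have hbmax : (bar P).IsMaximal := hbP.isMaximal hbPb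
    have hcop2 : IsCoprime P (bar P) := Ideal.isCoprime_of_isMaximal (Ne.symm hne)
    have hmul : P * bar P ∣ sp (p : R) := hcop2.mul_dvd hPd hbd
    have hcd : P * bar P = sp ((cd P : ℕ) : R) := k9 P hPb
    have h5 : ((p : ℤ) : R) ∈ sp ((cd P : ℕ) : R) := by
      rw [← hcd]
      have := Ideal.le_of_dvd hmul
      apply this
      push_cast
      exact Ideal.mem_span_singleton_self _
    have h6 := int_mem hQ (cd_pos hQ hPb) h5
    have h7 : cd P ∣ p := by exact_mod_cast h6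
    have h8 : cd P = p := by
      rcases (Nat.dvd_prime hp).1 h7 with h | h
      · exact absurd ((cd_eq_one hQ).1 h) hPp.ne_top
      · exact h
    rw [h8] at hcd
    apply h4
    rw [← hcd, Ideal.mul_eq_inf_of_isCoprime hcop2]
    exact ⟨hαP.1, hαb⟩
  rcases hram P hPp hPb hbar with ⟨q, hq, hPq⟩ | h
  · have h5 : ((p : ℤ) : R) ∈ sp (q : R) := by
      rw [← hPq]
      push_cast
      exact hP (Ideal.mem_span_singleton_self _)
    have h6 := int_mem hQ hq.pos h5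
    have h7 : q ∣ p := by exact_mod_cast h6
    have h8 : q = p := (Nat.prime_dvd_prime_iff_eq hq hp).1 h7
    rw [h8] at hPq
    rw [← hPq] at h4
    exact h4 hαP.1
  · exact h hPcop

end Pool.Agent.Y692.QN
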