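import Pool.Agent.Y692.QN.Abs
import Pool.Agent.Y692.QN.Lf
import Pool.Agent.Y692.QN.Ram
import Pool.Agent.TH936.HK.AFE
import Pool.Agent.Y153.QTN1

/-!
Project QT, tasks N3, N4: the coefficients of a symmetric Hecke character satisfy the axioms `AF`.
-/

set_option autoImplicit false

open Complex

namespace Pool.Agent.Y692.QN

open Pool.Agent.W192.HK Pool.Agent.TH936.AC
open Pool.Agent.Y690 (cop_iff cop_congr cop_mono lift_cop ne_zero_of_cop sp_ne)
open Pool.Agent.Y19.QT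
open Pool.Agent.H306R2.RZ (js)

variable {R : Subring ℂ} {ω : ℂ}

theorem F_afe : H_AFE := Pool.Agent.TH936.HK.h_afe F_basic F_fp F_cnt F_gauss F_theta

/-- the data of an elliptic curve with complex multiplication by `R` -/
structure GD (R : Subring ℂ) (ω : ℂ) (D0 : ℕ) (f : Ideal R) (ψ : Ideal R → ℂ) : Prop where
  qp : QP R ω
  disc : 4 * ω.im ^ 2 = (D0 : ℝ)
  hc : HC 1 f ψ
  cs : CS ψ
  inert : ∀ p : ℕ, p.Prime → IsCoprime (sp (p : R)) f → (sp (p : R)).IsPrime →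
    ψ (sp (p : R)) = -(p : ℂ)

section

variable {D0 : ℕ} {f : Ideal R} {ψ : Ideal R → ℂ}

theorem GD.ram (h : GD R ω D0 f ψ) : Ram f := F_ram R ω h.qp f ψ h.hc h.cs

theorem GD.top (h : GD R ω D0 f ψ) : ψ ⊤ = 1 := Pool.Agent.Y690.hc_top h.hc

theorem GD.ft (h : GD R ω D0 f ψ) : f ≠ ⊤ := HC.ne_top (m := 1) le_rfl h.hc

theorem GD.D0pos (h : GD R ω D0 f ψ) : 0 < D0 := by
  have h1 := h.disc
  have h2 := h.qp.qr.im
  have : (0 : ℝ) < D0 := by rw [← h1]; positivity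
  exact_mod_cast this

theorem GD.Npos (h : GD R ω D0 f ψ) : 0 < D0 * cd f := Nat.mul_pos h.D0pos (cd_pos h.qp h.hc.ne)

theorem GD.good (h : GD R ω D0 f ψ) {p : ℕ} (hp : p.Prime) :
    IsCoprime (sp (p : R)) f ↔ ¬ p ∣ D0 * cd f := by
  constructor
  · intro hc hd
    rcases (Nat.Prime.dvd_mul hp).1 hd with h1 | h1
    · exact ram_not_cop h.qp h.disc h.ram hp h1 hc
    · have h2 := (cop_nat h.qp h.hc.ne hp.pos).1 hc.symm
      exact (Nat.Prime.coprime_iff_not_dvd hp).1 h2.symm h1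
  · intro hn
    refine ((cop_nat h.qp h.hc.ne hp.pos).2 ?_).symm
    exact ((Nat.Prime.coprime_iff_not_dvd hp).2 (fun h1 => hn (Dvd.dvd.mul_left h1 _))).symm

theorem GD.norm (h : GD R ω D0 f ψ) {I : Ideal R} (h0 : ψ I ≠ 0) : ‖ψ I‖ ^ 2 = cd I := by
  have h1 : ¬ (I = ⊥ ∨ ¬ IsCoprime I f) := fun h' => h0 ((h.hc.zero I).2 h')
  push Not at h1
  have := (F_fp R ω h.qp.qr 1 f ψ h.hc h.ft).1 I h1.1 h1.2
  rw [this, pow_one]
  rfl

theorem GD.bad (h : GD R ω D0 f ψ) {p : ℕ} (hp : p.Prime) (hd : p ∣ D0 * cd f) (k : ℕ) :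
    cf ψ (p ^ (k + 1)) = 0 := by
  have hQ := h.qp
  obtain ⟨k1, k2, k3, k4, k5, k6, k7, k8, k9, k10, k11, k12, k13, k14⟩ := F_bar R ω hQ
  unfold cf
  refine Finset.sum_eq_zero fun I hI => ?_
  obtain ⟨h1, h2⟩ := (mem_SN hQ).1 hI
  by_contra h3
  have h3' : ψ (bar I) ≠ 0 := by
    rw [h.cs I]
    exact (map_ne_zero _).2 h3
  have c1 : IsCoprime I f := by
    by_contra hc
    exact h3 ((h.hc.zero I).2 (Or.inr hc))
  have c2 : IsCoprime (bar I) f := by
    by_contra hc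
    exact h3' ((h.hc.zero (bar I)).2 (Or.inr hc))
  have c3 : IsCoprime (I * bar I) f := IsCoprime.mul_left c1 c2
  have e1 : I * bar I = sp ((cd I : ℕ) : R) := k9 I h1
  rw [e1, h2] at c3
  push_cast at c3
  rw [Pool.Agent.Y690.sp_pow] at c3
  have c4 : IsCoprime (sp (p : R)) f := by
    rw [pow_succ'] at c3
    exact c3.of_mul_left_left
  exact ((h.good hp).1 c4) hd

/-- the recursion at good primes -/
theorem GD.pow_good (h : GD R ω D0 f ψ) {p : ℕ} (hp : p.Prime) (hd : ¬ p ∣ D0 * cd f) (k : ℕ) :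
    cf ψ (p ^ (k + 2)) = cf ψ p * cf ψ (p ^ (k + 1)) - (p : ℂ) * cf ψ (p ^ k) := by
  have hQ := h.qp
  obtain ⟨k1, k2, k3, k4, k5, k6, k7, k8, k9, k10, k11, k12, k13, k14⟩ := F_bar R ω hQ
  have hcop := (h.good hp).2 hd
  by_cases hin : (sp (p : R)).IsPrime
  · obtain ⟨e1, e2⟩ := cf_inert hQ h.hc.mul hp hin
    rw [e2 k, e1, h.inert p hp hcop hin]
    ring
  · have hram : ∀ P : Ideal R, P.IsPrime → P ≠ ⊥ → P ∣ sp (p : R) → bar P = P → P = sp (p : R) := by
      intro P h1 h2 h3 h4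
      have hPc : IsCoprime P f := by
        obtain ⟨J, hJ⟩ := h3
        rw [hJ] at hcop
        exact hcop.of_mul_left_left
      rcases h.ram P h1 h2 h4 with ⟨q, hq, hPq⟩ | h5
      · have h6 : ((p : ℤ) : R) ∈ sp (q : R) := by
          rw [← hPq]
          push_cast
          exact Ideal.le_of_dvd h3 (Ideal.mem_span_singleton_self _)
        have h7 := int_mem hQ hq.pos h6
        have h8 : q ∣ p := by exact_mod_cast h7
        rw [hPq, (Nat.prime_dvd_prime_iff_eq hq hp).1 h8]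
      · exact absurd hPc h5
    obtain ⟨P, hPp, hPb, hPP, hc2, hcd⟩ := split_ex hQ hp hram hin
    have hb0 : bar P ≠ ⊥ := by
      intro h'
      apply hPb
      rw [← k3 P, h', k10]
    have hne : P ≠ bar P := by
      intro h'
      rw [← h'] at hc2
      rw [Ideal.isCoprime_iff_sup_eq, sup_idem] at hc2
      exact hPp.ne_top hc2
    have hcd' : cd (bar P) = p := by
      have := k8 P
      rw [nm_eq, nm_eq, hcd] at this
      exact_mod_cast this
    have h1 := (cf_split hQ h.hc.mul h.top hp hPp hPb (k12 P hPp) hb0 hPP hne hcd hcd').2 k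
    have h2 : ψ (sp (p : R)) = (p : ℂ) := by
      rw [← hPP, h.hc.mul, h.cs P, Complex.mul_conj, Complex.normSq_eq_norm_sq, h.norm, hcd]
      · push_cast; rfl
      · intro h3
        have h4 : ψ (sp (p : R)) = 0 := by rw [← hPP, h.hc.mul, h3, zero_mul]
        rcases (h.hc.zero _).1 h4 with h5 | h5
        · exact sp_ne_bot hp.pos h5
        · exact h5 hcop
    rw [h1, h2]

theorem GD.pow (h : GD R ω D0 f ψ) (p j : ℕ) (hp : p.Prime) :
    cf ψ (p ^ (j + 2)) = cf ψ p * cf ψ (p ^ (j + 1)) -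
      (if p ∣ D0 * cd f then 0 else (p : ℂ) * cf ψ (p ^ j)) := by
  split_ifs with hd
  · rw [h.bad hp hd (j + 1), h.bad hp hd j]
    ring
  · exact h.pow_good hp hd j

/-- the value at a good prime -/
theorem GD.val (h : GD R ω D0 f ψ) {p : ℕ} (hp : p.Prime) (hd : ¬ p ∣ D0 * cd f) {α : R}
    (hα : cd (sp α) = p) : cf ψ p = ψ (sp α) + (starRingEnd ℂ) (ψ (sp α)) := by
  have hQ := h.qp
  obtain ⟨k1, k2, k3, k4, k5, k6, k7, k8, k9, k10, k11, k12, k13, k14⟩ := F_bar R ω hQ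
  have hded := hQ.qr.ded
  have hcop := (h.good hp).2 hd
  set P : Ideal R := sp α with hP
  have hP0 : P ≠ ⊥ := by
    intro h'
    rw [h', cd_bot hQ] at hα
    exact hp.ne_zero hα.symm
  have hPt : P ≠ ⊤ := by
    intro h'
    rw [h', cd_top] at hα
    exact hp.one_lt.ne hα
  have hPP : P * bar P = sp (p : R) := by
    have : P * bar P = sp ((cd P : ℕ) : R) := k9 P hP0
    rw [this, hα]
  have hPp : P.IsPrime := by
    obtain ⟨Q, hQm, hQP⟩ := Ideal.exists_le_maximal P hPt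
    have h1 : cd Q ∣ p := by
      obtain ⟨J, hJ⟩ := Ideal.dvd_iff_le.2 hQP
      rw [← hα, hJ, cd_mul hQ]
      exact dvd_mul_right _ _
    have h2 : cd Q = p := by
      rcases (Nat.dvd_prime hp).1 h1 with h' | h'
      · exact absurd ((cd_eq_one hQ).1 h') hQm.ne_top
      · exact h'
    obtain ⟨J, hJ⟩ := Ideal.dvd_iff_le.2 hQP
    have h3 := cd_mul hQ Q J
    rw [← hJ, hα, h2] at h3
    have h4 : cd J = 1 := by
      have := hp.pos
      nlinarith
    rw [(cd_eq_one hQ).1 h4, Ideal.mul_top] at hJ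
    rw [hJ]
    exact hQm.isPrime
  have hb0 : bar P ≠ ⊥ := by
    intro h'
    apply hP0
    rw [← k3 P, h', k10]
  have hcd' : cd (bar P) = p := by
    have := k8 P
    rw [nm_eq, nm_eq, hα] at this
    exact_mod_cast this
  have hne : P ≠ bar P := by
    intro h'
    have hPc : IsCoprime P f := by
      rw [← hPP] at hcop
      exact hcop.of_mul_left_left
    rcases h.ram P hPp hP0 h'.symm with ⟨q, hq, hPq⟩ | h5
    · have h6 := cd_nat hQ q
      rw [← hPq, hα] at h6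
      rw [h6] at hp
      exact (Nat.Prime.not_prime_pow le_rfl) hp
    · exact h5 hPc
  rw [(cf_split hQ h.hc.mul h.top hp hPp hP0 (k12 P hPp) hb0 hPP hne hα hcd').1, h.cs P]

theorem GD.good_le (h : GD R ω D0 f ψ) {p : ℕ} (hp : p.Prime) (hd : ¬ p ∣ D0 * cd f) :
    ‖cf ψ p‖ ≤ 2 * Real.sqrt p := by
  have hQ := h.qp
  have hpid := hQ.pid
  by_cases he : (SN R p).Nonempty
  · obtain ⟨I, hI⟩ := he
    obtain ⟨h1, h2⟩ := (mem_SN hQ).1 hI
    obtain ⟨α, hα⟩ : ∃ α : R, I = Ideal.span {α} := (hpid.principal I).principal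
    rw [h.val hp hd (α := α) (by rw [← h2, hα])]
    have h3 : ‖ψ (sp α)‖ ≤ Real.sqrt p := by
      by_cases h4 : ψ (sp α) = 0
      · rw [h4, norm_zero]
        exact Real.sqrt_nonneg _
      · apply Real.le_sqrt_of_sq_le
        have h5 : cd (sp α) = p := by rw [← h2, hα]
        rw [h.norm h4, h5]
    calc ‖ψ (sp α) + (starRingEnd ℂ) (ψ (sp α))‖ ≤ ‖ψ (sp α)‖ + ‖(starRingEnd ℂ) (ψ (sp α))‖ :=
          norm_add_le _ _
      _ = ‖ψ (sp α)‖ + ‖ψ (sp α)‖ := by rw [Complex.norm_conj]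
      _ ≤ _ := by linarith
  · rw [Finset.not_nonempty_iff_eq_empty] at he
    rw [cf, he, Finset.sum_empty, norm_zero]
    positivity

/-- the polynomial bound -/
theorem GD.le (h : GD R ω D0 f ψ) : ∃ C : ℝ, 0 < C ∧ ∀ n : ℕ, ‖cf ψ n‖ ≤ C * (n : ℝ) ^ 2 := by
  have hQ := h.qp
  obtain ⟨c1, -, C, hC, c3, -⟩ := F_cnt R ω hQ.qr
  refine ⟨C, hC, fun n => ?_⟩
  rcases Nat.eq_zero_or_pos n with hn | hn
  · subst hn
    rw [cf_zero hQ, norm_zero]
    positivity
  have hn1 : (1 : ℝ) ≤ n := by exact_mod_cast hn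
  have h1 : ‖cf ψ n‖ ≤ ∑ I ∈ SN R n, (n : ℝ) := by
    unfold cf
    refine (norm_sum_le _ _).trans (Finset.sum_le_sum fun I hI => ?_)
    obtain ⟨h1, h2⟩ := (mem_SN hQ).1 hI
    by_cases h4 : ψ I = 0
    · rw [h4, norm_zero]
      positivity
    · have h5 := h.norm h4
      rw [h2] at h5
      have h6 : ‖ψ I‖ ^ 2 ≤ (n : ℝ) ^ 2 := by
        rw [h5]
        nlinarith
      exact (sq_le_sq₀ (norm_nonneg _) (by positivity)).1 h6
  rw [Finset.sum_const, nsmul_eq_mul] at h1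
  have h2 : ((SN R n).card : ℝ) ≤ C * n := by
    refine le_trans ?_ (c3 n hn1)
    have h3 : (SN R n).card ≤ Set.ncard {I : Ideal R | nm I ≤ (n : ℝ)} := by
      rw [← Set.ncard_coe_finset]
      refine Set.ncard_le_ncard ?_ (c1 n)
      intro I hI
      obtain ⟨h1, h2⟩ := (mem_SN hQ).1 (Finset.mem_coe.1 hI)
      show nm I ≤ n
      rw [nm_eq, h2]
    exact_mod_cast h3
  calc ‖cf ψ n‖ ≤ (SN R n).card * n := h1
    _ ≤ (C * n) * n := by gcongr
    _ = C * (n : ℝ) ^ 2 := by ring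

/-- sums over ideals as sums over integers -/
theorem hasSum_cd (hQ : QP R ω) {F : Ideal R → ℂ} {s : ℂ} (hF : HasSum F s) (h0 : F ⊥ = 0) :
    HasSum (fun n : ℕ => ∑ I ∈ SN R n, F I) s := by
  have h1 := hF.tsum_fiberwise (fun I : Ideal R => cd I)
  refine h1.congr_fun ?_
  intro n
  rw [tsum_subtype ((fun I : Ideal R => cd I) ⁻¹' {n}) F]
  rw [tsum_eq_sum (s := SN R n)]
  · refine Finset.sum_congr rfl fun I hI => ?_
    obtain ⟨h1, h2⟩ := (mem_SN hQ).1 hI
    rw [Set.indicator_of_mem]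
    exact h2
  · intro I hI
    by_cases hI2 : I ∈ (fun I : Ideal R => cd I) ⁻¹' {n}
    · have hI3 : cd I = n := hI2
      have : I = ⊥ := by
        by_contra hne
        exact hI ((mem_SN hQ).2 ⟨hne, hI3⟩)
      rw [Set.indicator_of_mem hI2, this, h0]
    · exact Set.indicator_of_notMem hI2 _

/-- the coefficients as real numbers -/
theorem GD.re (h : GD R ω D0 f ψ) (n : ℕ) : cf ψ n = ((cf ψ n).re : ℂ) :=
  (Complex.conj_eq_iff_re.1 (cf_real h.qp h.cs n)).symm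

/-- theta series over ideals as series over integers -/
theorem GD.theta_cd (h : GD R ω D0 f ψ) (m : ℕ) {c : ℝ} (hc : 0 < c) :
    ∑' I : Ideal R, ψ I * chm m I * (Real.exp (-(c * nm I)) : ℂ) =
      ∑' n : ℕ, (((cf ψ n).re * js n m : ℝ) : ℂ) * (Real.exp (-(c * n)) : ℂ) := by
  have hQ := h.qp
  obtain ⟨-, -, b3, -⟩ := F_basic R ω hQ.qr
  have hs : Summable (fun I : Ideal R => ψ I * chm m I * (Real.exp (-(c * nm I)) : ℂ)) := by
    refine Pool.Agent.TH936.HK.summ_exp F_cnt hQ.qr b3 (fun I => ψ I * chm m I) ?_ 1 ?_ c hc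
    · simp only [chm_bot, mul_zero]
    · intro I hI
      have hn := b3 I hI
      have h1 : ‖ψ I‖ ≤ nm I := by
        by_cases h4 : ψ I = 0
        · rw [h4, norm_zero]
          linarith
        · have h5 := h.norm h4
          have h6 : ‖ψ I‖ ^ 2 ≤ (nm I) ^ 2 := by
            rw [h5, ← nm_eq]
            nlinarith
          exact (sq_le_sq₀ (norm_nonneg _) (by linarith)).1 h6
      have h2 : ‖chm m I‖ ≤ 1 := by
        rw [chm_of hI]
        rcases jacobiSym.trichotomy (cd I : ℤ) m with h3 | h3 | h3 <;> rw [h3] <;> simp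
      rw [norm_mul, pow_one]
      calc ‖ψ I‖ * ‖chm m I‖ ≤ nm I * 1 := by
            apply mul_le_mul h1 h2 (norm_nonneg _) (by linarith)
        _ = nm I := mul_one _
  have h1 := hasSum_cd hQ hs.hasSum (by simp only [chm_bot, mul_zero, zero_mul])
  rw [← h1.tsum_eq]
  refine tsum_congr fun n => ?_
  have e1 : ∀ I ∈ SN R n, ψ I * chm m I * (Real.exp (-(c * nm I)) : ℂ) =
      ψ I * (((js n m : ℝ) : ℂ) * (Real.exp (-(c * n)) : ℂ)) := by
    intro I hI
    obtain ⟨h1, h2⟩ := (mem_SN hQ).1 hI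
    rw [chm_of h1, nm_eq, h2]
    unfold js
    push_cast
    ring
  rw [Finset.sum_congr rfl e1, ← Finset.sum_mul]
  have e2 : ∑ I ∈ SN R n, ψ I = ((cf ψ n).re : ℂ) := h.re n
  rw [e2]
  push_cast
  ring

/-- the functional equation of the twists -/
theorem GD.fe (h : GD R ω D0 f ψ) (m : ℕ) (ho : Odd m) (hsq : Squarefree m)
    (hcop : m.Coprime (D0 * cd f)) : ∃ w : ℝ, w ^ 2 = 1 ∧ ∀ z : ℂ, 0 < z.re →
      ∑' n : ℕ, cf ψ n * js n m * cexp (-(2 * Real.pi * n * (1 / z) /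
          (m * Real.sqrt (D0 * cd f : ℕ) : ℝ))) =
        w * z ^ 2 * ∑' n : ℕ, cf ψ n * js n m * cexp (-(2 * Real.pi * n * z /
          (m * Real.sqrt (D0 * cd f : ℕ) : ℝ))) := by
  have hQ := h.qp
  have hm0 : 0 < m := ho.pos
  have hgp : ∀ p : ℕ, p.Prime → p ∣ m → ¬ p ∣ D0 * cd f := by
    intro p hp hpm hd
    exact Nat.Prime.not_coprime_iff_dvd.2 ⟨p, hp, hpm, hd⟩ hcop
  have hχ : HC 0 (sp (m : R)) (chm m) := by
    refine hc_chm hQ h.disc m ho hsq fun p hp hpm => ?_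
    have hd := hgp p hp hpm
    refine ⟨fun h' => hd (Dvd.dvd.mul_right h' _), ?_⟩
    have hcop := (h.good hp).2 hd
    intro P h1 h2 h3 h4
    have hPc : IsCoprime P f := by
      obtain ⟨J, hJ⟩ := h3
      rw [hJ] at hcop
      exact hcop.of_mul_left_left
    rcases h.ram P h1 h2 h4 with ⟨q, hq, hPq⟩ | h5
    · have h6 : ((p : ℤ) : R) ∈ sp (q : R) := by
        rw [← hPq]
        push_cast
        exact Ideal.le_of_dvd h3 (Ideal.mem_span_singleton_self _)
      have h7 := int_mem hQ hq.pos h6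
      have h8 : q ∣ p := by exact_mod_cast h7
      rw [hPq, (Nat.prime_dvd_prime_iff_eq hq hp).1 h8]
    · exact absurd hPc h5
  have hfm : IsCoprime f (sp (m : R)) := by
    rw [cop_nat hQ h.hc.ne hm0]
    exact (Nat.Coprime.coprime_dvd_right (dvd_mul_left _ _) hcop).symm
  have hψ := F_prod R ω hQ.qr 1 f (sp (m : R)) ψ (chm m) h.hc hχ hfm
  set q : Ideal R := f * sp (m : R) with hq
  have hqne : q ≠ ⊥ := hψ.ne
  obtain ⟨_, _, _, hcls⟩ := F_cls R ω hQ.qr
  obtain ⟨s, hh, μ, T, -, hS⟩ := hcls q hqne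
  have hth := F_theta R ω hQ.qr 1 le_rfl q _ hψ s hh μ T hS
  set W := Wc ω 1 q hh μ T (fun I => ψ I * chm m I) with hW
  have hcf0 : 0 < cd f := cd_pos hQ h.hc.ne
  have hi := hQ.qr.im
  have hnm : Real.sqrt (nm q) = Real.sqrt (cd f) * m := by
    rw [nm_eq, hq, cd_mul hQ, cd_nat hQ]
    push_cast
    rw [Real.sqrt_mul (by positivity), Real.sqrt_sq (by positivity)]
  have hsN : Real.sqrt ((D0 * cd f : ℕ) : ℝ) = 2 * ω.im * Real.sqrt (cd f) := by
    push_cast
    rw [← h.disc, Real.sqrt_mul (by positivity)]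
    congr 1
    rw [show 4 * ω.im ^ 2 = (2 * ω.im) ^ 2 by ring]
    exact Real.sqrt_sq (by positivity)
  have hscf : 0 < Real.sqrt (cd f : ℝ) := Real.sqrt_pos.2 (by exact_mod_cast hcf0)
  have hmr : (0 : ℝ) < m := by exact_mod_cast hm0
  set Q : ℝ := m * Real.sqrt ((D0 * cd f : ℕ) : ℝ) with hQdef
  have hQ0 : 0 < Q := by
    rw [hQdef, hsN]
    positivity
  have hc0 : Real.pi / (ω.im * Real.sqrt (nm q)) = 2 * Real.pi / Q := by
    rw [hnm, hQdef, hsN]
    field_simp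
  -- real functional equation
  have hreal : ∀ t : ℝ, 0 < t →
      ∑' n : ℕ, (((cf ψ n).re * js n m : ℝ) : ℂ) *
        cexp (-(2 * Real.pi * n * (1 / (t : ℂ)) / (Q : ℝ))) =
      W * (t : ℂ) ^ 2 * ∑' n : ℕ, (((cf ψ n).re * js n m : ℝ) : ℂ) *
        cexp (-(2 * Real.pi * n * (t : ℂ) / (Q : ℝ))) := by
    intro t ht
    have h1 := hth t ht
    have e1 : ∀ I : Ideal R, (Real.exp (-(Real.pi * nm I / (ω.im * Real.sqrt (nm q))) / t) : ℂ) =
        (Real.exp (-((2 * Real.pi / Q / t) * nm I)) : ℂ) := by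
      intro I
      congr 2
      rw [← hc0]
      ring
    have e2 : ∀ I : Ideal R, (Real.exp (-(Real.pi * nm I / (ω.im * Real.sqrt (nm q))) * t) : ℂ) =
        (Real.exp (-((2 * Real.pi / Q * t) * nm I)) : ℂ) := by
      intro I
      congr 2
      rw [← hc0]
      ring
    simp only [e1, e2] at h1
    have e3 : ∑' I : Ideal R, (starRingEnd ℂ) (ψ I * chm m I) *
        (Real.exp (-((2 * Real.pi / Q * t) * nm I)) : ℂ) =
        ∑' I : Ideal R, ψ I * chm m I * (Real.exp (-((2 * Real.pi / Q * t) * nm I)) : ℂ) := by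
      have h2 := h.theta_cd m (c := 2 * Real.pi / Q * t) (by positivity)
      rw [h2]
      have h3 : ∑' I : Ideal R, (starRingEnd ℂ) (ψ I * chm m I) *
          (Real.exp (-((2 * Real.pi / Q * t) * nm I)) : ℂ) =
          (starRingEnd ℂ) (∑' I : Ideal R, ψ I * chm m I *
            (Real.exp (-((2 * Real.pi / Q * t) * nm I)) : ℂ)) := by
        rw [Complex.conj_tsum]
        refine tsum_congr fun I => ?_
        rw [map_mul _ _ ((Real.exp _ : ℝ) : ℂ), Complex.conj_ofReal]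
      rw [h3, h2, Complex.conj_tsum]
      refine tsum_congr fun n => ?_
      rw [map_mul, Complex.conj_ofReal, Complex.conj_ofReal]
    rw [e3, h.theta_cd m (by positivity), h.theta_cd m (by positivity)] at h1
    have e4 : ∀ n : ℕ, cexp (-(2 * Real.pi * n * (1 / (t : ℂ)) / (Q : ℝ))) =
        (Real.exp (-((2 * Real.pi / Q / t) * n)) : ℂ) := by
      intro n
      push_cast
      congr 1
      ring
    have e5 : ∀ n : ℕ, cexp (-(2 * Real.pi * n * (t : ℂ) / (Q : ℝ))) =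
        (Real.exp (-((2 * Real.pi / Q * t) * n)) : ℂ) := by
      intro n
      push_cast
      congr 1
      ring
    simp only [e4, e5]
    rw [h1]
  obtain ⟨C, hC, hle⟩ := h.le
  have hb : ∀ n : ℕ, |(cf ψ n).re * js n m| ≤ C * (n : ℝ) ^ 2 := by
    intro n
    rw [abs_mul]
    calc |(cf ψ n).re| * |js n m| ≤ ‖cf ψ n‖ * 1 :=
          mul_le_mul (Complex.abs_re_le_norm _) (Pool.Agent.Y705.QT.js_abs_le _ _) (abs_nonneg _)
            (norm_nonneg _)
      _ ≤ C * (n : ℝ) ^ 2 := by rw [mul_one]; exact hle n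
  obtain ⟨w, hw1, hw2⟩ := Pool.Agent.Y153.QTN1.w_sq (c := fun n => (cf ψ n).re * js n m) hb
    (by simp [cf_zero hQ]) (by simp [cf_one hQ h.top, js]) hQ0 W hreal
  refine ⟨w, hw1, fun z hz => ?_⟩
  have h5 := Pool.Agent.Y153.QT.fe_ext (c := fun n => (cf ψ n).re * js n m) hb hQ0 W hreal z hz
  have e6 : ∀ n : ℕ, cf ψ n * js n m = (((cf ψ n).re * js n m : ℝ) : ℂ) := by
    intro n
    rw [Complex.ofReal_mul, ← h.re n]
  simp only [e6]
  rw [hw2]
  exact h5

/-- the entire `L`-function -/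
theorem GD.ent (h : GD R ω D0 f ψ) : ∃ L : ℂ → ℂ, Differentiable ℂ L ∧
    ∀ s : ℂ, (3 : ℝ) / 2 < s.re → L s = ∑' n : ℕ, cf ψ n * (n : ℂ) ^ (-s) := by
  have hQ := h.qp
  obtain ⟨_, _, _, hcls⟩ := F_cls R ω hQ.qr
  obtain ⟨s, hh, μ, T, -, hS⟩ := hcls f h.hc.ne
  obtain ⟨L, hL1, hL2, -⟩ := F_afe R ω hQ.qr 1 le_rfl f ψ h.hc s hh μ T hS
  refine ⟨L, hL1, fun z hz => ?_⟩
  have h1 := hL2 z (by norm_num; linarith)
  have h2 := hasSum_cd hQ h1 (by rw [(h.hc.zero ⊥).2 (Or.inl rfl), zero_mul])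
  rw [← h2.tsum_eq]
  refine tsum_congr fun n => ?_
  rw [cf, Finset.sum_mul]
  refine Finset.sum_congr rfl fun I hI => ?_
  obtain ⟨h3, h4⟩ := (mem_SN hQ).1 hI
  rw [nm_eq, h4]
  push_cast
  rfl

/-- the coefficients satisfy the axioms `AF` -/
theorem GD.af (h : GD R ω D0 f ψ) (a b : ℤ)
    (hpt : ∀ p : ℕ, p.Prime → ¬ (p : ℤ) ∣ 2 * (4 * a ^ 3 + 27 * b ^ 2) →
      ¬ p ∣ D0 * cd f ∧ cf ψ p = (ap a b p : ℂ)) : AF a b (D0 * cd f) (cf ψ) where
  pos := h.Npos
  zero := cf_zero h.qp ψ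
  one := cf_one h.qp h.top
  real n := by rw [h.re n]; simp
  mul m n hmn := cf_mul h.qp h.hc.mul hmn
  pow p j hp := h.pow p j hp
  good p hp hd := h.good_le hp hd
  bad p hp hd := by
    have := h.bad hp hd 0
    rw [zero_add, pow_one] at this
    rw [this, norm_zero]
    exact zero_le_one
  fe m ho hsq hc := h.fe m ho hsq hc
  ent := h.ent
  points := hpt

end

end Pool.Agent.Y692.QN
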