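import Pool.Agent.Y690.Chars
import Pool.Agent.TH936.AC.Bar
import Pool.Agent.W287.HK.Basic

/-!
Project QT, tasks N3, N4: the primitive Hecke character attached to a character modulo `m` of the ring
of integers of an imaginary quadratic field of class number one.
-/

set_option autoImplicit false

open Complex

namespace Pool.Agent.Y692.QN

open Pool.Agent.W192.HK Pool.Agent.TH936.AC
open Pool.Agent.Y690 (cop_iff cop_congr cop_mono lift_cop ne_zero_of_cop)

variable {R : Subring ℂ} {ω : ℂ}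

/-- `θ` is a character modulo the natural number `m`, symmetric under complex conjugation, such that
`θ(u) u = 1` for units `u` -/
structure Imp (R : Subring ℂ) (m : ℕ) (θ : R → ℂ) : Prop where
  pos : 0 < m
  mul : ∀ α β : R, θ (α * β) = θ α * θ β
  per : ∀ α β : R, α - β ∈ sp (m : R) → θ α = θ β
  zero : ∀ α : R, θ α = 0 ↔ ¬ IsCoprime (sp α) (sp (m : R))
  unit : ∀ u : R, IsUnit u → θ u * (u : ℂ) = 1
  bar : ∀ α β : R, (β : ℂ) = (starRingEnd ℂ) (α : ℂ) → θ β = (starRingEnd ℂ) (θ α)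

/-- `f` is a modulus of `θ` -/
def Md (m : ℕ) (θ : R → ℂ) (f : Ideal R) : Prop :=
  sp (m : R) ≤ f ∧ ∀ α : R, IsCoprime (sp α) (sp (m : R)) → α - 1 ∈ f → θ α = 1

theorem cop_unit {u : R} (hu : IsUnit u) (c : Ideal R) : IsCoprime (sp u) c := by
  rw [Ideal.isCoprime_iff_sup_eq, sp, Ideal.span_singleton_eq_top.2 hu]
  exact top_sup_eq _

theorem cop_mul {α β : R} {c : Ideal R} (h1 : IsCoprime (sp α) c) (h2 : IsCoprime (sp β) c) :
    IsCoprime (sp (α * β)) c := by
  rw [Pool.Agent.Y690.sp_mul]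
  exact IsCoprime.mul_left h1 h2

theorem cop_le {I c d : Ideal R} (h : c ≤ d) (hI : IsCoprime I c) : IsCoprime I d := by
  rw [Ideal.isCoprime_iff_sup_eq] at hI ⊢
  exact eq_top_iff.2 (hI ▸ sup_le_sup_left h I)

theorem Md.per {m : ℕ} {θ : R → ℂ} (hθ : Imp R m θ) {f : Ideal R} (h : Md m θ f) {α β : R}
    (hα : IsCoprime (sp α) (sp (m : R))) (hβ : IsCoprime (sp β) (sp (m : R))) (hd : α - β ∈ f) :
    θ α = θ β := by
  obtain ⟨x, hx⟩ := cop_iff.1 hβ
  have hx' : IsCoprime (sp x) (sp (m : R)) := by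
    rw [cop_iff]
    exact ⟨β, by rwa [mul_comm]⟩
  have e1 : θ (β * x) = 1 := by
    rw [hθ.per (β * x) 1 hx]
    have := hθ.unit 1 isUnit_one
    simpa using this
  have e2 : θ (α * x) = 1 := by
    refine h.2 _ (cop_mul hα hx') ?_
    have : α * x - 1 = (α - β) * x + (β * x - 1) := by ring
    rw [this]
    exact f.add_mem (f.mul_mem_right _ hd) (h.1 hx)
  rw [hθ.mul] at e1 e2
  have hx0 : θ x ≠ 0 := fun h0 => by rw [h0, mul_zero] at e1; exact zero_ne_one e1
  exact mul_right_cancel₀ hx0 (e2.trans e1.symm)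

theorem sp_ne_bot {m : ℕ} (hm : 0 < m) : sp (m : R) ≠ ⊥ := by
  rw [Ne, Ideal.span_singleton_eq_bot]
  exact_mod_cast hm.ne'

/-- the moduli are closed under sums -/
theorem Md.sup (hQ : QP R ω) {m : ℕ} {θ : R → ℂ} (hθ : Imp R m θ) {f g : Ideal R} (hf : Md m θ f)
    (hg : Md m θ g) : Md m θ (f ⊔ g) := by
  have hb := Pool.Agent.W287.HK.h_basic
  have := hQ.qr.ded
  refine ⟨hf.1.trans le_sup_left, fun α hα h1 => ?_⟩
  obtain ⟨x, hx, y, hy, hxy⟩ := Submodule.mem_sup.1 h1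
  by_cases ht : sp (m : R) = ⊤
  · have hft : f = ⊤ := top_le_iff.1 (ht ▸ hf.1)
    refine hf.2 α hα ?_
    rw [hft]
    trivial
  set β : R := 1 + x with hβ
  have hβα : β - α = -y := by
    have : α = 1 + (x + y) := by rw [hxy]; ring
    rw [this, hβ]; ring
  have c1 : IsCoprime (sp β) f := by
    refine (cop_congr (α := β) (β := 1) (by rw [hβ, add_sub_cancel_left]; exact hx)).2 ?_
    exact cop_unit isUnit_one f
  have c2 : IsCoprime (sp β) g := by
    refine (cop_congr (α := β) (β := α) (by rw [hβα]; exact g.neg_mem hy)).2 ?_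
    exact cop_le hg.1 hα
  have c3 : IsCoprime (sp β) (f * g) := IsCoprime.mul_right c1 c2
  by_cases hfg : f * g = ⊤
  · have hf1 : f = ⊤ := top_le_iff.1 (hfg ▸ Ideal.mul_le_left)
    refine hf.2 α hα ?_
    rw [hf1]; trivial
  have hβ0 : β ≠ 0 := ne_zero_of_cop hfg c3
  obtain ⟨γ, -, g1, g2⟩ := lift_cop hb hQ.qr (sp_ne_bot (R := R) hθ.pos) hβ0 c3
  have g3 : γ - β ∈ f := Ideal.mul_le_left g2
  have g4 : γ - β ∈ g := Ideal.mul_le_right g2
  have e1 : θ γ = 1 := by
    refine hf.2 γ g1 ?_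
    have : γ - 1 = (γ - β) + x := by rw [hβ]; ring
    rw [this]
    exact f.add_mem g3 hx
  rw [← e1]
  refine hg.per hθ hα g1 ?_
  have : α - γ = -(γ - β) - (β - α) := by ring
  rw [this, hβα]
  exact g.sub_mem (g.neg_mem g4) (g.neg_mem hy)

theorem Md.bar (hQ : QP R ω) (hB : A_BAR) {m : ℕ} {θ : R → ℂ} (hθ : Imp R m θ) {f : Ideal R}
    (hf : Md m θ f) : Md m θ (bar f) := by
  have := hQ.qr.ded
  obtain ⟨k1, k2, k3, k4, k5, k6, k7, k8, k9, k10, k11, k12, k13, k14⟩ := hB R ω hQ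
  refine ⟨?_, fun α hα h1 => ?_⟩
  · have h := Ideal.dvd_iff_le.2 hf.1
    rw [← k13, k7] at h
    exact Ideal.le_of_dvd h
  · obtain ⟨β, hβ⟩ := k1 α
    have hαβ : (α : ℂ) = (starRingEnd ℂ) (β : ℂ) := by rw [hβ, Complex.conj_conj]
    have c1 : IsCoprime (sp β) (sp (m : R)) := by
      rw [← k6 α β hβ, ← k7 m, k14]
      exact hα
    have c2 : β - 1 ∈ f := by
      refine (k2 f (α - 1) (β - 1) ?_).1 h1
      push_cast
      rw [hβ, map_sub, map_one]
    have c3 := hf.2 β c1 c2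
    rw [hθ.bar β α hαβ, c3, map_one]

/-- the primitive Hecke character of `θ` -/
theorem prim_exists (hQ : QP R ω) (hB : A_BAR) {m : ℕ} {θ : R → ℂ} (hθ : Imp R m θ) :
    ∃ (f : Ideal R) (ψ : Ideal R → ℂ), HC 1 f ψ ∧ CS ψ ∧ sp (m : R) ≤ f ∧
      (∀ α : R, IsCoprime (sp α) (sp (m : R)) → ψ (sp α) = θ α * (α : ℂ)) ∧
      (∀ α β : R, IsCoprime (sp α) f → β ≠ 0 → α ≠ 0 → α - β ∈ f →
        ψ (sp α) * (β : ℂ) = ψ (sp β) * (α : ℂ)) := by
  classical
  have hb := Pool.Agent.W287.HK.h_basic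
  have hded := hQ.qr.ded
  have hpid := hQ.pid
  obtain ⟨k1, k2, k3, k4, k5, k6, k7, k8, k9, k10, k11, k12, k13, k14⟩ := hB R ω hQ
  have hm0 : Md m θ (sp (m : R)) := ⟨le_rfl, fun α hα h => by
    rw [hθ.per α 1 h]
    simpa using hθ.unit 1 isUnit_one⟩
  obtain ⟨f, hfM, hfmax⟩ := (wellFounded_gt (α := Ideal R)).has_min {f | Md m θ f} ⟨_, hm0⟩
  have hfmax' : ∀ g : Ideal R, Md m θ g → f ≤ g → g = f := by
    intro g hg hle
    rcases hle.lt_or_eq with h | h
    · exact absurd h (hfmax g hg)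
    · exact h.symm
  have hfbar : bar f = f := by
    have h1 := hfmax' _ (hfM.sup hQ hθ (hfM.bar hQ hB hθ)) le_sup_left
    have h2 : bar f ≤ f := by
      exact le_sup_right.trans h1.le
    have h3 : f ≤ bar f := by
      have h4 := Ideal.dvd_iff_le.2 h2
      rw [← k13, k3] at h4
      exact Ideal.le_of_dvd h4
    exact le_antisymm h2 h3
  have hf0 : f ≠ ⊥ := fun h => sp_ne_bot (R := R) hθ.pos (le_bot_iff.1 (h ▸ hfM.1))
  have hft : f ≠ ⊤ := by
    intro h
    have h1 := hfM.2 (-1) (cop_unit (isUnit_one (M := R)).neg _) (by rw [h]; trivial)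
    have h2 := hθ.unit (-1) (isUnit_one (M := R)).neg
    rw [h1] at h2
    push_cast at h2
    norm_num at h2
  -- lifts
  have hlift : ∀ α : R, ∃ β : R, IsCoprime (sp α) f → IsCoprime (sp β) (sp (m : R)) ∧ β - α ∈ f := by
    intro α
    by_cases h : IsCoprime (sp α) f
    · obtain ⟨β, -, h1, h2⟩ := lift_cop hb hQ.qr (sp_ne_bot (R := R) hθ.pos)
        (ne_zero_of_cop hft h) h
      exact ⟨β, fun _ => ⟨h1, h2⟩⟩
    · exact ⟨0, fun h' => absurd h' h⟩
  choose L hL using hlift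
  set t : R → ℂ := fun α => if IsCoprime (sp α) f then θ (L α) else 0 with ht
  have t_eq : ∀ α β : R, IsCoprime (sp β) (sp (m : R)) → β - α ∈ f → t α = θ β := by
    intro α β h1 h2
    have hα : IsCoprime (sp α) f := (cop_congr h2).1 (cop_le hfM.1 h1)
    simp only [ht, hα, if_true]
    obtain ⟨h3, h4⟩ := hL α hα
    refine hfM.per hθ h3 h1 ?_
    have : L α - β = (L α - α) - (β - α) := by ring
    rw [this]
    exact f.sub_mem h4 h2
  have t_per : ∀ α β : R, α - β ∈ f → t α = t β := by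
    intro α β h
    by_cases hα : IsCoprime (sp α) f
    · obtain ⟨h3, h4⟩ := hL α hα
      rw [t_eq α (L α) h3 h4, t_eq β (L α) h3]
      have : L α - β = (L α - α) + (α - β) := by ring
      rw [this]
      exact f.add_mem h4 h
    · have hβ : ¬ IsCoprime (sp β) f := fun h' => hα ((cop_congr h).2 h')
      simp only [ht, hα, hβ, if_false]
  have t_zero : ∀ α : R, t α = 0 ↔ ¬ IsCoprime (sp α) f := by
    intro α
    by_cases hα : IsCoprime (sp α) f
    · simp only [ht, hα, if_true, not_true, iff_false]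
      intro h
      exact (hθ.zero _).1 h (hL α hα).1
    · simp only [ht, hα, if_false, not_false_eq_true]
  have t_mul : ∀ α β : R, t (α * β) = t α * t β := by
    intro α β
    by_cases hα : IsCoprime (sp α) f
    · by_cases hβ : IsCoprime (sp β) f
      · obtain ⟨a1, a2⟩ := hL α hα
        obtain ⟨b1, b2⟩ := hL β hβ
        rw [t_eq α _ a1 a2, t_eq β _ b1 b2, ← hθ.mul]
        refine t_eq _ _ (cop_mul a1 b1) ?_
        have : L α * L β - α * β = (L α - α) * L β + α * (L β - β) := by ring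
        rw [this]
        exact f.add_mem (f.mul_mem_right _ a2) (f.mul_mem_left _ b2)
      · rw [(t_zero β).2 hβ, mul_zero, t_zero]
        intro h
        rw [Pool.Agent.Y690.sp_mul] at h
        exact hβ (IsCoprime.of_mul_left_right h)
    · rw [(t_zero α).2 hα, zero_mul, t_zero]
      intro h
      rw [Pool.Agent.Y690.sp_mul] at h
      exact hα (IsCoprime.of_mul_left_left h)
  have t_unit : ∀ u : R, IsUnit u → t u * (u : ℂ) = 1 := by
    intro u hu
    rw [t_eq u u (cop_unit hu _) (by rw [sub_self]; exact f.zero_mem)]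
    exact hθ.unit u hu
  have t_bar : ∀ α β : R, (β : ℂ) = (starRingEnd ℂ) (α : ℂ) → t β = (starRingEnd ℂ) (t α) := by
    intro α β hβ
    have hcop : IsCoprime (sp β) f ↔ IsCoprime (sp α) f := by
      rw [← k6 α β hβ]
      nth_rewrite 1 [← hfbar]
      exact k14 _ _
    by_cases hα : IsCoprime (sp α) f
    · obtain ⟨a1, a2⟩ := hL α hα
      obtain ⟨γ, hγ⟩ := k1 (L α)
      rw [t_eq α _ a1 a2, ← hθ.bar (L α) γ hγ]
      refine t_eq _ _ ?_ ?_
      · rw [← k6 (L α) γ hγ, ← k7 m, k14]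
        exact a1
      · have h := (k2 f (γ - β) (L α - α) (by push_cast; rw [hγ, hβ, ← map_sub, Complex.conj_conj])).2 a2
        rwa [hfbar] at h
    · rw [(t_zero α).2 hα, (t_zero β).2 (fun h => hα (hcop.1 h)), map_zero]
  -- the function on ideals
  set G : Ideal R → R := fun I => Submodule.IsPrincipal.generator I with hG
  have hG1 : ∀ I : Ideal R, sp (G I) = I := fun I => Ideal.span_singleton_generator I
  set ψ : Ideal R → ℂ := fun I => t (G I) * (G I : ℂ) with hψ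
  have hsp : ∀ α : R, ψ (sp α) = t α * (α : ℂ) := by
    intro α
    have h1 : Associated (G (sp α)) α := Ideal.span_singleton_eq_span_singleton.1 (hG1 (sp α))
    obtain ⟨u, hu⟩ := h1
    have h2 := t_unit (u : R) u.isUnit
    show t (G (sp α)) * (G (sp α) : ℂ) = t α * (α : ℂ)
    have h3 : t α * (α : ℂ) = t (G (sp α)) * (G (sp α) : ℂ) * (t (u : R) * ((u : R) : ℂ)) := by
      conv_lhs => rw [← hu]
      rw [t_mul]
      push_cast
      ring
    rw [h3, h2, mul_one]
  have hex : ∀ I : Ideal R, ∃ α : R, I = sp α := fun I => ⟨G I, (hG1 I).symm⟩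
  refine ⟨f, ψ, ⟨hf0, ?_, ?_, ?_, ?_⟩, ?_, hfM.1, ?_, ?_⟩
  · intro I J
    obtain ⟨α, rfl⟩ := hex I
    obtain ⟨β, rfl⟩ := hex J
    rw [← Pool.Agent.Y690.sp_mul, hsp, hsp, hsp, t_mul]
    push_cast
    ring
  · intro I
    obtain ⟨α, rfl⟩ := hex I
    rw [hsp, mul_eq_zero, t_zero, Ideal.span_singleton_eq_bot]
    constructor
    · rintro (h | h)
      · exact Or.inr h
      · exact Or.inl (by exact_mod_cast h)
    · rintro (h | h)
      · right
        rw [h]; simp
      · exact Or.inl h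
  · intro α _ h1
    have e : t α = 1 := by
      rw [t_per α 1 h1]
      simpa using t_unit 1 isUnit_one
    rw [hsp, e, one_mul, pow_one]
  · intro q' hq'
    have hn : ¬ Md m θ q' := fun h => hq'.ne (hfmax' q' h hq'.le).symm
    have hn' : ¬ ∀ α : R, IsCoprime (sp α) (sp (m : R)) → α - 1 ∈ q' → θ α = 1 :=
      fun h => hn ⟨hfM.1.trans hq'.le, h⟩
    push Not at hn'
    obtain ⟨α, a1, a2, a3⟩ := hn'
    have a4 : IsCoprime (sp α) f := cop_le hfM.1 a1
    have a5 : α ≠ 0 := ne_zero_of_cop hft a4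
    refine ⟨α, a5, a2, a4, ?_⟩
    rw [hsp, t_eq α α a1 (by rw [sub_self]; exact f.zero_mem), pow_one]
    intro h
    have a6 : (α : ℂ) ≠ 0 := by exact_mod_cast a5
    exact a3 (mul_right_cancel₀ a6 (by rw [h, one_mul]))
  · intro I
    obtain ⟨α, rfl⟩ := hex I
    obtain ⟨β, hβ⟩ := k1 α
    rw [k6 α β hβ, hsp, hsp, t_bar α β hβ, hβ, map_mul]
  · intro α hα
    rw [hsp, t_eq α α hα (by rw [sub_self]; exact f.zero_mem)]
  · intro α β hα _ _ h
    rw [hsp, hsp, t_per α β h]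
    ring

end Pool.Agent.Y692.QN
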