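import Pool.Agent.Y692.QN.Facts
import Pool.Agent.Y692.QN.Prim
import Pool.Agent.H306R2.RZ.Defs

/-!
Project QT, tasks N3, N4: the quadratic characters `I ↦ (N I / m)` of an imaginary quadratic field of
class number one are primitive of conductor `(m)`.
-/

set_option autoImplicit false

open Complex

namespace Pool.Agent.Y692.QN

open Pool.Agent.W192.HK Pool.Agent.TH936.AC
open Pool.Agent.Y690 (cop_iff cop_congr cop_mono lift_cop ne_zero_of_cop sp_ne)

variable {R : Subring ℂ} {ω : ℂ}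

/-- the number of elements of `R / I` -/
noncomputable def cd (I : Ideal R) : ℕ := Nat.card (R ⧸ I)

theorem nm_eq (I : Ideal R) : nm I = (cd I : ℝ) := rfl

theorem cd_mul (hQ : QP R ω) (I J : Ideal R) : cd (I * J) = cd I * cd J := by
  obtain ⟨-, -, -, h, -⟩ := F_basic R ω hQ.qr
  have := h I J
  simp only [nm_eq] at this
  exact_mod_cast this

theorem cd_bot (hQ : QP R ω) : cd (⊥ : Ideal R) = 0 := by
  obtain ⟨-, h, -⟩ := F_basic R ω hQ.qr
  rw [nm_eq] at h
  exact_mod_cast h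

theorem cd_top : cd (⊤ : Ideal R) = 1 := by
  unfold cd
  have : Subsingleton (R ⧸ (⊤ : Ideal R)) := Ideal.Quotient.subsingleton_iff.2 rfl
  exact Nat.card_unique

theorem cd_pos (hQ : QP R ω) {I : Ideal R} (hI : I ≠ ⊥) : 0 < cd I := by
  obtain ⟨-, -, h, -⟩ := F_basic R ω hQ.qr
  have := h I hI
  rw [nm_eq] at this
  have h2 : (0 : ℝ) < (cd I : ℝ) := by linarith
  exact_mod_cast h2

theorem cd_eq_one (hQ : QP R ω) {I : Ideal R} : cd I = 1 ↔ I = ⊤ := by
  obtain ⟨-, -, -, -, -, -, h, -⟩ := F_basic R ω hQ.qr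
  rw [← h I, nm_eq]
  norm_cast

theorem cd_sp (hQ : QP R ω) (α : R) : (cd (sp α) : ℝ) = Complex.normSq (α : ℂ) := by
  obtain ⟨-, -, -, -, h, -⟩ := F_basic R ω hQ.qr
  rw [← h α, nm_eq]

theorem cd_sp' (hQ : QP R ω) {α β : R} (hβ : (β : ℂ) = (starRingEnd ℂ) (α : ℂ)) :
    ((cd (sp α) : ℕ) : R) = α * β := by
  apply Subtype.ext
  push_cast
  have h := cd_sp hQ α
  have h2 : ((cd (sp α) : ℕ) : ℂ) = ((Complex.normSq (α : ℂ) : ℝ) : ℂ) := by
    rw [← h]; push_cast; rfl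
  rw [hβ, Complex.mul_conj, ← h2]

theorem cd_nat (hQ : QP R ω) (m : ℕ) : cd (sp (m : R)) = m ^ 2 := by
  have h := cd_sp hQ (m : R)
  have h2 : Complex.normSq (((m : R) : R) : ℂ) = (m : ℝ) ^ 2 := by
    push_cast
    rw [Complex.normSq_natCast]; ring
  rw [h2] at h
  exact_mod_cast h

theorem bar_ex (hQ : QP R ω) (α : R) : ∃ β : R, (β : ℂ) = (starRingEnd ℂ) (α : ℂ) :=
  (F_bar R ω hQ).1 α

theorem int_mem (hQ : QP R ω) {m : ℕ} (hm : 0 < m) {k : ℤ} (h : (k : R) ∈ sp (m : R)) :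
    (m : ℤ) ∣ k := by
  obtain ⟨r, hr⟩ := Ideal.mem_span_singleton.1 h
  obtain ⟨x, y, hxy⟩ := (hQ.qr.mem (r : ℂ)).1 r.2
  have e : ((k : R) : ℂ) = (m : ℂ) * (x + y * ω) := by
    rw [hr]
    push_cast
    rw [hxy]
  push_cast at e
  have him := congrArg Complex.im e
  simp at him
  have hy : (y : ℝ) = 0 := by
    rcases him with h | h | h
    · exact absurd h hm.ne'
    · exact_mod_cast h
    · exact absurd h hQ.qr.im.ne'
  have hy' : y = 0 := by exact_mod_cast hy
  rw [hy'] at e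
  refine ⟨x, ?_⟩
  have : (k : ℂ) = (((m : ℤ) * x : ℤ) : ℂ) := by
    rw [e]; push_cast; ring
  exact_mod_cast this

/-- integers in a prime ideal above `p` -/
theorem int_mem_prime {p : ℕ} (hp : p.Prime) {P : Ideal R} (hP : P.IsPrime) (hpP : (p : R) ∈ P)
    {k : ℤ} (h : (k : R) ∈ P) : (p : ℤ) ∣ k := by
  by_contra hk
  have h1 : IsCoprime (p : ℤ) k := (Prime.coprime_iff_not_dvd (Nat.prime_iff_prime_int.1 hp)).2 hk
  obtain ⟨u, v, huv⟩ := h1
  apply hP.ne_top
  rw [Ideal.eq_top_iff_one]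
  have : (1 : R) = (u : R) * (p : R) + (v : R) * (k : R) := by
    have := congrArg (fun z : ℤ => (z : R)) huv
    push_cast at this
    rw [this]
  rw [this]
  exact P.add_mem (P.mul_mem_left _ hpP) (P.mul_mem_left _ h)

/-- the norm is congruent for congruent elements -/
theorem cd_modEq (hQ : QP R ω) {m : ℕ} (hm : 0 < m) {α β : R} (h : α - β ∈ sp (m : R)) :
    (m : ℤ) ∣ (cd (sp α) : ℤ) - (cd (sp β) : ℤ) := by
  obtain ⟨k1, k2, k3, k4, k5, k6, k7, k8, k9, k10, k11, k12, k13, k14⟩ := F_bar R ω hQ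
  obtain ⟨α', hα'⟩ := k1 α
  obtain ⟨β', hβ'⟩ := k1 β
  have h' : α' - β' ∈ sp (m : R) := by
    rw [← k7 m]
    refine (k2 _ (α' - β') (α - β) ?_).2 h
    push_cast
    rw [hα', hβ', map_sub, Complex.conj_conj, Complex.conj_conj]
  apply int_mem hQ hm
  have e : (((cd (sp α) : ℤ) - (cd (sp β) : ℤ) : ℤ) : R) = (α - β) * α' + β * (α' - β') := by
    push_cast
    rw [cd_sp' hQ hα', cd_sp' hQ hβ']
    ring
  rw [e]
  exact Ideal.add_mem _ (Ideal.mul_mem_right _ _ h) (Ideal.mul_mem_left _ _ h')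

theorem mem_cd (hQ : QP R ω) {I : Ideal R} (hI : I ≠ ⊥) : ((cd I : ℕ) : R) ∈ I := by
  obtain ⟨k1, k2, k3, k4, k5, k6, k7, k8, k9, k10, k11, k12, k13, k14⟩ := F_bar R ω hQ
  have h : I * bar I = sp ((cd I : ℕ) : R) := k9 I hI
  have h1 : ((cd I : ℕ) : R) ∈ I * bar I := by
    rw [h]
    exact Ideal.mem_span_singleton_self _
  exact Ideal.mul_le_left h1

/-- coprimality with a natural number can be read off the norm -/
theorem cop_nat (hQ : QP R ω) {I : Ideal R} (hI : I ≠ ⊥) {m : ℕ} (hm : 0 < m) :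
    IsCoprime I (sp (m : R)) ↔ Nat.Coprime (cd I) m := by
  obtain ⟨k1, k2, k3, k4, k5, k6, k7, k8, k9, k10, k11, k12, k13, k14⟩ := F_bar R ω hQ
  constructor
  · intro h
    have h1 : IsCoprime (bar I) (sp (m : R)) := by
      rw [← k7 m, k14]
      exact h
    have h2 : IsCoprime (I * bar I) (sp (m : R)) := IsCoprime.mul_left h h1
    rw [k9 I hI] at h2
    obtain ⟨x, hx⟩ := cop_iff.1 h2
    set d := Nat.gcd (cd I) m with hd
    have hd0 : 0 < d := Nat.gcd_pos_of_pos_right _ hm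
    have h3 : (1 : R) ∈ sp (d : R) := by
      obtain ⟨u, hu⟩ := Ideal.mem_span_singleton.1 hx
      obtain ⟨a, ha⟩ := Nat.gcd_dvd_left (cd I) m
      obtain ⟨b, hb⟩ := Nat.gcd_dvd_right (cd I) m
      have : (1 : R) = (d : R) * ((a : R) * x - (b : R) * u) := by
        have e1 : ((cd I : ℕ) : R) = (d : R) * (a : R) := by
          rw [← Nat.cast_mul]; exact congrArg _ ha
        have e2 : ((m : ℕ) : R) = (d : R) * (b : R) := by
          rw [← Nat.cast_mul]; exact congrArg _ hb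
        have e3 : (1 : R) = ((cd I : ℕ) : R) * x - (m : R) * u := by
          rw [← hu]
          unfold cd
          ring
        rw [e3, e1, e2]
        ring
      rw [this]
      exact Ideal.mul_mem_right _ _ (Ideal.mem_span_singleton_self _)
    have h4 := int_mem hQ hd0 (k := 1) (by simpa using h3)
    have h5 : d ∣ 1 := by exact_mod_cast h4
    exact Nat.dvd_one.1 h5
  · intro h
    rw [Ideal.isCoprime_iff_exists]
    have h1 : IsCoprime (cd I : ℤ) (m : ℤ) := Nat.isCoprime_iff_coprime.2 h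
    obtain ⟨u, v, huv⟩ := h1
    refine ⟨(u : R) * ((cd I : ℕ) : R), Ideal.mul_mem_left _ _ (mem_cd hQ hI), (v : R) * (m : R),
      Ideal.mul_mem_left _ _ (Ideal.mem_span_singleton_self _), ?_⟩
    have := congrArg (fun z : ℤ => (z : R)) huv
    push_cast at this
    exact this

open Classical in
/-- the quadratic character `I ↦ (N I / m)` -/
noncomputable def chm (m : ℕ) (I : Ideal R) : ℂ :=
  if I = ⊥ then 0 else ((jacobiSym (cd I : ℤ) m : ℤ) : ℂ)

theorem chm_bot (m : ℕ) : chm m (⊥ : Ideal R) = 0 := if_pos rfl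

theorem chm_of {m : ℕ} {I : Ideal R} (hI : I ≠ ⊥) :
    chm m I = ((jacobiSym (cd I : ℤ) m : ℤ) : ℂ) := if_neg hI

/-- a prime which is not inert and not ramified -/
theorem split_ex (hQ : QP R ω) {p : ℕ} (hp : p.Prime)
    (hram : ∀ P : Ideal R, P.IsPrime → P ≠ ⊥ → P ∣ sp (p : R) → bar P = P → P = sp (p : R))
    (hin : ¬ (sp (p : R)).IsPrime) :
    ∃ P : Ideal R, P.IsPrime ∧ P ≠ ⊥ ∧ P * bar P = sp (p : R) ∧ IsCoprime P (bar P) ∧
      cd P = p := by
  obtain ⟨k1, k2, k3, k4, k5, k6, k7, k8, k9, k10, k11, k12, k13, k14⟩ := F_bar R ω hQ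
  have hded := hQ.qr.ded
  have hp0 : sp (p : R) ≠ ⊥ := sp_ne_bot hp.pos
  have hpt : sp (p : R) ≠ ⊤ := by
    intro h
    have h1 := cd_nat hQ p
    rw [h, cd_top] at h1
    have := hp.one_lt
    nlinarith
  obtain ⟨P, hPm, hP⟩ := Ideal.exists_le_maximal _ hpt
  have hPp : P.IsPrime := hPm.isPrime
  have hPd : P ∣ sp (p : R) := Ideal.dvd_iff_le.2 hP
  have hPb : P ≠ ⊥ := by
    rintro rfl
    exact hp0 (le_bot_iff.1 hP)
  have hne : bar P ≠ P := fun h => hin (hram P hPp hPb hPd h ▸ hPp)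
  have hbP : (bar P).IsPrime := k12 P hPp
  have hbPb : bar P ≠ ⊥ := by
    intro h
    apply hPb
    rw [← k3 P, h, k10]
  have hbd : bar P ∣ sp (p : R) := by
    rw [← k7 p, k13]
    exact hPd
  have hPmax : P.IsMaximal := hPm
  have hbmax : (bar P).IsMaximal := hbP.isMaximal hbPb
  have hcop : IsCoprime P (bar P) := Ideal.isCoprime_of_isMaximal hne.symm
  have hmul : P * bar P ∣ sp (p : R) := hcop.mul_dvd hPd hbd
  have hcd : P * bar P = sp ((cd P : ℕ) : R) := k9 P hPb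
  have h1 : ((p : ℤ) : R) ∈ sp ((cd P : ℕ) : R) := by
    rw [← hcd]
    have := Ideal.le_of_dvd hmul
    apply this
    push_cast
    exact Ideal.mem_span_singleton_self _
  have h2 := int_mem hQ (cd_pos hQ hPb) h1
  have h3 : cd P ∣ p := by exact_mod_cast h2
  have h4 : cd P = p := by
    rcases (Nat.dvd_prime hp).1 h3 with h | h
    · exact absurd ((cd_eq_one hQ).1 h) hPp.ne_top
    · exact h
  refine ⟨P, hPp, hPb, ?_, hcop, h4⟩
  rw [hcd, h4]

/-- an element congruent to one modulo `bar P` of given norm modulo `p` -/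
theorem elt_ex (hQ : QP R ω) {p : ℕ} (hp : p.Prime) {P : Ideal R} (hPp : P.IsPrime)
    (hP : P * bar P = sp (p : R)) (hcop : IsCoprime P (bar P)) (g : ℤ) :
    ∃ α : R, α - 1 ∈ bar P ∧ (p : ℤ) ∣ (cd (sp α) : ℤ) - g := by
  obtain ⟨k1, k2, k3, k4, k5, k6, k7, k8, k9, k10, k11, k12, k13, k14⟩ := F_bar R ω hQ
  obtain ⟨δ, hδ, β, hβ, hsum⟩ := Ideal.isCoprime_iff_exists.1 hcop
  obtain ⟨β', hβ'⟩ := k1 β
  have hβP : β' ∈ P := by
    have := (k2 P β β' hβ').1 hβ
    exact this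
  set α : R := 1 + β * ((g : R) - 1) with hα
  set α' : R := 1 + β' * ((g : R) - 1) with hα'
  have hαα' : (α' : ℂ) = (starRingEnd ℂ) (α : ℂ) := by
    rw [hα, hα']
    push_cast
    rw [hβ']
    simp
  refine ⟨α, ?_, ?_⟩
  · rw [hα, add_sub_cancel_left]
    exact Ideal.mul_mem_right _ _ hβ
  · have hpP : (p : R) ∈ P := by
      have : (p : R) ∈ P * bar P := by
        rw [hP]; exact Ideal.mem_span_singleton_self _
      exact Ideal.mul_le_left this
    apply int_mem_prime hp hPp hpP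
    have e : (((cd (sp α) : ℤ) - g : ℤ) : R) = ((1 - (g : R)) * δ) * α' + (g : R) * (β' * ((g : R) - 1)) := by
      push_cast
      rw [cd_sp' hQ hαα', hα, hα']
      have : δ = 1 - β := by rw [← hsum]; ring
      rw [this]
      ring
    have m1 : ((1 - (g : R)) * δ) * α' ∈ P := P.mul_mem_right α' (P.mul_mem_left (1 - (g : R)) hδ)
    have m2 : (g : R) * (β' * ((g : R) - 1)) ∈ P :=
      P.mul_mem_left (g : R) (P.mul_mem_right ((g : R) - 1) hβP)
    exact e ▸ P.add_mem m1 m2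

/-- elements of given norm modulo an odd prime not dividing the discriminant -/
theorem norm_surj (hQ : QP R ω) {p D0 : ℕ} (hp : p.Prime) (hp2 : p ≠ 2)
    (hD : 4 * ω.im ^ 2 = (D0 : ℝ)) (hpD : ¬ p ∣ D0) (g : ℤ) :
    ∃ α : R, (p : ℤ) ∣ (cd (sp α) : ℤ) - g := by
  have : Fact p.Prime := ⟨hp⟩
  -- `ω ^ 2 = t ω - n`
  have hω : ω ∈ R := (hQ.qr.mem ω).2 ⟨0, 1, by push_cast; ring⟩
  obtain ⟨n, t, hnt⟩ := (hQ.qr.mem (ω ^ 2)).1 (R.pow_mem hω 2)
  have him := congrArg Complex.im hnt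
  have hre := congrArg Complex.re hnt
  simp [pow_two] at him hre
  have hi := hQ.qr.im
  have ht : (t : ℝ) = 2 * ω.re := by
    have h1 : ω.im * (2 * ω.re - t) = 0 := by linarith
    rcases mul_eq_zero.1 h1 with h | h
    · exact absurd h hi.ne'
    · linarith
  have hn : (n : ℝ) = -(Complex.normSq ω) := by
    rw [Complex.normSq_apply]
    rw [ht] at hre
    nlinarith
  have hDt : (D0 : ℤ) = -4 * n - t ^ 2 := by
    have : ((D0 : ℤ) : ℝ) = ((-4 * n - t ^ 2 : ℤ) : ℝ) := by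
      push_cast
      rw [← hD, hn, ht, Complex.normSq_apply]
      ring
    exact_mod_cast this
  -- the norm form
  have hnorm : ∀ x y : ℤ, ∃ α : R, (cd (sp α) : ℤ) = x ^ 2 + t * x * y - n * y ^ 2 := by
    intro x y
    refine ⟨⟨(x : ℂ) + y * ω, (hQ.qr.mem _).2 ⟨x, y, rfl⟩⟩, ?_⟩
    have h := cd_sp hQ (⟨(x : ℂ) + y * ω, (hQ.qr.mem _).2 ⟨x, y, rfl⟩⟩ : R)
    have h2 : Complex.normSq ((x : ℂ) + y * ω) = ((x ^ 2 + t * x * y - n * y ^ 2 : ℤ) : ℝ) := by
      push_cast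
      rw [hn, ht, Complex.normSq_apply, Complex.normSq_apply]
      simp
      ring
    rw [show ((⟨(x : ℂ) + y * ω, (hQ.qr.mem _).2 ⟨x, y, rfl⟩⟩ : R) : ℂ) = (x : ℂ) + y * ω from rfl, h2] at h
    exact_mod_cast h
  -- solve modulo p
  have hD' : (D0 : ZMod p) ≠ 0 := by
    rw [Ne, ZMod.natCast_eq_zero_iff]
    exact hpD
  have h2' : (2 : ZMod p) ≠ 0 := by
    have : ((2 : ℕ) : ZMod p) ≠ 0 := by
      rw [Ne, ZMod.natCast_eq_zero_iff]
      intro h
      exact hp2 ((Nat.prime_dvd_prime_iff_eq hp Nat.prime_two).1 h)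
    exact_mod_cast this
  obtain ⟨X, Y, hXY⟩ := FiniteField.exists_root_sum_quadratic
    (R := ZMod p) (f := Polynomial.X ^ 2)
    (g := Polynomial.C (D0 : ZMod p) * Polynomial.X ^ 2 - Polynomial.C (4 * (g : ZMod p)))
    (by simp) (by
      rw [Polynomial.degree_sub_C]
      · exact Polynomial.degree_C_mul_X_pow 2 hD'
      · rw [Polynomial.degree_C_mul_X_pow 2 hD']
        norm_num)
    (by
      rw [ZMod.card]
      exact Nat.odd_iff.1 (hp.odd_of_ne_two hp2))
  simp at hXY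
  set xx : ZMod p := (X - t * Y) / 2 with hxx
  obtain ⟨x, hx⟩ := ZMod.intCast_surjective xx
  obtain ⟨y, hy⟩ := ZMod.intCast_surjective Y
  obtain ⟨α, hα⟩ := hnorm x y
  refine ⟨α, ?_⟩
  rw [hα]
  rw [← ZMod.intCast_eq_intCast_iff_dvd_sub]
  push_cast
  rw [hx, hy]
  have e1 : (2 * xx : ZMod p) = X - t * Y := by
    rw [hxx]; field_simp
  have e2 : (4 : ZMod p) * (xx ^ 2 + t * xx * Y - n * Y ^ 2) = 4 * (g : ZMod p) := by
    have e3 : (D0 : ZMod p) = -4 * n - t ^ 2 := by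
      have := congrArg (fun z : ℤ => (z : ZMod p)) hDt
      push_cast at this
      exact this
    have e4 : (4 : ZMod p) * (xx ^ 2 + t * xx * Y - n * Y ^ 2) =
        (2 * xx + t * Y) ^ 2 + (D0 : ZMod p) * Y ^ 2 := by
      rw [e3]; ring
    rw [e4, e1]
    linear_combination hXY
  have h4 : (4 : ZMod p) ≠ 0 := by
    have : (4 : ZMod p) = 2 * 2 := by norm_num
    rw [this]
    exact mul_ne_zero h2' h2'
  exact (mul_left_cancel₀ h4 e2).symm

theorem mul_ne_bot (hQ : QP R ω) {I J : Ideal R} (hI : I ≠ ⊥) (hJ : J ≠ ⊥) : I * J ≠ ⊥ := by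
  have := hQ.qr.ded
  exact mul_ne_zero hI hJ

theorem chm_mul (hQ : QP R ω) {m : ℕ} (I J : Ideal R) : chm m (I * J) = chm m I * chm m J := by
  by_cases hI : I = ⊥
  · subst hI
    rw [Ideal.bot_mul, chm_bot, zero_mul]
  by_cases hJ : J = ⊥
  · subst hJ
    rw [Ideal.mul_bot, chm_bot, mul_zero]
  rw [chm_of hI, chm_of hJ, chm_of (mul_ne_bot hQ hI hJ), cd_mul hQ]
  push_cast
  rw [jacobiSym.mul_left]
  push_cast
  rfl

theorem chm_zero (hQ : QP R ω) {m : ℕ} (hm : 0 < m) (I : Ideal R) :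
    chm m I = 0 ↔ (I = ⊥ ∨ ¬ IsCoprime I (sp (m : R))) := by
  by_cases hI : I = ⊥
  · subst hI
    simp [chm_bot]
  have : NeZero m := ⟨hm.ne'⟩
  rw [chm_of hI, cop_nat hQ hI hm]
  constructor
  · intro h
    have h1 : jacobiSym (cd I : ℤ) m = 0 := by exact_mod_cast h
    rw [jacobiSym.eq_zero_iff_not_coprime] at h1
    refine Or.inr fun h2 => h1 ?_
    rw [Int.gcd_natCast_natCast]
    exact h2
  · rintro (h | h)
    · exact absurd h hI
    · have h1 : jacobiSym (cd I : ℤ) m = 0 := by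
        rw [jacobiSym.eq_zero_iff_not_coprime, Int.gcd_natCast_natCast]
        exact h
      rw [h1]
      push_cast
      rfl

theorem jac_congr {a b : ℤ} {m : ℕ} (h : (m : ℤ) ∣ a - b) : jacobiSym a m = jacobiSym b m := by
  exact jacobiSym.mod_left' (Int.ModEq.symm (Int.modEq_iff_dvd.2 h))

theorem chm_princ (hQ : QP R ω) {m : ℕ} (hm : 0 < m) {α : R} (h0 : α ≠ 0)
    (h : α - 1 ∈ sp (m : R)) : chm m (sp α) = 1 := by
  rw [chm_of (sp_ne h0), jac_congr (cd_modEq hQ hm h)]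
  have : sp (1 : R) = ⊤ := Ideal.span_singleton_one
  rw [this, cd_top]
  simp

theorem chm_ne_one (hQ : QP R ω) {p : ℕ} (hp : p.Prime) {α : R} {g : ℤ}
    (hg : jacobiSym g p = -1) (h : (p : ℤ) ∣ (cd (sp α) : ℤ) - g) :
    α ≠ 0 ∧ IsCoprime (sp α) (sp (p : R)) ∧ chm p (sp α) = -1 := by
  have hα : α ≠ 0 := by
    rintro rfl
    have h1 : sp (0 : R) = ⊥ := by rw [Ideal.span_singleton_eq_bot]
    rw [h1, cd_bot hQ] at h
    have h2 := jac_congr h
    have : Fact p.Prime := ⟨hp⟩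
    rw [hg] at h2
    rw [Nat.cast_zero, jacobiSym.zero_left hp.one_lt] at h2
    norm_num at h2
  have h3 : chm p (sp α) = -1 := by
    rw [chm_of (sp_ne hα), jac_congr h, hg]
    push_cast
    rfl
  refine ⟨hα, ?_, h3⟩
  by_contra hc
  have := (chm_zero hQ hp.pos (sp α)).2 (Or.inr hc)
  rw [h3] at this
  norm_num at this

theorem hc_prime (hQ : QP R ω) {p D0 : ℕ} (hp : p.Prime) (hp2 : p ≠ 2)
    (hD : 4 * ω.im ^ 2 = (D0 : ℝ)) (hpD : ¬ p ∣ D0)
    (hram : ∀ P : Ideal R, P.IsPrime → P ≠ ⊥ → P ∣ sp (p : R) → bar P = P → P = sp (p : R)) :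
    HC 0 (sp (p : R)) (chm p) := by
  obtain ⟨k1, k2, k3, k4, k5, k6, k7, k8, k9, k10, k11, k12, k13, k14⟩ := F_bar R ω hQ
  have hded := hQ.qr.ded
  have : Fact p.Prime := ⟨hp⟩
  obtain ⟨g, hg⟩ : ∃ g : ℤ, jacobiSym g p = -1 := by
    obtain ⟨a, ha⟩ := FiniteField.exists_nonsquare (F := ZMod p) (by
      rw [ZMod.ringChar_zmod_n]; exact hp2)
    obtain ⟨g, rfl⟩ := ZMod.intCast_surjective a
    refine ⟨g, ?_⟩
    rw [← jacobiSym.legendreSym.to_jacobiSym, legendreSym.eq_neg_one_iff]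
    exact ha
  have key : ∀ q' : Ideal R, (∃ α : R, α - 1 ∈ q' ∧ (p : ℤ) ∣ (cd (sp α) : ℤ) - g) →
      ∃ α : R, α ≠ 0 ∧ α - 1 ∈ q' ∧ IsCoprime (sp α) (sp (p : R)) ∧
        chm p (sp α) ≠ (α : ℂ) ^ 0 := by
    rintro q' ⟨α, h1, h2⟩
    obtain ⟨h3, h4, h5⟩ := chm_ne_one hQ hp hg h2
    refine ⟨α, h3, h1, h4, ?_⟩
    rw [h5, pow_zero]
    norm_num
  refine ⟨sp_ne_bot hp.pos, chm_mul hQ, chm_zero hQ hp.pos, fun α h0 h => ?_, fun q' hq' => ?_⟩
  · rw [pow_zero]
    exact chm_princ hQ hp.pos h0 h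
  · apply key
    by_cases hin : (sp (p : R)).IsPrime
    · have hmax : (sp (p : R)).IsMaximal := hin.isMaximal (sp_ne_bot hp.pos)
      have htop : q' = ⊤ := hmax.1.2 q' hq'
      obtain ⟨α, hα⟩ := norm_surj hQ hp hp2 hD hpD g
      exact ⟨α, by rw [htop]; trivial, hα⟩
    · obtain ⟨P, hPp, hPb, hPP, hcop, -⟩ := split_ex hQ hp hram hin
      have hP0 : P ≠ 0 := hPb
      obtain ⟨J, hJ⟩ := Ideal.dvd_iff_le.2 hq'.le
      have hJt : J ≠ ⊤ := by
        rintro rfl
        rw [Ideal.mul_top] at hJ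
        exact hq'.ne hJ
      obtain ⟨M, hM, hJM⟩ := Ideal.exists_le_maximal J hJt
      have hMp : Prime M := by
        refine Ideal.prime_of_isPrime ?_ hM.isPrime
        rintro rfl
        have : J = ⊥ := le_bot_iff.1 hJM
        rw [this, Ideal.mul_bot] at hJ
        exact sp_ne_bot hp.pos hJ
      obtain ⟨J', hJ'⟩ := Ideal.dvd_iff_le.2 hJM
      have hbP : Prime (bar P) := Ideal.prime_of_isPrime (by
        intro h
        apply hPb
        rw [← k3 P, h, k10]) (k12 P hPp)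
      have hPP' : Prime P := Ideal.prime_of_isPrime hPb hPp
      have e1 : P * bar P = q' * (M * J') := by rw [hPP, hJ, hJ']
      have hMd : M ∣ P * bar P := by
        rw [e1]
        exact Dvd.dvd.mul_left (dvd_mul_right _ _) _
      rcases hMp.dvd_or_dvd hMd with h | h
      · have hMP : M = P := associated_iff_eq.1 (hMp.associated_of_dvd hPP' h)
        have e2 : bar P = q' * J' := by
          apply mul_left_cancel₀ hP0
          rw [e1, hMP]
          ring
        have h3 : bar P ≤ q' := Ideal.le_of_dvd ⟨J', e2⟩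
        obtain ⟨α, hα1, hα2⟩ := elt_ex hQ hp hPp hPP hcop g
        exact ⟨α, h3 hα1, hα2⟩
      · have hMP : M = bar P := associated_iff_eq.1 (hMp.associated_of_dvd hbP h)
        have e2 : P = q' * J' := by
          apply mul_right_cancel₀ hbP.ne_zero
          rw [e1, hMP]
          ring
        have h3 : P ≤ q' := Ideal.le_of_dvd ⟨J', e2⟩
        obtain ⟨α, hα1, hα2⟩ := elt_ex hQ hp (P := bar P) (k12 P hPp) (by rw [k3, mul_comm, hPP])
          (by rw [k3]; exact hcop.symm) g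
        rw [k3] at hα1
        exact ⟨α, h3 hα1, hα2⟩

/-- the quadratic character modulo `m` -/
theorem hc_chm (hQ : QP R ω) {D0 : ℕ} (hD : 4 * ω.im ^ 2 = (D0 : ℝ)) :
    ∀ m : ℕ, Odd m → Squarefree m → (∀ p : ℕ, p.Prime → p ∣ m → ¬ p ∣ D0 ∧
      ∀ P : Ideal R, P.IsPrime → P ≠ ⊥ → P ∣ sp (p : R) → bar P = P → P = sp (p : R)) →
    HC 0 (sp (m : R)) (chm m) := by
  intro m
  induction m using Nat.strong_induction_on with
  | _ m ih =>
    intro hodd hsq hp
    have hm0 : 0 < m := hodd.pos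
    by_cases hm1 : m = 1
    · subst hm1
      have h1 : sp ((1 : ℕ) : R) = ⊤ := by
        rw [Nat.cast_one]
        exact Ideal.span_singleton_one
      refine ⟨?_, chm_mul hQ, chm_zero hQ one_pos, fun α h0 h => ?_, fun q' hq' => ?_⟩
      · rw [h1]; exact top_ne_bot
      · rw [pow_zero]
        exact chm_princ hQ one_pos h0 h
      · rw [h1] at hq'
        exact absurd hq' not_top_lt
    · obtain ⟨p, hpp, hpm⟩ := Nat.exists_prime_and_dvd hm1
      obtain ⟨m', rfl⟩ := hpm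
      have hm'0 : 0 < m' := Nat.pos_of_mul_pos_left hm0 |> fun h => by
        rcases Nat.eq_zero_or_pos m' with h' | h'
        · subst h'; simp at hm0
        · exact h'
      have hcop : Nat.Coprime p m' := Nat.coprime_of_squarefree_mul hsq
      have hlt : m' < p * m' := by
        have := hpp.one_lt
        nlinarith
      obtain ⟨ho1, ho2⟩ := Nat.odd_mul.1 hodd
      have hsq' : Squarefree m' := hsq.squarefree_of_dvd (dvd_mul_left _ _)
      have h1 := ih m' hlt ho2 hsq' (fun q hq hqm => hp q hq (Dvd.dvd.mul_left hqm _))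
      obtain ⟨h2a, h2b⟩ := hp p hpp (dvd_mul_right _ _)
      have hp2 : p ≠ 2 := by
        rintro rfl
        exact (by decide : ¬ Odd 2) ho1
      have h2 := hc_prime hQ hpp hp2 hD h2a h2b
      have hc : IsCoprime (sp (p : R)) (sp (m' : R)) := by
        rw [cop_nat hQ (sp_ne_bot hpp.pos) hm'0, cd_nat hQ]
        exact Nat.Coprime.pow_left 2 hcop
      have h3 := F_prod R ω hQ.qr 0 _ _ _ _ h2 h1 hc
      have e1 : sp (p : R) * sp (m' : R) = sp ((p * m' : ℕ) : R) := by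
        rw [← Pool.Agent.Y690.sp_mul]
        push_cast
        rfl
      rw [e1] at h3
      have e2 : (fun I : Ideal R => chm p I * chm m' I) = chm (p * m') := by
        funext I
        by_cases hI : I = ⊥
        · subst hI
          rw [chm_bot, chm_bot, chm_bot, zero_mul]
        · have : NeZero p := ⟨hpp.ne_zero⟩
          have : NeZero m' := ⟨hm'0.ne'⟩
          rw [chm_of hI, chm_of hI, chm_of hI, jacobiSym.mul_right]
          push_cast
          rfl
      rw [e2] at h3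
      exact h3

end Pool.Agent.Y692.QN
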